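import Pool.Agent.Lib.MP_adc574_ag_OAP.E2

/-!
# Theorem A+, leaf E3: the exponents of the derivatives of the forms

Models: leaf S8 (`natDegree_nab`, `natDegree_nab_iterate`).
-/

set_option autoImplicit false

namespace MPadcOA

open Polynomial Matrix

variable {k : Type*} [Field k] {g m : ℕ}

theorem Sp_nab {p : ℕ} [CharP k p] {q r c A A' : ℕ} (hpq : p ∣ q) (Δ : k[X]) (G : Matrix (Nx g) (Nx g) k[X])
    (hΔ : Sp q r c c Δ) (hG : ∀ i j, Sp q r c c (G i j)) (Φ : Kx g m → k[X])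
    (hΦ : ∀ s, Sp q r A A' (Φ s)) (s : Kx g m) : Sp q r (A + c) (A' + c) (nab Δ G Φ s) := by
  unfold nab
  refine Sp.add ?_ ?_
  · have h1 := Sp.mul hΔ (Sp.derivative hpq (hΦ s))
    rw [add_comm c A, add_comm c A'] at h1
    exact h1
  · unfold TT
    refine Sp.sum _ _ fun i _ => Sp.sum _ _ fun l _ => ?_
    have h1 := Sp.mul (hG (s i).2 l) (hΦ (Function.update s i ((s i).1, l)))
    rw [add_comm c A, add_comm c A'] at h1
    exact h1

theorem Sp_nab_iterate {p : ℕ} [CharP k p] {q r c A A' : ℕ} (hpq : p ∣ q) (Δ : k[X])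
    (G : Matrix (Nx g) (Nx g) k[X]) (hΔ : Sp q r c c Δ) (hG : ∀ i j, Sp q r c c (G i j))
    (Φ : Kx g m → k[X]) (hΦ : ∀ s, Sp q r A A' (Φ s)) (e : ℕ) (s : Kx g m) :
    Sp q r (A + c * e) (A' + c * e) ((nab Δ G)^[e] Φ s) := by
  induction e generalizing s with
  | zero =>
    rw [Function.iterate_zero, id_eq, Nat.mul_zero, Nat.add_zero, Nat.add_zero]
    exact hΦ s
  | succ e ih =>
    rw [Function.iterate_succ_apply']
    have h1 := Sp_nab hpq Δ G hΔ hG _ ih s
    have h2 : A + c * e + c = A + c * (e + 1) := by ring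
    have h3 : A' + c * e + c = A' + c * (e + 1) := by ring
    rw [h2, h3] at h1
    exact h1

end MPadcOA
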