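import Pool.Agent.Lib.MP_adc574_ag_OAP.E5

/-!
# Theorem A+, leaf E6: the auxiliary polynomial is not zero

MODEL: leaf S13 (`aux_ne_zero`). Let `q = p ^ n`, `Q = q ^ (r + 1)`. Choose `b₀`, `n₁` with `v_(b₀, n₁) ≠ 0`, `v_(b, i) = evg (fun s => (Φ b s).coeff i)`,
and a monomial `e₀` at which its coefficient is not zero; `n₁ ∈ E = EE q r A A'`; put `n₀ = n₁ % q` and
`H = ∑_b ∑_(i ∈ E, i % q = n₀) C (coeff e₀ v_(b, i)) * X ^ (Q b + q (i / q))`. `H ≠ 0`: the exponents `Q b + q (i / q)` are different for different `(b, i)`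
(`q (i / q) ≤ i < Q` by `lt_of_mem_EE`, so `b` is the quotient by `Q`, and `i = q (i / q) + n₀`), so the coefficient of `H` at `Q b₀ + q (n₁ / q)` is
`coeff e₀ v_(b₀, n₁) ≠ 0`. `k` is infinite, so there is `α` with `(H * Bad)(α) ≠ 0` (as in S13). Let `β = α ^ q` and
`Ψ s = ∑_b C (α ^ (Q b)) * redq q β E (Φ b s)`, of degree `≤ A` (`redq_natDegree`, `mod_le_of_mem_EE`). Take `U'` from `Hnv α`. Modulo `(X - C α) ^ q`:
`X ^ (Q b) = α ^ (Q b)` (as in S13: `X ^ Q - C (α ^ Q) = (X - C α) ^ Q`), `Φ b s = redq (Φ b s)` (`redq_dvd`), `U = U'`; so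
`0 = aux Q U Φ = ∑_b X ^ (Q b) ev U (Φ b) = ev U' Ψ` (`ev_congr`), hence `(X - C α) ^ p ∣ ev U' Ψ` (`p ≤ q`) and `Van Ψ`. By `van_poly` at `n₀` and
`redq_coeff`: `0 = evg (fun s => (Ψ s).coeff n₀) = ∑_b α ^ (Q b) • ∑_(i ∈ E, i % q = n₀) β ^ (i / q) • v_(b, i)`, whose coefficient at `e₀` is `H(α)`: contradiction.
-/

set_option autoImplicit false

namespace MPadcOA

open Polynomial Matrix

variable {k : Type*} [Field k] [Infinite k] {g m : ℕ}

private theorem E6_pt (P : k[X]) (hP : P ≠ 0) : ∃ α : k, P.eval α ≠ 0 := by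
  by_contra hcon
  push Not at hcon
  exact hP (Polynomial.funext fun x => by rw [hcon x, eval_zero])

private theorem E6_quot {Q x y b c : ℕ} (hx : x < Q) (hy : y < Q) (h : Q * b + x = Q * c + y) :
    b = c ∧ x = y := by
  have hQ : 0 < Q := lt_of_le_of_lt (Nat.zero_le _) hx
  have h1 : (Q * b + x) / Q = b := by
    rw [Nat.mul_add_div hQ, Nat.div_eq_of_lt hx, add_zero]
  have h2 : (Q * c + y) / Q = c := by
    rw [Nat.mul_add_div hQ, Nat.div_eq_of_lt hy, add_zero]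
  have h3 : b = c := by
    rw [← h1, h, h2]
  refine ⟨h3, ?_⟩
  rw [h3] at h
  exact Nat.add_left_cancel h

theorem aux_ne_zero2 {p : ℕ} [Fact p.Prime] [CharP k p] {B : ℕ} (n : ℕ) (hn : 0 < n) (r A A' : ℕ)
    (hA : A < p ^ n) (hA' : A' < p ^ n) (U : Matrix (Fin g) (Nx g) k[X]) (Φ : Fin B → Kx g m → k[X])
    (hΦ : ∀ b s, Sp (p ^ n) r A A' (Φ b s))
    (hne : ∃ b i, evg g m k (fun s => (Φ b s).coeff i) ≠ 0) (Bad : k[X]) (hBad : Bad ≠ 0)
    (Hnv : ∀ α : k, Bad.eval α ≠ 0 → ∃ U' : Matrix (Fin g) (Nx g) k[X],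
      (∀ i l, (X - C α) ^ (p ^ n) ∣ U i l - U' i l) ∧
      ∀ Ψ : Kx g m → k[X], (∀ s, (Ψ s).natDegree ≤ A) → (X - C α) ^ p ∣ ev U' Ψ → Van Ψ) :
    aux ((p ^ n) ^ (r + 1)) U Φ ≠ 0 := by
  classical
  intro haux
  obtain ⟨b₀, n₁, hb₀⟩ := hne
  have hp : 0 < p := (Fact.out : p.Prime).pos
  have hp1 : p ≤ p ^ n := Nat.le_self_pow hn.ne' p
  have hredp : ∀ (α : k) (b : Fin B) (s : Kx g m), (X - C α) ^ (p ^ n) ∣
      Φ b s - redq (p ^ n) (α ^ (p ^ n)) (EE (p ^ n) r A A') (Φ b s) :=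
    fun α b s => redq_dvd n α _ _ (hΦ b s)
  have hcharp : ∀ α : k, (X - C α : k[X]) ^ p ^ n = X ^ p ^ n - C α ^ p ^ n :=
    fun α => sub_pow_char_pow _ _ n
  obtain ⟨q, hqd⟩ : ∃ q, q = p ^ n := ⟨_, rfl⟩
  rw [← hqd] at hA hA' haux hp1
  simp only [← hqd] at hΦ Hnv hredp hcharp
  have hq : 0 < q := by
    rw [hqd]
    exact pow_pos hp n
  obtain ⟨E, hE⟩ : ∃ E, E = EE q r A A' := ⟨_, rfl⟩
  obtain ⟨Q, hQ⟩ : ∃ Q, Q = q ^ (r + 1) := ⟨_, rfl⟩
  simp only [← hE] at hredp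
  rw [← hQ] at haux
  have hEQ : ∀ i ∈ E, q * (i / q) < Q := by
    intro i hi
    rw [hE] at hi
    rw [hQ]
    exact lt_of_le_of_lt (Nat.mul_div_le i q) (lt_of_mem_EE hA hA' hi)
  obtain ⟨v, hv⟩ : ∃ v : Fin B → ℕ → GenR g k,
      ∀ b i, v b i = evg g m k (fun s => (Φ b s).coeff i) := ⟨_, fun _ _ => rfl⟩
  have hn₁ : n₁ ∈ E := by
    by_contra h0
    apply hb₀
    have h1 : (fun s => (Φ b₀ s).coeff n₁) = (0 : Kx g m → k) := by
      funext s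
      by_contra h2
      apply h0
      rw [hE]
      exact hΦ b₀ s n₁ h2
    rw [h1, map_zero]
  rw [← hv] at hb₀
  obtain ⟨e₀, he₀⟩ := MvPolynomial.ne_zero_iff.1 hb₀
  obtain ⟨E₀, hE₀⟩ : ∃ E₀, E₀ = E.filter (fun i => i % q = n₁ % q) := ⟨_, rfl⟩
  have hmem : ∀ i ∈ E₀, i ∈ E ∧ i % q = n₁ % q := by
    intro i hi
    rw [hE₀, Finset.mem_filter] at hi
    exact hi
  have hn₁' : n₁ ∈ E₀ := by
    rw [hE₀, Finset.mem_filter]
    exact ⟨hn₁, rfl⟩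
  obtain ⟨H, hH⟩ : ∃ H : k[X], H = ∑ b : Fin B, ∑ i ∈ E₀,
      C (MvPolynomial.coeff e₀ (v b i)) * X ^ (Q * (b : ℕ) + q * (i / q)) := ⟨_, rfl⟩
  have hH0 : H ≠ 0 := by
    intro h0
    have h1 := congrArg (fun P : k[X] => P.coeff (Q * (b₀ : ℕ) + q * (n₁ / q))) h0
    simp only [hH, finsetSum_coeff, coeff_C_mul, coeff_X_pow, coeff_zero] at h1
    rw [Finset.sum_eq_single b₀] at h1
    · rw [Finset.sum_eq_single n₁] at h1
      · rw [if_pos rfl, mul_one] at h1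
        exact he₀ h1
      · intro i hi hne
        rw [if_neg, mul_zero]
        intro h2
        have h3 := (E6_quot (hEQ n₁ hn₁) (hEQ i (hmem i hi).1) h2).2
        apply hne
        rw [← Nat.div_add_mod i q, ← Nat.div_add_mod n₁ q, ← h3, (hmem i hi).2]
      · intro h
        exact absurd hn₁' h
    · intro b _ hb
      refine Finset.sum_eq_zero fun i hi => ?_
      rw [if_neg, mul_zero]
      intro h2
      exact hb (Fin.ext (E6_quot (hEQ n₁ hn₁) (hEQ i (hmem i hi).1) h2).1.symm)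
    · intro h
      exact absurd (Finset.mem_univ _) h
  obtain ⟨α, hα⟩ := E6_pt _ (mul_ne_zero hH0 hBad)
  rw [eval_mul] at hα
  have hα1 : H.eval α ≠ 0 := left_ne_zero_of_mul hα
  have hα2 : Bad.eval α ≠ 0 := right_ne_zero_of_mul hα
  obtain ⟨U', hU', hvan⟩ := Hnv α hα2
  obtain ⟨Φα, hΦα⟩ : ∃ Φα : Kx g m → k[X],
      ∀ s, Φα s = ∑ b : Fin B, C (α ^ (Q * (b : ℕ))) * Φ b s := ⟨_, fun _ => rfl⟩
  obtain ⟨Ψ, hΨ⟩ : ∃ Ψ : Kx g m → k[X],
      ∀ s, Ψ s = ∑ b : Fin B, C (α ^ (Q * (b : ℕ))) * redq q (α ^ q) E (Φ b s) :=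
    ⟨_, fun _ => rfl⟩
  have hev : ev U Φα = ∑ b : Fin B, C (α ^ (Q * (b : ℕ))) * ev U (Φ b) := by
    unfold ev
    simp only [hΦα, Finset.sum_mul, Finset.mul_sum]
    rw [Finset.sum_comm]
    refine Finset.sum_congr rfl fun b _ => Finset.sum_congr rfl fun s _ => ?_
    ring
  have hev2 : ev U Φα = ∑ b : Fin B, (C (α ^ (Q * (b : ℕ))) - X ^ (Q * (b : ℕ))) *
      ev U (Φ b) := by
    simp only [sub_mul, Finset.sum_sub_distrib]
    unfold aux at haux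
    rw [haux, sub_zero, hev]
  have hdv1 : (X - C α) ^ q ∣ ev U Φα := by
    rw [hev2]
    refine Finset.dvd_sum fun b _ => Dvd.dvd.mul_right ?_ _
    have h3 : (C α ^ q - X ^ q : k[X]) ∣ (C α ^ q) ^ (q ^ r * (b : ℕ)) - (X ^ q) ^ (q ^ r * (b : ℕ)) :=
      sub_dvd_pow_sub_pow _ _ _
    have h4 : (X - C α : k[X]) ^ q ∣ C α ^ q - X ^ q := by
      rw [hcharp, ← neg_sub]
      exact neg_dvd.2 dvd_rfl
    have h6 : Q * (b : ℕ) = q * (q ^ r * (b : ℕ)) := by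
      rw [hQ, pow_succ']
      ring
    have h5 : C (α ^ (Q * (b : ℕ))) - X ^ (Q * (b : ℕ)) =
        (C α ^ q) ^ (q ^ r * (b : ℕ)) - (X ^ q : k[X]) ^ (q ^ r * (b : ℕ)) := by
      rw [← pow_mul, ← pow_mul, C_pow, h6]
    rw [h5]
    exact h4.trans h3
  have hdv2 : (X - C α) ^ q ∣ ev U Φα - ev U' Ψ := by
    refine ev_congr _ U U' Φα Ψ hU' fun s => ?_
    rw [hΦα, hΨ, ← Finset.sum_sub_distrib]
    refine Finset.dvd_sum fun b _ => ?_
    rw [← mul_sub]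
    exact (hredp α b s).mul_left _
  have hdv : (X - C α) ^ p ∣ ev U' Ψ := by
    have h1 : (X - C α) ^ q ∣ ev U' Ψ := by
      have h2 := dvd_sub hdv1 hdv2
      rwa [sub_sub_cancel] at h2
    exact (pow_dvd_pow _ hp1).trans h1
  have hdeg : ∀ s, (Ψ s).natDegree ≤ A := by
    intro s
    rw [hΨ]
    refine natDegree_sum_le_of_forall_le _ _ fun b _ => ?_
    refine (natDegree_C_mul_le _ _).trans (redq_natDegree q _ E _ A fun i hi => ?_)
    rw [hE] at hi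
    exact mod_le_of_mem_EE hA hi
  have hvn := (van_poly Ψ).1 (hvan Ψ hdeg hdv) (n₁ % q)
  have hlin : evg g m k (fun s => (Ψ s).coeff (n₁ % q)) =
      ∑ b : Fin B, ∑ i ∈ E₀, (α ^ (Q * (b : ℕ)) * (α ^ q) ^ (i / q)) • v b i := by
    have h1 : (fun s => (Ψ s).coeff (n₁ % q)) =
        ∑ b : Fin B, ∑ i ∈ E₀, (α ^ (Q * (b : ℕ)) * (α ^ q) ^ (i / q)) •
          (fun s => (Φ b s).coeff i) := by
      funext s
      rw [Finset.sum_apply, hΨ, finsetSum_coeff]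
      refine Finset.sum_congr rfl fun b _ => ?_
      rw [Finset.sum_apply, coeff_C_mul, redq_coeff, ← hE₀, Finset.mul_sum]
      refine Finset.sum_congr rfl fun i _ => ?_
      rw [Pi.smul_apply, smul_eq_mul]
      ring
    rw [h1, map_sum]
    refine Finset.sum_congr rfl fun b _ => ?_
    rw [map_sum]
    refine Finset.sum_congr rfl fun i _ => ?_
    rw [map_smul, hv]
  rw [hlin] at hvn
  have h2 := congrArg (MvPolynomial.coeff e₀) hvn
  rw [MvPolynomial.coeff_sum, MvPolynomial.coeff_zero] at h2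
  apply hα1
  rw [hH, eval_finsetSum, ← h2]
  refine Finset.sum_congr rfl fun b _ => ?_
  rw [eval_finsetSum, MvPolynomial.coeff_sum]
  refine Finset.sum_congr rfl fun i _ => ?_
  rw [eval_mul, eval_C, eval_pow, eval_X, MvPolynomial.coeff_smul, smul_eq_mul, ← pow_mul,
    ← pow_add, mul_comm]

end MPadcOA
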