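import Pool.Agent.Lib.MP_adc574_ag_OAP.E5

/-!
# Theorem A+, leaf E7: the determinant is not zero

MODEL: leaf S13 (`det_ne_zero`). `z = mulz 1` of degree `0 + g`: if `(fst U).det = 0` then `ev U z = 0`, so `(X - C α) ^ q ∣ ev U' z` (`ev_congr`), `p ≤ q = p ^ n`,
so `Van z`, contradiction with `det_genA_ne` as in S13.
-/

set_option autoImplicit false

namespace MPadcOA

open Polynomial Matrix

variable {k : Type*} [Field k] {g : ℕ}

theorem det_ne_zero2 (p n : ℕ) (hp : 0 < p) (hn : 0 < n) (U U' : Matrix (Fin g) (Nx g) k[X]) (α : k)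
    (hU : ∀ i l, (X - C α) ^ (p ^ n) ∣ U i l - U' i l)
    (Hnv : ∀ Ψ : Kx g (0 + g) → k[X], (∀ s, (Ψ s).natDegree ≤ 0) → (X - C α) ^ p ∣ ev U' Ψ → Van Ψ) :
    (fst U).det ≠ 0 := by
  classical
  intro hdet
  obtain ⟨z, hz⟩ : ∃ z : Kx g (0 + g) → k[X], z = mulz (m := 0) (fun _ => (1 : k[X])) := ⟨_, rfl⟩
  have hz0 : ∀ s, (z s).natDegree ≤ 0 := by
    intro s
    have h1 := mulz_map (m := 0) (C : k →+* k[X]) (fun _ => (1 : k)) s
    rw [hz]
    have h2 : (fun _ : Kx g 0 => C (1 : k)) = fun _ => (1 : k[X]) := by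
      funext _
      exact C_1
    rw [h2] at h1
    rw [← h1, natDegree_C]
  have hev : ev U z = 0 := by
    rw [hz, ev_mulz, hdet, zero_mul]
  have hdvd : (X - C α) ^ p ∣ ev U' z := by
    have h1 := ev_congr ((X - C α) ^ (p ^ n)) U U' z z hU fun s => by
      rw [sub_self]
      exact dvd_zero _
    rw [hev, zero_sub, dvd_neg] at h1
    exact (pow_dvd_pow _ (Nat.le_self_pow hn.ne' p)).trans h1
  have hvan : Van z := Hnv z hz0 hdvd
  unfold Van at hvan
  have h1 : (fun s => MvPolynomial.C (z s) : Kx g (0 + g) → GenR g k[X]) =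
      mulz (m := 0) (fun _ => (1 : GenR g k[X])) := by
    funext s
    rw [hz]
    have h2 := mulz_map (m := 0) (MvPolynomial.C : k[X] →+* GenR g k[X]) (fun _ => (1 : k[X])) s
    have h3 : (fun _ : Kx g 0 => (MvPolynomial.C : k[X] →+* GenR g k[X]) (1 : k[X])) =
        fun _ => (1 : GenR g k[X]) := by
      funext _
      exact map_one _
    rw [h3] at h2
    exact h2
  rw [h1, ev_mulz, fst_genU] at hvan
  have h4 : ev (genU g k[X]) (fun _ : Kx g 0 => (1 : GenR g k[X])) = 1 := by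
    unfold ev
    rw [Fintype.sum_unique]
    rw [Fin.prod_univ_zero, mul_one]
  rw [h4, mul_one] at hvan
  exact det_genA_ne g k[X] hvan

end MPadcOA
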