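import Mathlib

/-!
# Theorem A+, leaf E8: the dimension count

MODEL: `Cnt_dim` in Cnt.lean. `M (s - s₀) ≤ M δ s ≤ B s / 4`; `A + B + c M + 1 ≤ 2 A + 1 < 2 (A + 1)` since `A = B + c M`; and `(A' + c M + 1) ^ r ≤ 2 (A' + 1) ^ r` for
`A' = 2 r c M`: with `y = c M / (A' + c M + 1)` the quotient of the bases is `1 - y` and Bernoulli (`one_add_mul_le_pow`, `-2 ≤ -y`) gives
`(1 - y) ^ r ≥ 1 - r y ≥ 1 / 2`, since `2 r c M ≤ A' + c M + 1`. So the left side is at most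
`(B s / 4) * (2 A + 1) * 2 (A' + 1) ^ r < (B s / 4) * 4 (A + 1) (A' + 1) ^ r`.
-/

set_option autoImplicit false

namespace MPadcOA

private theorem E8_pow (a u : ℝ) (r : ℕ) (ha : 0 < a) (hu : 0 ≤ u) (h : 2 * r * u ≤ a + u) :
    (a + u) ^ r ≤ 2 * a ^ r := by
  have hau : 0 < a + u := by linarith
  have hy : u / (a + u) ≤ 1 := (div_le_one hau).mpr (by linarith)
  have h1 := one_add_mul_le_pow (show (-2 : ℝ) ≤ -(u / (a + u)) by linarith) r
  have h2 : 1 + -(u / (a + u)) = a / (a + u) := by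
    field_simp
    ring
  rw [h2, div_pow] at h1
  have h3 : (1 : ℝ) / 2 ≤ 1 + r * -(u / (a + u)) := by
    have h5 : (r : ℝ) * (u / (a + u)) ≤ 1 / 2 := by
      rw [← mul_div_assoc, div_le_iff₀ hau]
      linarith
    linarith
  have h4 : (1 : ℝ) / 2 ≤ a ^ r / (a + u) ^ r := h3.trans h1
  rw [le_div_iff₀ (pow_pos hau r)] at h4
  linarith

theorem dim2 (A A' B M c r s s0 : ℕ) (δ : ℝ) (hδ : 0 < δ) (hs : 0 < s) (hB : 0 < B)
    (hA : A = B + c * M) (hA' : A' = 2 * r * c * M) (hM : (M : ℝ) ≤ B / (4 * δ)) (h0 : s0 ≤ s)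
    (hinc : (s : ℝ) - s0 ≤ δ * s) :
    M * ((A + B + c * M + 1) * (A' + c * M + 1) ^ r) * (s - s0) < ((A + 1) * (A' + 1) ^ r) * B * s := by
  have hcM : (0 : ℝ) ≤ (c : ℝ) * M := by positivity
  have hX := E8_pow ((A' : ℝ) + 1) ((c : ℝ) * M) r (by positivity) hcM (by
    rw [hA']
    push_cast
    linarith)
  have hsR : (0 : ℝ) < s := by exact_mod_cast hs
  have hBR : (0 : ℝ) < B := by exact_mod_cast hB
  have hY : (0 : ℝ) < ((A' : ℝ) + 1) ^ r := by positivity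
  have hAR : (0 : ℝ) ≤ A := Nat.cast_nonneg A
  have hs0 : (0 : ℝ) ≤ (s : ℝ) - s0 := by
    have h1 : (s0 : ℝ) ≤ s := by exact_mod_cast h0
    linarith
  have e1 : (M : ℝ) * ((s : ℝ) - s0) ≤ B * s / 4 := by
    calc (M : ℝ) * ((s : ℝ) - s0) ≤ M * (δ * s) := mul_le_mul_of_nonneg_left hinc (Nat.cast_nonneg M)
      _ ≤ (B / (4 * δ)) * (δ * s) := mul_le_mul_of_nonneg_right hM (by positivity)
      _ = B * s / 4 := by
        field_simp
  have e2 : (A : ℝ) + B + c * M + 1 = 2 * A + 1 := by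
    have h1 : (A : ℝ) = B + c * M := by
      rw [hA]
      push_cast
      ring
    linarith
  have e3 : (A' : ℝ) + c * M + 1 = (A' : ℝ) + 1 + c * M := by ring
  have key : ((M * ((A + B + c * M + 1) * (A' + c * M + 1) ^ r) * (s - s0) : ℕ) : ℝ) <
      ((((A + 1) * (A' + 1) ^ r) * B * s : ℕ) : ℝ) := by
    push_cast [Nat.cast_sub h0]
    rw [e2, e3]
    calc (M : ℝ) * ((2 * A + 1) * ((A' : ℝ) + 1 + c * M) ^ r) * ((s : ℝ) - s0)
        = (M * ((s : ℝ) - s0)) * ((2 * A + 1) * ((A' : ℝ) + 1 + c * M) ^ r) := by ring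
      _ ≤ (B * s / 4) * ((2 * A + 1) * (2 * ((A' : ℝ) + 1) ^ r)) := by
        refine mul_le_mul e1 (mul_le_mul_of_nonneg_left hX (by linarith)) ?_ (by positivity)
        exact mul_nonneg (by linarith) (by positivity)
      _ < (B * s / 4) * ((2 * A + 2) * (2 * ((A' : ℝ) + 1) ^ r)) := by
        refine mul_lt_mul_of_pos_left ?_ (by positivity)
        exact mul_lt_mul_of_pos_right (by linarith) (by positivity)
      _ = ((A : ℝ) + 1) * ((A' : ℝ) + 1) ^ r * B * s := by ring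
  exact_mod_cast key

end MPadcOA
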