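import Pool.Agent.Lib.MP_adc574_ag_OAP.NvS
import Pool.Agent.Lib.MP_adc574_ag_OA.S3
import Pool.Agent.Lib.MP_adc574_ag_OA.S6
import Pool.Agent.Lib.MP_adc574_ag_OA.S7
import Pool.Agent.Lib.MP_adc574_ag_OAP.E3
import Pool.Agent.Lib.MP_adc574_ag_OAP.E4
import Pool.Agent.Lib.MP_adc574_ag_OAP.E6
import Pool.Agent.Lib.MP_adc574_ag_OAP.E7
import Pool.Agent.Lib.MP_adc574_ag_OAP.E8

/-!
# Theorem A+, leaf CntP: Stepanov's method for a twisted system

MODEL: `count` in Cnt.lean (almost literally). `q = p ^ n`, `Q = q ^ (r + 1)`. Choose `δ = min (ε / 16) (1 / 8)`, `J` from `exists_inc`,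
`B = g * J * c + 1`, `M = ⌊B / (4 δ)⌋₊` (so `M ≥ B / (8 δ)`), `A = B + c * M`, `A' = 2 * r * c * M`,
`p₀` = sum of the `p₀` of `nvS g (g * j + g) A c`, `j < J`, of `nvS g (0 + g) 0 c`, and of `A + A' + M + 1` (so `A, A' < p ≤ q`).
* `exists_forms2` with `E = EE q r A A'`, `E' = EE q r (A + B + c * M) (A' + c * M)`: `hsupp` from `Sp_nab_iterate`, `Sp.X.pow b` (`A' = 0`), `Sp.mul`,
  `Sp.mono`; `hdim` from `dim2`, `card_EE`, `card_EE_le`.
* `hdet`: `det_ne_zero2` at a point `α` with `Bad.eval α ≠ 0` (`k` is infinite), `U'` from `spec`, `nvS` for degree `0 + g`.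
* `aux_ne_zero2` with `Hnv` from `spec` and `nvS`.
* the divisibility by `(X - C τ) ^ M` for `τ ∈ Z`: `pow_dvd_of_dd`, `dd_aux_eval` with `Q` in place of `q`.
* the degree: `natDegree_aux Q (c * Q) Q ..` (`(Φ b s).natDegree < Q` by `lt_of_mem_EE`): `≤ Q * B + Q + (m + g) * (c * Q) ≤ 2 * B * Q`.
* `Z.card * M ≤ 2 * B * Q`, so `Z.card ≤ 16 δ Q ≤ ε Q`.
-/

set_option autoImplicit false

namespace MPadcOA

open Polynomial Matrix

private theorem CntP_pt {k : Type*} [Field k] [Infinite k] (P : k[X]) (hP : P ≠ 0) : ∃ α : k, P.eval α ≠ 0 := by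
  by_contra hcon
  push Not at hcon
  exact hP (Polynomial.funext fun x => by rw [hcon x, eval_zero])

private theorem CntP_fin (c B M : ℕ) (Q : ℕ) (ε δ : ℝ) (hδ : 0 < δ) (hδ8 : δ ≤ 1 / 8) (hδε : 16 * δ ≤ ε)
    (hB0 : 0 < B) (hM : M = ⌊(B : ℝ) / (4 * δ)⌋₊) (h1 : c * M ≤ 2 * B * Q) : (c : ℝ) ≤ ε * Q := by
  have hB1 : (1 : ℝ) ≤ B := by exact_mod_cast hB0
  have hM1 : (B : ℝ) / (8 * δ) ≤ M := by
    have h2 : (B : ℝ) / (4 * δ) < M + 1 := by
      rw [hM]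
      exact Nat.lt_floor_add_one _
    have h3 : (1 : ℝ) ≤ B / (8 * δ) := by
      rw [le_div_iff₀ (by positivity)]
      linarith
    have h4 : (B : ℝ) / (4 * δ) = B / (8 * δ) + B / (8 * δ) := by
      field_simp
      ring
    linarith
  have h5 : (c : ℝ) * M ≤ 2 * B * Q := by exact_mod_cast h1
  have h6 : (c : ℝ) * (B / (8 * δ)) ≤ 2 * B * Q :=
    (mul_le_mul_of_nonneg_left hM1 (Nat.cast_nonneg _)).trans h5
  have hB' : (0 : ℝ) < B := by linarith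
  have h7 : (c : ℝ) ≤ 16 * δ * Q := by
    have h8 : (c : ℝ) * (B / (8 * δ)) * (8 * δ / B) = c := by
      field_simp
    rw [← h8]
    calc (c : ℝ) * (B / (8 * δ)) * (8 * δ / B) ≤ 2 * B * Q * (8 * δ / B) :=
          mul_le_mul_of_nonneg_right h6 (by positivity)
      _ = 16 * δ * Q := by
          field_simp
          ring
  exact h7.trans (mul_le_mul_of_nonneg_right hδε (by positivity))

theorem countP (g c r : ℕ) (hg : 0 < g) (ε : ℝ) (hε : 0 < ε) : ∃ p₀ : ℕ, ∀ p : ℕ, p.Prime → p₀ ≤ p →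
    ∀ (k : Type) [Field k] [CharP k p] [Infinite k] (n : ℕ), 0 < n → ∀ (Δ : k[X])
      (G : Matrix (Nx g) (Nx g) k[X]) (U : Matrix (Fin g) (Nx g) k[X]) (Bad : k[X]),
      Tw p (p ^ n) r c Δ G U Bad → ∀ Z : Finset k,
    (∀ τ ∈ Z, τ ^ (p ^ n) ^ (r + 1) = τ ∧ Δ.eval τ ≠ 0 ∧ (fst (U.map (eval τ))).det = 0) →
    (Z.card : ℝ) ≤ ε * ((p : ℝ) ^ n) ^ (r + 1) := by
  obtain ⟨δ, hδdef⟩ : ∃ δ : ℝ, δ = min (ε / 16) (1 / 8) := ⟨_, rfl⟩
  have hδ : 0 < δ := by rw [hδdef]; exact lt_min (by positivity) (by norm_num)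
  have hδε : 16 * δ ≤ ε := by
    have := min_le_left (ε / 16) (1 / 8 : ℝ)
    rw [← hδdef] at this
    linarith
  have hδ8 : δ ≤ 1 / 8 := by rw [hδdef]; exact min_le_right _ _
  obtain ⟨J, hJ⟩ := exists_inc g (Fintype.card ((Fin g × Fin g) ⊕ Sym2 (Fin g))) δ hδ
  obtain ⟨B, hBdef⟩ : ∃ B : ℕ, B = g * J * c + 1 := ⟨_, rfl⟩
  obtain ⟨M, hMdef⟩ : ∃ M : ℕ, M = ⌊(B : ℝ) / (4 * δ)⌋₊ := ⟨_, rfl⟩
  obtain ⟨A, hAdef⟩ : ∃ A : ℕ, A = B + c * M := ⟨_, rfl⟩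
  obtain ⟨A', hA'def⟩ : ∃ A' : ℕ, A' = 2 * r * c * M := ⟨_, rfl⟩
  have hB0 : 0 < B := by omega
  choose P hP using fun j : ℕ => nvS g (g * j + g) A c hg
  obtain ⟨P0, hP0⟩ := nvS g (0 + g) 0 c hg
  refine ⟨P0 + (A + A' + M + 1) + ∑ j ∈ Finset.range J, P j,
    fun p hp hp₀ k _ _ _ n hn Δ G U Bad hT Z hZ => ?_⟩
  have : Fact p.Prime := ⟨hp⟩
  have hPj : ∀ j < J, P j ≤ p := by
    intro j hj
    have := Finset.single_le_sum (f := P) (fun i _ => Nat.zero_le _) (Finset.mem_range.2 hj)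
    omega
  have hpq : p ≤ p ^ n := Nat.le_self_pow hn.ne' p
  have hdq : p ∣ p ^ n := dvd_pow_self p hn.ne'
  have hdQ : p ∣ (p ^ n) ^ (r + 1) := hdq.trans (dvd_pow_self _ (Nat.succ_ne_zero r))
  have hAq : A < p ^ n := by omega
  have hA'q : A' < p ^ n := by omega
  -- the degree
  obtain ⟨j, hj, hinc⟩ := hJ (fun j => sdim g (g * j) k) (by
      show 0 < sdim g (g * 0) k
      rw [Nat.mul_zero, sdim_zero]
      exact one_pos) (fun j => sdim_le g (g * j) k)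
  obtain ⟨m, hm⟩ : ∃ m, m = g * j := ⟨_, rfl⟩
  have hmg : g * (j + 1) = m + g := by rw [hm, Nat.mul_succ]
  have hinc' : (sdim g (m + g) k : ℝ) - sdim g m k ≤ δ * sdim g (m + g) k := by
    have h := hinc
    simp only [hmg] at h
    rw [← hm] at h
    exact h
  have hmono : sdim g m k ≤ sdim g (m + g) k := sdim_le_succ g m k
  have hpos : 0 < sdim g (m + g) k := by
    have h1 : ∀ i : ℕ, 0 < sdim g (g * i) k := by
      intro i
      induction i with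
      | zero => rw [Nat.mul_zero, sdim_zero]; exact one_pos
      | succ i ih => rw [Nat.mul_succ]; exact ih.trans_le (sdim_le_succ g _ k)
    have h2 := h1 (j + 1)
    rwa [hmg] at h2
  have hMle : (M : ℝ) ≤ B / (4 * δ) := by
    rw [hMdef]
    exact Nat.floor_le (by positivity)
  have hdim := dim2 A A' B M c r (sdim g (m + g) k) (sdim g m k) δ hδ hpos hB0 hAdef hA'def hMle hmono hinc'
  have hdim' : M * (EE (p ^ n) r (A + B + c * M) (A' + c * M)).card * (sdim g (m + g) k - sdim g m k) <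
      (EE (p ^ n) r A A').card * B * sdim g (m + g) k := by
    rw [card_EE hAq hA'q]
    refine lt_of_le_of_lt ?_ hdim
    exact Nat.mul_le_mul_right _ (Nat.mul_le_mul_left _ (card_EE_le _ _ _ _))
  obtain ⟨Φ, hΦ1, hΦ2, hΦ3⟩ := exists_forms2 g m B M (EE (p ^ n) r A A')
    (EE (p ^ n) r (A + B + c * M) (A' + c * M)) Δ G (by
      intro Φ hΦ e he b hb s
      have h1 : Sp (p ^ n) r (A + c * e) (A' + c * e) ((nab Δ G)^[e] Φ s) :=
        Sp_nab_iterate (p := p) hdq Δ G hT.spD hT.spG Φ (fun s => hΦ s) e s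
      have h2 : Sp (p ^ n) r (b * 1) (b * 0) ((X : k[X]) ^ b) := Sp.pow (Sp.X (A' := 0)) b
      have he' : c * e ≤ c * M := Nat.mul_le_mul_left c he.le
      exact Sp.mono (Sp.mul h2 h1) (by omega) (by omega)) hdim'
  have hmgJ : m + g ≤ g * J := by
    rw [← hmg]
    exact Nat.mul_le_mul_left g hj
  -- the auxiliary polynomial
  have hdet : (fst U).det ≠ 0 := by
    obtain ⟨α, hα⟩ := CntP_pt Bad hT.bad
    obtain ⟨U', hU'1, hU'2⟩ := hT.spec α hα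
    exact det_ne_zero2 p n hp.pos hn U U' α hU'2 fun Ψ h1 h2 => hP0 p hp (by omega) k U' α hU'1 Ψ h1 h2
  have hne : aux ((p ^ n) ^ (r + 1)) U Φ ≠ 0 := by
    refine aux_ne_zero2 (p := p) n hn r A A' hAq hA'q U Φ (fun b s => hΦ1 b s) hΦ2 Bad hT.bad
      fun α hα => ?_
    obtain ⟨U', hU'1, hU'2⟩ := hT.spec α hα
    refine ⟨U', hU'2, fun Ψ h1 h2 => ?_⟩
    have h := hP j p hp (hPj j hj) k U' α hU'1
    rw [← hm] at h
    exact h Ψ h1 h2
  have hdvd : ∀ τ ∈ Z, (X - C τ) ^ M ∣ aux ((p ^ n) ^ (r + 1)) U Φ := by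
    intro τ hτ
    obtain ⟨h1, h2, h3⟩ := hZ τ hτ
    refine pow_dvd_of_dd (p := p) Δ _ τ h2 M (by omega) fun e he => ?_
    have htw : ∀ b : ℕ, tw B (0 : k) b = X ^ b := by
      intro b
      rw [tw, C_0, zero_mul, add_zero, one_pow, mul_one]
    refine dd_aux_eval (p := p) ((p ^ n) ^ (r + 1)) hdQ Δ G U hT.hor hT.iso hdet Φ e 0 ?_ τ ?_ h3
    · simp only [htw]
      exact hΦ3 e he
    · rw [zero_mul, add_zero, mul_one]
      exact h1
  have hcard := card_mul_le _ hne Z M hdvd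
  have hΦdeg : ∀ b s, (Φ b s).natDegree ≤ (p ^ n) ^ (r + 1) := by
    intro b s
    rw [natDegree_le_iff_coeff_eq_zero]
    intro N hN
    by_contra hc
    have h1 := lt_of_mem_EE hAq hA'q (hΦ1 b s N hc)
    omega
  have hdeg := natDegree_aux ((p ^ n) ^ (r + 1)) (c * (p ^ n) ^ (r + 1)) ((p ^ n) ^ (r + 1)) U hT.degU Φ
    hΦdeg
  -- the inequality
  have h1 : Z.card * M ≤ 2 * B * (p ^ n) ^ (r + 1) := by
    have h2 : (m + g) * (c * (p ^ n) ^ (r + 1)) ≤ g * J * (c * (p ^ n) ^ (r + 1)) :=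
      Nat.mul_le_mul_right _ hmgJ
    calc Z.card * M ≤ (p ^ n) ^ (r + 1) * B + (p ^ n) ^ (r + 1) +
          (m + g) * (c * (p ^ n) ^ (r + 1)) := hcard.trans hdeg
      _ ≤ (p ^ n) ^ (r + 1) * B + (p ^ n) ^ (r + 1) + g * J * (c * (p ^ n) ^ (r + 1)) :=
          Nat.add_le_add_left h2 _
      _ = 2 * B * (p ^ n) ^ (r + 1) := by rw [hBdef]; ring
  have h9 := CntP_fin Z.card B M ((p ^ n) ^ (r + 1)) ε δ hδ hδ8 hδε hB0 hMdef h1
  push_cast at h9
  exact h9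

end MPadcOA
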