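import Pool.Agent.Lib.MP_adc574_ag_OA.S12
import Pool.Agent.Lib.MP_adc574_ag_OA.S13

/-!
# Theorem A+ (adc574): definitions

`EE q r A A'` are the exponents `j₀ + q j₁ + q² j₂ + .. + q ^ r j_r` with `j₀ ≤ A` and `j_i ≤ A'` (`i ≥ 1`); `Sp q r A A' f`: all exponents
of the polynomial `f` are of this form. `X ^ (q ^ i)` are the conjugates of the moving root `X`.

`Tw p q r c Δ G U Bad`: the twisted system (the conjugates of the moving root substituted) with its properties; `spec`: modulo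
`(X - α) ^ q` the frame is that of a system `D` with constant roots (`α ^ (q ^ i)` and constants), or its transform by a Möbius map.
-/

set_option autoImplicit false

namespace MPadcOA

open Polynomial Matrix

/-- The exponents `j₀ + q j₁ + .. + q ^ r j_r`, `j₀ ≤ A`, `j_i ≤ A'`. -/
def EE (q r A A' : ℕ) : Finset ℕ :=
  (Finset.range (A + 1) ×ˢ Fintype.piFinset fun _ : Fin r => Finset.range (A' + 1)).image
    fun x => x.1 + q * ∑ i : Fin r, x.2 i * q ^ (i : ℕ)

/-- All exponents of `f` are in `EE q r A A'`. -/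
def Sp {k : Type*} [Field k] (q r A A' : ℕ) (f : k[X]) : Prop := ∀ n, f.coeff n ≠ 0 → n ∈ EE q r A A'

/-- The polynomial `f` with exponents in `E` reduced modulo `X ^ q - β`. -/
noncomputable def redq {k : Type*} [Field k] (q : ℕ) (β : k) (E : Finset ℕ) (f : k[X]) : k[X] :=
  ∑ n ∈ E, C (f.coeff n * β ^ (n / q)) * X ^ (n % q)

/-- `U'` is the frame of a system `D`, or its transform by `X ↦ 1 / (X - ρ)`; at the point `α` the system is not singular. -/
def SpecOk {g : ℕ} {k : Type*} [Field k] (p c : ℕ) (U' : Matrix (Fin g) (Nx g) k[X]) (α : k) : Prop :=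
  (∃ D : Dat g k, D.Ok p c ∧ D.Δ.eval α ≠ 0 ∧ U' = D.U) ∨
    ∃ (D : Dat g k) (ρ κ : k), D.Ok p c ∧ (∀ i l, (D.U i l).natDegree ≤ p) ∧ κ ≠ 0 ∧ α ≠ ρ ∧
      D.Δ.eval (α - ρ)⁻¹ ≠ 0 ∧ ∀ i l, U' i l = C κ * ((D.U i l).reflect p).comp (X - C ρ)

/-- A twisted system. -/
structure Tw {g : ℕ} {k : Type*} [Field k] (p q r c : ℕ) (Δ : k[X]) (G : Matrix (Nx g) (Nx g) k[X])
    (U : Matrix (Fin g) (Nx g) k[X]) (Bad : k[X]) : Prop where
  /-- the finite set of the points where `spec` is not required -/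
  bad : Bad ≠ 0
  /-- `Δ` has few exponents -/
  spD : Sp q r c c Δ
  /-- the coefficients have few exponents -/
  spG : ∀ i j, Sp q r c c (G i j)
  /-- the degree of the frame -/
  degU : ∀ i l, (U i l).natDegree ≤ c * q ^ (r + 1)
  /-- the rows of `U` are horizontal -/
  hor : ∀ i l, Δ * derivative (U i l) = (U * G) i l
  /-- `U` is isotropic -/
  iso : U * JJ g k[X] * Uᵀ = 0
  /-- the specialisations -/
  spec : ∀ α : k, Bad.eval α ≠ 0 → ∃ U' : Matrix (Fin g) (Nx g) k[X], SpecOk p c U' α ∧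
    ∀ i l, (X - C α) ^ q ∣ U i l - U' i l

end MPadcOA
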