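import Pool.Agent.Lib.MP_adc574_ag_OA.Nv
import Pool.Agent.Lib.MP_adc574_ag_OA.S10
import Pool.Agent.Lib.MP_adc574_ag_OAP.P0

/-!
# Theorem A+, leaf NvS: the non-vanishing theorem after a Möbius map

Case 1 of `SpecOk` is `nv`. Case 2: let `β = α - ρ ≠ 0`, `σ = (X + C ρ)`, `N = A + m * p`.
`Ψ' s = reflect A ((Ψ s).comp σ)` has degree `≤ A`. `(U' i l).comp σ = C κ * reflect p (D.U i l)`, and
`reflect p` of this is `C κ * D.U i l` (`reflect` is an involution on the polynomials of degree `≤ p`, `Polynomial.reflect_reflect`-like or coefficients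
`coeff_reflect`, `revAt`). `Polynomial.reflect_mul` (degrees `≤`) gives for `W = (ev U' Ψ).comp σ = ∑ (Ψ s).comp σ * ∏ (U' ..).comp σ`
(degree `≤ N`): `reflect N W = ∑ Ψ' s * ∏ (C κ * D.U ..) = C (κ ^ m) * ev D.U Ψ'`. Since `(X - C α) ^ p ∣ ev U' Ψ`, `(X - C β) ^ p ∣ W = (X - C β) ^ p * V`; if `W ≠ 0` then
`natDegree V ≤ N - p` and `reflect N W = reflect p ((X - C β) ^ p) * reflect (N - p) V` with `reflect p ((X - C β) ^ p) = (1 - C β * X) ^ p = C (-β) ^ p * (X - C β⁻¹) ^ p` (`reflect_mul` by induction,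
or `reverse`). So `(X - C β⁻¹) ^ p ∣ ev D.U Ψ'` and `nv` gives `Van Ψ'`.
Back: by `van_poly` the `evg` of all coefficients of `Ψ'` vanish; the coefficient of `Ψ' s` at `n ≤ A` is that of `(Ψ s).comp σ` at `A - n`, and for `n > A` those of `(Ψ s).comp σ` are zero, so
`Van (fun s => (Ψ s).comp σ)`; and `Van` is preserved by a ring homomorphism `k[X] → k[X]` (`map_ev`, `genU` is mapped to `genU` by `MvPolynomial.map`), applied to `comp (X - C ρ)`.
-/

set_option autoImplicit false

namespace MPadcOA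

open Polynomial Matrix

private theorem NvS_gen {R S : Type*} [CommRing R] [CommRing S] {g : ℕ} (φ : R →+* S) (i : Fin g) (j : Nx g) :
    MvPolynomial.map φ (genU g R i j) = genU g S i j := by
  cases j with
  | inl j =>
    change MvPolynomial.map φ (MvPolynomial.X (Sum.inl (i, j)) : GenR g R) =
      (MvPolynomial.X (Sum.inl (i, j)) : GenR g S)
    rw [MvPolynomial.map_X]
  | inr j =>
    change MvPolynomial.map φ ((genA g R * genY g R) i j) = (genA g S * genY g S) i j
    rw [Matrix.mul_apply, Matrix.mul_apply, map_sum]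
    refine Finset.sum_congr rfl fun l _ => ?_
    rw [map_mul]
    simp only [genA, genY, MvPolynomial.map_X]

private noncomputable def NvS_rf (k : Type*) [Field k] (N : ℕ) : k[X] →ₗ[k] k[X] where
  toFun f := f.reflect N
  map_add' f h := reflect_add f h N
  map_smul' a f := by
    rw [smul_eq_C_mul, reflect_C_mul, RingHom.id_apply, smul_eq_C_mul]

private theorem NvS_rf_apply {k : Type*} [Field k] (N : ℕ) (f : k[X]) : NvS_rf k N f = f.reflect N := rfl

private theorem NvS_deg {k : Type*} [Field k] {N : ℕ} {f : k[X]} (h : f.natDegree ≤ N) :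
    (f.reflect N).natDegree ≤ N :=
  natDegree_reflect_le.trans (max_le le_rfl h)

private theorem NvS_prod {k ι : Type*} [Field k] [DecidableEq ι] (d : ℕ) (f : ι → k[X]) (s : Finset ι) :
    (∀ i ∈ s, (f i).natDegree ≤ d) →
    (∏ i ∈ s, f i).natDegree ≤ s.card * d ∧
      (∏ i ∈ s, f i).reflect (s.card * d) = ∏ i ∈ s, (f i).reflect d := by
  induction s using Finset.induction_on with
  | empty =>
    intro _
    rw [Finset.prod_empty, Finset.prod_empty, Finset.card_empty, zero_mul, reflect_one, pow_zero,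
      natDegree_one]
    exact ⟨le_rfl, rfl⟩
  | insert a s ha ih =>
    intro h
    obtain ⟨g1, g2⟩ := ih fun i hi => h i (Finset.mem_insert_of_mem hi)
    have g3 := h a (Finset.mem_insert_self a s)
    rw [Finset.prod_insert ha, Finset.prod_insert ha, Finset.card_insert_of_notMem ha, add_mul, one_mul,
      add_comm (s.card * d) d]
    exact ⟨natDegree_mul_le.trans (add_le_add g3 g1), by rw [reflect_mul _ _ g3 g1, g2]⟩

private theorem NvS_J {k : Type*} [Field k] {g : ℕ} (l l' : Nx g) : JJ g k[X] l l' = C (JJ g k l l') := by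
  have h1 : ∀ a b : Fin g, (1 : Matrix (Fin g) (Fin g) k[X]) a b = C ((1 : Matrix (Fin g) (Fin g) k) a b) := by
    intro a b
    rw [Matrix.one_apply, Matrix.one_apply]
    split_ifs
    · rw [C_1]
    · rw [C_0]
  unfold JJ
  rcases l with a | a <;> rcases l' with b | b
  · rw [Matrix.fromBlocks_apply₁₁, Matrix.fromBlocks_apply₁₁, Matrix.zero_apply, Matrix.zero_apply, C_0]
  · rw [Matrix.fromBlocks_apply₁₂, Matrix.fromBlocks_apply₁₂]
    exact h1 a b
  · rw [Matrix.fromBlocks_apply₂₁, Matrix.fromBlocks_apply₂₁, Matrix.neg_apply, Matrix.neg_apply, C_neg]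
    exact congrArg Neg.neg (h1 a b)
  · rw [Matrix.fromBlocks_apply₂₂, Matrix.fromBlocks_apply₂₂, Matrix.zero_apply, Matrix.zero_apply, C_0]

private theorem NvS_quad {k : Type*} [Field k] {g : ℕ} (U : Matrix (Fin g) (Nx g) k[X]) (i j : Fin g) :
    (U * JJ g k[X] * Uᵀ) i j = ∑ l', ∑ l, C (JJ g k l l') * (U i l * U j l') := by
  rw [Matrix.mul_apply]
  refine Finset.sum_congr rfl fun l' _ => ?_
  rw [Matrix.mul_apply, Finset.sum_mul]
  refine Finset.sum_congr rfl fun l _ => ?_
  rw [NvS_J, Matrix.transpose_apply]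
  ring

/-- PROOF. `MvPolynomial.map φ` maps `genU g R` to `genU g S` (as in S10) and `C (Φ s)` to `C (φ (Φ s))`. -/
theorem Van_map {R S : Type*} [CommRing R] [CommRing S] {g m : ℕ} (φ : R →+* S) (Φ : Kx g m → R) (h : Van Φ) :
    Van fun s => φ (Φ s) := by
  unfold Van at h ⊢
  have h1 := congrArg (MvPolynomial.map φ) h
  rw [map_zero] at h1
  rw [← h1]
  unfold ev
  rw [map_sum]
  refine Finset.sum_congr rfl fun s _ => ?_
  rw [map_mul, map_prod, MvPolynomial.map_C]
  refine congrArg _ (Finset.prod_congr rfl fun i _ => ?_)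
  exact (NvS_gen φ _ _).symm

/-- The transformed frame is isotropic. PROOF. Case 1: `D.isoU`. Case 2: the entry `(i, j)` of `D.U * JJ * D.Uᵀ` is `∑ D.U i l * JJ l l' * D.U j l' = 0`; apply `reflect (p + p)` (additive; `reflect_mul`, the entries of `JJ` are constants `0, 1, -1`),
then `comp (X - C ρ)` and multiply by `κ ^ 2`. -/
theorem SpecOk.iso {g : ℕ} {k : Type*} [Field k] {p c : ℕ} {U' : Matrix (Fin g) (Nx g) k[X]} {α : k}
    (h : SpecOk p c U' α) : U' * JJ g k[X] * U'ᵀ = 0 := by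
  rcases h with ⟨D, hD, _, rfl⟩ | ⟨D, ρ, κ, hD, hdeg, _, _, _, hU⟩
  · exact hD.isoU
  · refine Matrix.ext fun i j => ?_
    have h1 : ∑ l', ∑ l, C (JJ g k l l') * ((D.U i l).reflect p * (D.U j l').reflect p) = 0 := by
      have h2 : ∑ l', ∑ l, C (JJ g k l l') * (D.U i l * D.U j l') = 0 := by
        rw [← NvS_quad, hD.isoU, Matrix.zero_apply]
      have h3 := congrArg (NvS_rf k (p + p)) h2
      rw [map_zero] at h3
      rw [← h3, map_sum]
      refine Finset.sum_congr rfl fun l' _ => ?_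
      rw [map_sum]
      refine Finset.sum_congr rfl fun l _ => ?_
      rw [NvS_rf_apply, reflect_C_mul, reflect_mul _ _ (hdeg i l) (hdeg j l')]
    have h4 := congrArg (Polynomial.compRingHom (X - C ρ)) h1
    rw [map_zero, map_sum] at h4
    rw [NvS_quad, Matrix.zero_apply, ← mul_zero (C κ * C κ), ← h4, Finset.mul_sum]
    refine Finset.sum_congr rfl fun l' _ => ?_
    rw [map_sum, Finset.mul_sum]
    refine Finset.sum_congr rfl fun l _ => ?_
    rw [hU, hU, map_mul, map_mul, Polynomial.coe_compRingHom_apply, Polynomial.coe_compRingHom_apply,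
      Polynomial.coe_compRingHom_apply, C_comp]
    ring

private theorem NvS_back {k : Type*} [Field k] {g m A : ℕ} (Φ : Kx g m → k[X]) (hA : ∀ s, (Φ s).natDegree ≤ A)
    (h : Van fun s => (Φ s).reflect A) : Van Φ := by
  rw [van_poly] at h ⊢
  intro n
  rcases le_or_gt n A with hn | hn
  · rw [← h (A - n)]
    refine congrArg _ (funext fun s => ?_)
    rw [coeff_reflect, revAt_le (Nat.sub_le A n), Nat.sub_sub_self hn]
  · have h1 : (fun s => (Φ s).coeff n) = 0 := by
      funext s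
      exact coeff_eq_zero_of_natDegree_lt ((hA s).trans_lt hn)
    rw [h1, map_zero]

private theorem NvS_pow {k : Type*} [Field k] {β : k} (hβ : β ≠ 0) (p : ℕ) :
    (X - C β⁻¹) ^ p ∣ ((X - C β) ^ p).reflect p := by
  have h1 := (NvS_prod 1 (fun _ : ℕ => X - C β) (Finset.range p) fun i _ => (natDegree_X_sub_C β).le).2
  rw [Finset.prod_const, Finset.prod_const, Finset.card_range, mul_one] at h1
  rw [h1]
  refine pow_dvd_pow_of_dvd ⟨C (-β), ?_⟩ p
  rw [reflect_sub, reflect_one_X, reflect_C, pow_one, sub_mul, ← C_mul, C_neg]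
  have h2 : β⁻¹ * -β = -1 := by
    rw [mul_neg, inv_mul_cancel₀ hβ]
  rw [h2, C_neg, C_1]
  ring

private theorem NvS_dvd {k : Type*} [Field k] {β : k} (hβ : β ≠ 0) {p N : ℕ} {W : k[X]} (hW : W.natDegree ≤ N)
    (h : (X - C β) ^ p ∣ W) : (X - C β⁻¹) ^ p ∣ W.reflect N := by
  obtain ⟨V, rfl⟩ := h
  by_cases hV : V = 0
  · rw [hV, mul_zero, reflect_zero]
    exact dvd_zero _
  · have h1 : ((X - C β) ^ p).natDegree = p := by
      rw [natDegree_pow, natDegree_X_sub_C, mul_one]
    have h2 : ((X - C β) ^ p * V).natDegree = p + V.natDegree := by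
      rw [natDegree_mul (pow_ne_zero p (X_sub_C_ne_zero β)) hV, h1]
    have h3 : N = p + (N - p) := by omega
    rw [h3, reflect_mul _ _ h1.le (by omega)]
    exact dvd_mul_of_dvd_left (NvS_pow hβ p) _

/-- The non-vanishing for a system implies that for the specialisations. -/
theorem nvS_of {g m A c p : ℕ} {k : Type} [Field k]
    (H : ∀ D : Dat g k, D.Ok p c → ∀ Φ : Kx g m → k[X], (∀ s, (Φ s).natDegree ≤ A) → ∀ α : k, D.Δ.eval α ≠ 0 →
      (X - C α) ^ p ∣ ev D.U Φ → Van Φ)
    (U' : Matrix (Fin g) (Nx g) k[X]) (α : k) (hS : SpecOk p c U' α) (Ψ : Kx g m → k[X])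
    (hΨ : ∀ s, (Ψ s).natDegree ≤ A) (hdvd : (X - C α) ^ p ∣ ev U' Ψ) : Van Ψ := by
  rcases hS with ⟨D, hD, hα, rfl⟩ | ⟨D, ρ, κ, hD, hdeg, hκ, hαρ, hα, hU⟩
  · exact H D hD Ψ hΨ α hα hdvd
  · have hβ : α - ρ ≠ 0 := sub_ne_zero.2 hαρ
    set σ : k[X] := X + C ρ with hσ
    set Φ : Kx g m → k[X] := fun s => (Ψ s).comp σ with hΦ
    have hΦA : ∀ s, (Φ s).natDegree ≤ A := by
      intro s
      refine natDegree_comp_le.trans ?_
      rw [hσ, natDegree_X_add_C, mul_one]
      exact hΨ s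
    have hpr : ∀ s : Kx g m, (∏ i, (D.U (s i).1 (s i).2).reflect p).natDegree ≤ m * p ∧
        (∏ i, (D.U (s i).1 (s i).2).reflect p).reflect (m * p) = ∏ i, D.U (s i).1 (s i).2 := by
      intro s
      have h1 := NvS_prod p (fun i => (D.U (s i).1 (s i).2).reflect p) Finset.univ
        fun i _ => NvS_deg (hdeg _ _)
      rw [Finset.card_univ, Fintype.card_fin] at h1
      refine ⟨h1.1, h1.2.trans (Finset.prod_congr rfl fun i _ => ?_)⟩
      rw [reflect_reflect]
    have hW : (ev U' Ψ).comp σ = C (κ ^ m) * ∑ s, Φ s * ∏ i, (D.U (s i).1 (s i).2).reflect p := by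
      rw [← Polynomial.coe_compRingHom_apply]
      unfold ev
      rw [map_sum, Finset.mul_sum]
      refine Finset.sum_congr rfl fun s _ => ?_
      rw [map_mul, map_prod, Polynomial.coe_compRingHom_apply]
      have h1 : ∀ i, Polynomial.compRingHom σ (U' (s i).1 (s i).2) = C κ * (D.U (s i).1 (s i).2).reflect p := by
        intro i
        rw [hU, map_mul, Polynomial.coe_compRingHom_apply, Polynomial.coe_compRingHom_apply, C_comp, comp_assoc, hσ,
          sub_comp, X_comp, C_comp, add_sub_cancel_right, comp_X]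
      rw [Finset.prod_congr rfl fun i _ => h1 i, Finset.prod_mul_distrib, Finset.prod_const, Finset.card_univ,
        Fintype.card_fin, C_pow]
      ring
    have hdegW : ((ev U' Ψ).comp σ).natDegree ≤ A + m * p := by
      rw [hW]
      refine (natDegree_C_mul_le _ _).trans ?_
      refine natDegree_sum_le_of_forall_le _ _ fun s _ => ?_
      exact natDegree_mul_le.trans (add_le_add (hΦA s) (hpr s).1)
    have hrefl : ((ev U' Ψ).comp σ).reflect (A + m * p) = C (κ ^ m) * ev D.U fun s => (Φ s).reflect A := by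
      rw [hW, reflect_C_mul, ← NvS_rf_apply, map_sum]
      refine congrArg _ (Finset.sum_congr rfl fun s _ => ?_)
      rw [NvS_rf_apply, reflect_mul _ _ (hΦA s) (hpr s).1, (hpr s).2]
    have hd : (X - C (α - ρ)) ^ p ∣ (ev U' Ψ).comp σ := by
      obtain ⟨V, hV⟩ := hdvd
      refine ⟨V.comp σ, ?_⟩
      rw [hV, mul_comp, pow_comp, sub_comp, X_comp, C_comp, hσ, C_sub]
      ring
    have h1 := NvS_dvd hβ hdegW hd
    rw [hrefl] at h1
    have h2 : (X - C (α - ρ)⁻¹) ^ p ∣ ev D.U fun s => (Φ s).reflect A := by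
      have hu : IsUnit (C (κ ^ m)) := isUnit_C.2 (IsUnit.mk0 _ (pow_ne_zero m hκ))
      exact (hu.dvd_mul_left).1 h1
    have h3 := NvS_back Φ hΦA (H D hD (fun s => (Φ s).reflect A) (fun s => NvS_deg (hΦA s)) _ hα h2)
    have h4 := Van_map (Polynomial.compRingHom (X - C ρ)) Φ h3
    have h5 : (fun s => Polynomial.compRingHom (X - C ρ) (Φ s)) = Ψ := by
      funext s
      rw [Polynomial.coe_compRingHom_apply, hΦ]
      simp only
      rw [comp_assoc, hσ, add_comp, X_comp, C_comp, sub_add_cancel, comp_X]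
    rw [h5] at h4
    exact h4

theorem nvS (g m A c : ℕ) (hg : 0 < g) : ∃ p₀ : ℕ, ∀ p : ℕ, p.Prime → p₀ ≤ p →
    ∀ (k : Type) [Field k] [CharP k p] (U' : Matrix (Fin g) (Nx g) k[X]) (α : k), SpecOk p c U' α →
    ∀ Ψ : Kx g m → k[X], (∀ s, (Ψ s).natDegree ≤ A) → (X - C α) ^ p ∣ ev U' Ψ → Van Ψ := by
  obtain ⟨p₀, hp₀⟩ := nv g m A c hg
  exact ⟨p₀, fun p hp hpp k _ _ U' α hS Ψ hΨ hdvd =>
    nvS_of (fun D hD Φ hΦ β hβ h => hp₀ p hp hpp k D hD Φ hΦ β hβ h) U' α hS Ψ hΨ hdvd⟩

end MPadcOA
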