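import Pool.Agent.Lib.MP_adc574_ag_OA.V22
import Pool.Agent.Lib.MP_adc574_ag_OAP.NvS

/-!
# Theorem A+ with a power saving: the effective non-vanishing theorem for the specialisations
-/

set_option autoImplicit false

namespace MPadcOA

open Polynomial Matrix

theorem nvSe (g c : ℕ) (hg : 0 < g) : ∃ C : ℕ, ∀ (p m A : ℕ), p.Prime → C * (m + A + 1) ^ C ≤ p →
    ∀ (k : Type) [Field k] [CharP k p] [Infinite k] (U' : Matrix (Fin g) (Nx g) k[X]) (α : k), SpecOk p c U' α →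
    ∀ Ψ : Kx g m → k[X], (∀ s, (Ψ s).natDegree ≤ A) → (X - Polynomial.C α) ^ p ∣ ev U' Ψ → Van Ψ := by
  obtain ⟨C, hC⟩ := nve g c hg
  exact ⟨C, fun p m A hp hpp k _ _ _ U' α hS Ψ hΨ hdvd =>
    nvS_of (fun D hD Φ hΦ β hβ h => hC p m A hp hpp k D hD Φ hΦ β hβ h) U' α hS Ψ hΨ hdvd⟩

end MPadcOA
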