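import Pool.Agent.Lib.MP_adc574_ag_OA.V23
import Pool.Agent.Lib.MP_adc574_ag_OAP.NvSe
import Pool.Agent.Lib.MP_adc574_ag_OAP.CntP

/-!
# Theorem A+ with a power saving: Stepanov's method for a twisted system
-/

set_option autoImplicit false

namespace MPadcOA

open Polynomial Matrix

private theorem CntPe_pt {k : Type*} [Field k] [Infinite k] (P : k[X]) (hP : P ≠ 0) : ∃ α : k, P.eval α ≠ 0 := by
  by_contra hcon
  push Not at hcon
  exact hP (Polynomial.funext fun x => by rw [hcon x, eval_zero])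

private theorem CntPe_triv {k : Type*} [Field k] (q : ℕ) (hq : 2 ≤ q) (Z : Finset k)
    (hZ : ∀ τ ∈ Z, τ ^ q = τ) : Z.card ≤ q := by
  obtain ⟨P, hP⟩ : ∃ P : k[X], P = X ^ q - X := ⟨_, rfl⟩
  have h1 : P.coeff 1 = -1 := by
    rw [hP, coeff_sub, coeff_X_one, coeff_X_pow, if_neg (by omega), zero_sub]
  have hP0 : P ≠ 0 := by
    intro h
    rw [h, coeff_zero] at h1
    exact one_ne_zero (neg_eq_zero.1 h1.symm)
  have hdeg : P.natDegree ≤ q := by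
    rw [hP]
    refine (natDegree_sub_le _ _).trans (max_le (natDegree_X_pow_le _) ?_)
    rw [natDegree_X]
    omega
  have h4 := card_mul_le P hP0 Z 1 fun τ hτ => by
    rw [pow_one, dvd_iff_isRoot, IsRoot.def, hP]
    simp only [eval_sub, eval_pow, eval_X]
    rw [hZ τ hτ, sub_self]
  omega

theorem countPe (g c r : ℕ) (hg : 0 < g) : ∃ C : ℕ, ∀ p : ℕ, p.Prime → ∀ L : ℕ, 0 < L → C * L ^ C ≤ p →
    ∀ (k : Type) [Field k] [CharP k p] [Infinite k] (n : ℕ), 0 < n → ∀ (Δ : k[X])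
      (G : Matrix (Nx g) (Nx g) k[X]) (U : Matrix (Fin g) (Nx g) k[X]) (Bad : k[X]),
      Tw p (p ^ n) r c Δ G U Bad → ∀ Z : Finset k,
    (∀ τ ∈ Z, τ ^ (p ^ n) ^ (r + 1) = τ ∧ Δ.eval τ ≠ 0 ∧ (fst (U.map (eval τ))).det = 0) →
    Z.card * L ≤ C * (p ^ n) ^ (r + 1) := by
  obtain ⟨C₁, hC₁⟩ := exists_inc_e g (Fintype.card ((Fin g × Fin g) ⊕ Sym2 (Fin g)))
  obtain ⟨C₂, hC₂⟩ := nvSe g c hg
  obtain ⟨K₁, hK₁⟩ : ∃ K₁ : ℕ, K₁ = g * c + 1 := ⟨_, rfl⟩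
  obtain ⟨K, hK⟩ : ∃ K : ℕ, K = g + K₁ * (c + 1) + 2 * r * c * K₁ + K₁ + 1 := ⟨_, rfl⟩
  obtain ⟨L0, hL0⟩ : ∃ L0 : ℕ, L0 = max C₁ 8 := ⟨_, rfl⟩
  obtain ⟨C₀, hC⟩ : ∃ C₀ : ℕ, C₀ = L0 + 16 + C₂ * K ^ C₂ + 3 * C₂ + K + 3 := ⟨_, rfl⟩
  refine ⟨C₀, fun p hp L hL hpL k _ _ _ n hn Δ G U Bad hT Z hZ => ?_⟩
  have : Fact p.Prime := ⟨hp⟩
  have hpq : p ≤ p ^ n := Nat.le_self_pow hn.ne' p
  have hdq : p ∣ p ^ n := dvd_pow_self p hn.ne'
  have hdQ : p ∣ (p ^ n) ^ (r + 1) := hdq.trans (dvd_pow_self _ (Nat.succ_ne_zero r))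
  have hQ2 : 2 ≤ (p ^ n) ^ (r + 1) :=
    (hp.two_le.trans hpq).trans (Nat.le_self_pow (Nat.succ_ne_zero r) _)
  by_cases hLL : L < L0
  · have h1 := CntPe_triv ((p ^ n) ^ (r + 1)) hQ2 Z fun τ hτ => (hZ τ hτ).1
    calc Z.card * L ≤ (p ^ n) ^ (r + 1) * L0 := Nat.mul_le_mul h1 hLL.le
      _ = L0 * (p ^ n) ^ (r + 1) := by ring
      _ ≤ C₀ * (p ^ n) ^ (r + 1) := Nat.mul_le_mul_right _ (by omega)
  push Not at hLL
  have hL8 : 8 ≤ L := (le_max_right C₁ 8).trans (hL0 ▸ hLL)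
  have hL1 : C₁ ≤ L := (le_max_left C₁ 8).trans (hL0 ▸ hLL)
  obtain ⟨δ, hδdef⟩ : ∃ δ : ℝ, δ = 1 / (L : ℝ) := ⟨_, rfl⟩
  have hLr : (0 : ℝ) < L := by exact_mod_cast hL
  have hδ : 0 < δ := by rw [hδdef]; positivity
  obtain ⟨J, hJdef⟩ : ∃ J : ℕ, J = L ^ 2 := ⟨_, rfl⟩
  obtain ⟨B, hBdef⟩ : ∃ B : ℕ, B = g * J * c + 1 := ⟨_, rfl⟩
  obtain ⟨M, hMdef⟩ : ∃ M : ℕ, M = B * L / 4 := ⟨_, rfl⟩
  obtain ⟨A, hAdef⟩ : ∃ A : ℕ, A = B + c * M := ⟨_, rfl⟩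
  obtain ⟨A', hA'def⟩ : ∃ A' : ℕ, A' = 2 * r * c * M := ⟨_, rfl⟩
  have hB0 : 0 < B := by omega
  have hBL : B * L ≤ 8 * M := by
    have h1 : 8 ≤ B * L := hL8.trans (Nat.le_mul_of_pos_left L hB0)
    omega
  have hML : M ≤ B * L := by omega
  -- the bounds
  have hL2 : L ^ 2 ≤ L ^ 3 := Nat.pow_le_pow_right hL (by norm_num)
  have hLp : 1 ≤ L ^ 2 := Nat.one_le_pow _ _ hL
  have hLp3 : 1 ≤ L ^ 3 := Nat.one_le_pow _ _ hL
  have hB1 : B ≤ K₁ * L ^ 2 := by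
    calc B = g * c * L ^ 2 + 1 := by rw [hBdef, hJdef]; ring
      _ ≤ g * c * L ^ 2 + L ^ 2 := by omega
      _ = K₁ * L ^ 2 := by rw [hK₁]; ring
  have hM1 : M ≤ K₁ * L ^ 3 := by
    calc M ≤ B * L := hML
      _ ≤ K₁ * L ^ 2 * L := Nat.mul_le_mul_right L hB1
      _ = K₁ * L ^ 3 := by ring
  have hA1 : A ≤ K₁ * (c + 1) * L ^ 3 := by
    calc A = B + c * M := hAdef
      _ ≤ K₁ * L ^ 3 + c * (K₁ * L ^ 3) :=
          Nat.add_le_add (hB1.trans (Nat.mul_le_mul_left _ hL2)) (Nat.mul_le_mul_left _ hM1)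
      _ = K₁ * (c + 1) * L ^ 3 := by ring
  have hA'1 : A' ≤ 2 * r * c * K₁ * L ^ 3 := by
    calc A' = 2 * r * c * M := hA'def
      _ ≤ 2 * r * c * (K₁ * L ^ 3) := Nat.mul_le_mul_left _ hM1
      _ = 2 * r * c * K₁ * L ^ 3 := by ring
  have hgJ : g * J ≤ g * L ^ 3 := by
    rw [hJdef]
    exact Nat.mul_le_mul_left _ hL2
  have hK1 : g * J + A + A' + M + 1 ≤ K * L ^ 3 := by
    calc g * J + A + A' + M + 1 ≤ g * L ^ 3 + K₁ * (c + 1) * L ^ 3 + 2 * r * c * K₁ * L ^ 3 + K₁ * L ^ 3 + L ^ 3 := by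
          omega
      _ = K * L ^ 3 := by rw [hK]; ring
  have hKC : K * L ^ 3 ≤ p := by
    refine le_trans ?_ hpL
    exact Nat.mul_le_mul (by omega) (Nat.pow_le_pow_right hL (by omega))
  have hbig : ∀ x : ℕ, x ≤ K * L ^ 3 → C₂ * x ^ C₂ ≤ p := by
    intro x hx
    calc C₂ * x ^ C₂ ≤ C₂ * (K * L ^ 3) ^ C₂ := Nat.mul_le_mul_left _ (Nat.pow_le_pow_left hx _)
      _ = C₂ * K ^ C₂ * L ^ (3 * C₂) := by rw [mul_pow, ← pow_mul, mul_assoc]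
      _ ≤ C₀ * L ^ C₀ := Nat.mul_le_mul (by omega) (Nat.pow_le_pow_right hL (by omega))
      _ ≤ p := hpL
  have hAq : A < p ^ n := by omega
  have hA'q : A' < p ^ n := by omega
  -- the degree
  obtain ⟨j, hj, hinc⟩ := hC₁ L hL1 (fun j => sdim g (g * j) k) (by
      show 0 < sdim g (g * 0) k
      rw [Nat.mul_zero, sdim_zero]
      exact one_pos) (fun j => sdim_le g (g * j) k)
  rw [← hJdef] at hj
  rw [← hδdef] at hinc
  obtain ⟨m, hm⟩ : ∃ m, m = g * j := ⟨_, rfl⟩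
  have hmg : g * (j + 1) = m + g := by rw [hm, Nat.mul_succ]
  have hinc' : (sdim g (m + g) k : ℝ) - sdim g m k ≤ δ * sdim g (m + g) k := by
    have h := hinc
    simp only [hmg] at h
    rw [← hm] at h
    exact h
  have hmono : sdim g m k ≤ sdim g (m + g) k := sdim_le_succ g m k
  have hpos : 0 < sdim g (m + g) k := by
    have h1 : ∀ i : ℕ, 0 < sdim g (g * i) k := by
      intro i
      induction i with
      | zero => rw [Nat.mul_zero, sdim_zero]; exact one_pos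
      | succ i ih => rw [Nat.mul_succ]; exact ih.trans_le (sdim_le_succ g _ k)
    have h2 := h1 (j + 1)
    rwa [hmg] at h2
  have hMle : (M : ℝ) ≤ B / (4 * δ) := by
    have h1 : 4 * M ≤ B * L := by omega
    have h2 : (4 : ℝ) * M ≤ B * L := by exact_mod_cast h1
    rw [hδdef, le_div_iff₀ (by positivity)]
    have h3 : (M : ℝ) * (4 * (1 / (L : ℝ))) = 4 * M / L := by ring
    rw [h3, div_le_iff₀ hLr]
    exact h2
  have hdim := dim2 A A' B M c r (sdim g (m + g) k) (sdim g m k) δ hδ hpos hB0 hAdef hA'def hMle hmono hinc'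
  have hdim' : M * (EE (p ^ n) r (A + B + c * M) (A' + c * M)).card * (sdim g (m + g) k - sdim g m k) <
      (EE (p ^ n) r A A').card * B * sdim g (m + g) k := by
    rw [card_EE hAq hA'q]
    refine lt_of_le_of_lt ?_ hdim
    exact Nat.mul_le_mul_right _ (Nat.mul_le_mul_left _ (card_EE_le _ _ _ _))
  obtain ⟨Φ, hΦ1, hΦ2, hΦ3⟩ := exists_forms2 g m B M (EE (p ^ n) r A A')
    (EE (p ^ n) r (A + B + c * M) (A' + c * M)) Δ G (by
      intro Φ hΦ e he b hb s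
      have h1 : Sp (p ^ n) r (A + c * e) (A' + c * e) ((nab Δ G)^[e] Φ s) :=
        Sp_nab_iterate (p := p) hdq Δ G hT.spD hT.spG Φ (fun s => hΦ s) e s
      have h2 : Sp (p ^ n) r (b * 1) (b * 0) ((X : k[X]) ^ b) := Sp.pow (Sp.X (A' := 0)) b
      have he' : c * e ≤ c * M := Nat.mul_le_mul_left c he.le
      exact Sp.mono (Sp.mul h2 h1) (by omega) (by omega)) hdim'
  have hmgJ : m + g ≤ g * J := by
    rw [← hmg]
    exact Nat.mul_le_mul_left g hj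
  -- the auxiliary polynomial
  have hdet : (fst U).det ≠ 0 := by
    obtain ⟨α, hα⟩ := CntPe_pt Bad hT.bad
    obtain ⟨U', hU'1, hU'2⟩ := hT.spec α hα
    exact det_ne_zero2 p n hp.pos hn U U' α hU'2 fun Ψ h1 h2 =>
      hC₂ p (0 + g) 0 hp (hbig _ (by
        have h4 : g ≤ g * J := by omega
        omega)) k U' α hU'1 Ψ h1 h2
  have hne : aux ((p ^ n) ^ (r + 1)) U Φ ≠ 0 := by
    refine aux_ne_zero2 (p := p) n hn r A A' hAq hA'q U Φ (fun b s => hΦ1 b s) hΦ2 Bad hT.bad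
      fun α hα => ?_
    obtain ⟨U', hU'1, hU'2⟩ := hT.spec α hα
    refine ⟨U', hU'2, fun Ψ h1 h2 => ?_⟩
    exact hC₂ p (m + g) A hp (hbig _ (by omega)) k U' α hU'1 Ψ h1 h2
  have hMp : M ≤ p := by omega
  have hdvd : ∀ τ ∈ Z, (X - C τ) ^ M ∣ aux ((p ^ n) ^ (r + 1)) U Φ := by
    intro τ hτ
    obtain ⟨h1, h2, h3⟩ := hZ τ hτ
    refine pow_dvd_of_dd (p := p) Δ _ τ h2 M hMp fun e he => ?_
    have htw : ∀ b : ℕ, tw B (0 : k) b = X ^ b := by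
      intro b
      rw [tw, C_0, zero_mul, add_zero, one_pow, mul_one]
    refine dd_aux_eval (p := p) ((p ^ n) ^ (r + 1)) hdQ Δ G U hT.hor hT.iso hdet Φ e 0 ?_ τ ?_ h3
    · simp only [htw]
      exact hΦ3 e he
    · rw [zero_mul, add_zero, mul_one]
      exact h1
  have hcard := card_mul_le _ hne Z M hdvd
  have hΦdeg : ∀ b s, (Φ b s).natDegree ≤ (p ^ n) ^ (r + 1) := by
    intro b s
    rw [natDegree_le_iff_coeff_eq_zero]
    intro N hN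
    by_contra hc
    have h1 := lt_of_mem_EE hAq hA'q (hΦ1 b s N hc)
    omega
  have hdeg := natDegree_aux ((p ^ n) ^ (r + 1)) (c * (p ^ n) ^ (r + 1)) ((p ^ n) ^ (r + 1)) U hT.degU Φ
    hΦdeg
  -- the inequality
  have h1 : Z.card * M ≤ 2 * B * (p ^ n) ^ (r + 1) := by
    have h2 : (m + g) * (c * (p ^ n) ^ (r + 1)) ≤ g * J * (c * (p ^ n) ^ (r + 1)) :=
      Nat.mul_le_mul_right _ hmgJ
    calc Z.card * M ≤ (p ^ n) ^ (r + 1) * B + (p ^ n) ^ (r + 1) +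
          (m + g) * (c * (p ^ n) ^ (r + 1)) := hcard.trans hdeg
      _ ≤ (p ^ n) ^ (r + 1) * B + (p ^ n) ^ (r + 1) + g * J * (c * (p ^ n) ^ (r + 1)) :=
          Nat.add_le_add_left h2 _
      _ = 2 * B * (p ^ n) ^ (r + 1) := by rw [hBdef]; ring
  have h5 : B * (Z.card * L) ≤ B * (16 * (p ^ n) ^ (r + 1)) := by
    calc B * (Z.card * L) = Z.card * (B * L) := by ring
      _ ≤ Z.card * (8 * M) := Nat.mul_le_mul_left _ hBL
      _ = 8 * (Z.card * M) := by ring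
      _ ≤ 8 * (2 * B * (p ^ n) ^ (r + 1)) := Nat.mul_le_mul_left _ h1
      _ = B * (16 * (p ^ n) ^ (r + 1)) := by ring
  exact (Nat.le_of_mul_le_mul_left h5 hB0).trans (Nat.mul_le_mul_right _ (by omega))

end MPadcOA
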