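import Pool.Agent.Lib.MP_adc574_ag_OAP.H4
import Pool.Agent.Lib.MP_adc574_ag_OAP.CntPe

/-!
# Theorem A+: the count of the moving roots from a twisted system, with and without power saving
-/

set_option autoImplicit false

namespace MPadcOA

open Polynomial Matrix MPadcCC

/-- A twisted system for the polynomials of degree `N` with `r + 1` moving and `s` fixed roots. -/
def TwHyp (g N : ℕ) : Prop :=
  ∀ r s : ℕ, r + s + 1 = N → ∃ c p₀ : ℕ, ∀ p : ℕ, p.Prime → p₀ ≤ p →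
    ∀ (k : Type) [Field k] [CharP k p] [Infinite k] (n : ℕ), 0 < n → ∀ b : Fin s → k, Function.Injective b →
    ∃ (Δ : k[X]) (G : Matrix (Nx g) (Nx g) k[X]) (U : Matrix (Fin g) (Nx g) k[X]) (Bad : k[X]),
      Tw p (p ^ n) r c Δ G U Bad ∧
      ∀ τ : k, τ ^ (p ^ n) ^ (r + 1) = τ → (∀ i < r, τ ^ (p ^ n) ^ (i + 1) ≠ τ) →
        (∀ i, ∀ j ≤ r, b i ≠ τ ^ (p ^ n) ^ j) →
        (hw p (g + 1) (((∏ i ∈ Finset.range (r + 1), (X - C (τ ^ (p ^ n) ^ i))) *
          ∏ i, (X - C (b i))) ^ ((p - 1) / 2))).det = 0 →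
        Δ.eval τ ≠ 0 ∧ (fst (U.map (eval τ))).det = 0

/-- The count of the bad moving roots with a power saving. -/
def CountHypE (g N : ℕ) : Prop :=
  ∀ r s : ℕ, r + s + 1 = N → ∃ C : ℕ, ∀ p : ℕ, p.Prime → ∀ L : ℕ, 0 < L → C * L ^ C ≤ p →
    ∀ (k : Type) [Field k] [CharP k p] [Infinite k] (n : ℕ), 0 < n → ∀ b : Fin s → k, Function.Injective b →
    ∀ Z : Finset k,
    (∀ τ ∈ Z, τ ^ (p ^ n) ^ (r + 1) = τ ∧ (∀ i < r, τ ^ (p ^ n) ^ (i + 1) ≠ τ) ∧
      (∀ i, ∀ j ≤ r, b i ≠ τ ^ (p ^ n) ^ j) ∧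
      (hw p (g + 1) (((∏ i ∈ Finset.range (r + 1), (X - Polynomial.C (τ ^ (p ^ n) ^ i))) *
        ∏ i, (X - Polynomial.C (b i))) ^ ((p - 1) / 2))).det = 0) →
    Z.card * L ≤ C * (p ^ n) ^ (r + 1)

theorem countHyp_of_tw (g N : ℕ) (hg : 0 < g) (H : TwHyp g N) : CountHyp g N := by
  intro r s hrs ε hε
  obtain ⟨c, p₁, h1⟩ := H r s hrs
  obtain ⟨p₂, h2⟩ := countP g c r hg ε hε
  refine ⟨max p₁ p₂, fun p hp hp0 k _ _ _ n hn b hb Z hZ => ?_⟩
  obtain ⟨Δ, G, U, Bad, hTw, hτ⟩ := h1 p hp ((le_max_left _ _).trans hp0) k n hn b hb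
  refine h2 p hp ((le_max_right _ _).trans hp0) k n hn Δ G U Bad hTw Z fun τ hz => ?_
  obtain ⟨h3, h4, h5, h6⟩ := hZ τ hz
  exact ⟨h3, hτ τ h3 h4 h5 h6⟩

theorem countHypE_of_tw (g N : ℕ) (hg : 0 < g) (H : TwHyp g N) : CountHypE g N := by
  intro r s hrs
  obtain ⟨c, p₁, h1⟩ := H r s hrs
  obtain ⟨C₀, h2⟩ := countPe g c r hg
  refine ⟨C₀ + p₁, fun p hp L hL hpL k _ _ _ n hn b hb Z hZ => ?_⟩
  have hL1 : 1 ≤ L ^ (C₀ + p₁) := Nat.one_le_pow _ _ hL
  have hp1 : p₁ ≤ p := by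
    refine le_trans ?_ hpL
    calc p₁ ≤ (C₀ + p₁) * 1 := by omega
      _ ≤ (C₀ + p₁) * L ^ (C₀ + p₁) := Nat.mul_le_mul_left _ hL1
  have hC0 : C₀ * L ^ C₀ ≤ p :=
    le_trans (Nat.mul_le_mul (by omega) (Nat.pow_le_pow_right hL (by omega))) hpL
  obtain ⟨Δ, G, U, Bad, hTw, hτ⟩ := h1 p hp hp1 k n hn b hb
  refine (h2 p hp L hL hC0 k n hn Δ G U Bad hTw Z fun τ hz => ?_).trans (Nat.mul_le_mul_right _ (by omega))
  obtain ⟨h3, h4, h5, h6⟩ := hZ τ hz
  exact ⟨h3, hτ τ h3 h4 h5 h6⟩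

private theorem TwH_inj {r s N : ℕ} {M : Type*} (h : r + s = N) (u : Fin r → M) (v : Fin s → M)
    (hu : Function.Injective u) (hv : Function.Injective v) (huv : ∀ i j, u i ≠ v j) :
    Function.Injective fun j : Fin N => Fin.append u v (Fin.cast h.symm j) := by
  subst h
  intro x y hxy
  simp only [Fin.cast_refl, id_eq] at hxy
  induction x using Fin.addCases with
  | left i =>
    induction y using Fin.addCases with
    | left j =>
      rw [Fin.append_left, Fin.append_left] at hxy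
      rw [hu hxy]
    | right j =>
      rw [Fin.append_left, Fin.append_right] at hxy
      exact absurd hxy (huv i j)
  | right i =>
    induction y using Fin.addCases with
    | left j =>
      rw [Fin.append_left, Fin.append_right] at hxy
      exact absurd hxy.symm (huv j i)
    | right j =>
      rw [Fin.append_right, Fin.append_right] at hxy
      rw [hv hxy]

end MPadcOA
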