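import Pool.Agent.Lib.MP_adc574_ag_OAP.V0

/-!
# Theorem A+, even degree, leaf V8: the degree of the homogenised frame
-/

set_option autoImplicit false

namespace MPadcOA

open Polynomial Matrix

variable {k : Type*} [Field k] {g : ℕ} (p M : ℕ) (w : k[X]) (κ : Fin (2 * g) → k[X])

private theorem V8_step {k : Type*} [Field k] {P : k[X][X]} {d : ℕ}
    (h : ∀ n, (P.coeff n).natDegree ≤ d) (b : k[X]) (n : ℕ) :
    ((P * (C b * X - 1)).coeff n).natDegree ≤ d + b.natDegree := by
  rw [mul_sub, coeff_sub, mul_one, ← mul_assoc]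
  refine (natDegree_sub_le _ _).trans (max_le ?_ ?_)
  · cases n with
    | zero =>
      rw [mul_coeff_zero, coeff_X_zero, mul_zero, natDegree_zero]
      exact Nat.zero_le _
    | succ n =>
      rw [coeff_mul_X, coeff_mul_C]
      exact natDegree_mul_le.trans (Nat.add_le_add_right (h n) _)
  · exact (h n).trans (Nat.le_add_right _ _)

private theorem V8_prod {k ι : Type*} [Field k] (s : Finset ι) (b : ι → k[X]) (n : ℕ) :
    ((∏ j ∈ s, (C (b j) * X - 1)).coeff n).natDegree ≤ ∑ j ∈ s, (b j).natDegree := by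
  classical
  induction s using Finset.induction_on generalizing n with
  | empty =>
    rw [Finset.prod_empty, Finset.sum_empty, coeff_one]
    split_ifs <;> simp
  | insert j s hj ih =>
    rw [Finset.prod_insert hj, Finset.sum_insert hj, mul_comm, add_comm]
    exact V8_step ih (b j) n

private theorem V8_pow {k : Type*} [Field k] {P : k[X][X]} {d : ℕ}
    (h : ∀ n, (P.coeff n).natDegree ≤ d) (m n : ℕ) : ((P ^ m).coeff n).natDegree ≤ m * d := by
  induction m generalizing n with
  | zero =>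
    rw [pow_zero, coeff_one]
    split_ifs <;> simp
  | succ m ih =>
    rw [pow_succ, coeff_mul]
    refine natDegree_sum_le_of_forall_le _ _ fun u _ => ?_
    refine natDegree_mul_le.trans ?_
    rw [Nat.succ_mul]
    exact Nat.add_le_add (ih _) (h _)

/-- PROOF. `natDegree_mul_le`, `natDegree_prod_le`. -/
theorem natDegree_WH (hw : w.natDegree ≤ M) (hκ : ∀ j, (κ j).natDegree ≤ M) :
    (WH w κ).natDegree ≤ (2 * g + 1) * M := by
  unfold WH
  refine natDegree_mul_le.trans ?_
  have h1 : (∏ j, κ j).natDegree ≤ ∑ j, (κ j).natDegree := natDegree_prod_le _ _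
  have h2 : ∑ j : Fin (2 * g), (κ j).natDegree ≤ 2 * g * M := by
    refine (Finset.sum_le_card_nsmul _ _ M fun j _ => hκ j).trans ?_
    rw [Finset.card_univ, Fintype.card_fin, smul_eq_mul]
  have h3 : (2 * g + 1) * M = M + 2 * g * M := by ring
  rw [h3]
  exact Nat.add_le_add hw (h1.trans h2)

/-- PROOF. As `natDegree_FR` in R6: a coefficient of `(C b * X - 1) * P` is `b P_(n - 1) - P_n` (`sub_mul`, `coeff_sub`, `coeff_C_mul`, `coeff_X_mul`); induction over the product. -/
theorem natDegree_FH (hw : w.natDegree ≤ M) (hκ : ∀ j, (κ j).natDegree ≤ M) (n : ℕ) :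
    ((FH w κ).coeff n).natDegree ≤ (2 * g + 1) * M := by
  unfold FH
  have h2 : ∑ j : Fin (2 * g), (κ j).natDegree ≤ 2 * g * M := by
    refine (Finset.sum_le_card_nsmul _ _ M fun j _ => hκ j).trans ?_
    rw [Finset.card_univ, Fintype.card_fin, smul_eq_mul]
  have h3 : (2 * g + 1) * M = 2 * g * M + M := by ring
  rw [mul_comm, h3]
  exact (V8_step (V8_prod Finset.univ κ) w n).trans (Nat.add_le_add h2 hw)

/-- PROOF. `coeff_pow_natDegree` (F2b) for `UH`, four blocks for `PH`, `(p - 1) / 2 + (p - 1) / 2 + 1 ≤ p` for `1 ≤ p`. -/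
theorem natDegree_UE (hp : 1 ≤ p) (hw : w.natDegree ≤ M) (hκ : ∀ j, (κ j).natDegree ≤ M) (i : Fin g) (l : Nx g) :
    (UE p (C (1 / 2 : k)) w κ i l).natDegree ≤ p * ((2 * g + 1) * M) := by
  have hBH : ∀ i j : Nx g, (BH (C (1 / 2 : k)) w κ i j).natDegree ≤ (2 * g + 1) * M := by
    intro i j
    unfold BH
    have h1 : (((nu i : k[X]) - (nu j : k[X])) * C (1 / 2 : k)).natDegree ≤ 0 := by
      refine natDegree_mul_le.trans ?_
      rw [natDegree_C, add_zero]
      refine (natDegree_sub_le _ _).trans ?_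
      rw [natDegree_natCast, natDegree_natCast, max_self]
    refine natDegree_mul_le.trans ?_
    have h2 := natDegree_FH M w κ hw hκ (nu i + nu j + 2)
    omega
  have hPH : ∀ i j : Nx g, (PH (C (1 / 2 : k)) w κ i j).natDegree ≤ (2 * g + 1) * M := by
    intro i j
    unfold PH
    rcases i with i | i <;> rcases j with j | j
    · rw [fromBlocks_apply₁₁, Matrix.smul_apply, Matrix.one_apply, smul_eq_mul]
      refine natDegree_mul_le.trans ?_
      have h1 := natDegree_WH M w κ hw hκ
      split_ifs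
      · rw [natDegree_one]
        exact h1
      · rw [natDegree_zero]
        exact h1
    · rw [fromBlocks_apply₁₂, Matrix.of_apply]
      refine natDegree_mul_le.trans ?_
      rw [natDegree_C, zero_add]
      exact hBH _ _
    · rw [fromBlocks_apply₂₁, Matrix.zero_apply, natDegree_zero]
      exact Nat.zero_le _
    · rw [fromBlocks_apply₂₂, Matrix.of_apply]
      exact hBH _ _
  have hUH : ∀ s : Nx g, (UH p w κ i s).natDegree ≤ (p - 1) / 2 * ((2 * g + 1) * M) := by
    intro s
    unfold UH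
    exact V8_pow (natDegree_FH M w κ hw hκ) _ _
  have hW : (WH w κ ^ ((p - 1) / 2)).natDegree ≤ (p - 1) / 2 * ((2 * g + 1) * M) :=
    natDegree_pow_le.trans (Nat.mul_le_mul_left _ (natDegree_WH M w κ hw hκ))
  unfold UE
  rw [Matrix.smul_apply, smul_eq_mul, Matrix.mul_apply]
  refine natDegree_mul_le.trans ?_
  have h4 : (∑ s, UH p w κ i s * PH (C (1 / 2 : k)) w κ s l).natDegree ≤
      (p - 1) / 2 * ((2 * g + 1) * M) + (2 * g + 1) * M := by
    refine natDegree_sum_le_of_forall_le _ _ fun s _ => ?_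
    exact natDegree_mul_le.trans (Nat.add_le_add (hUH s) (hPH s l))
  refine (Nat.add_le_add hW h4).trans ?_
  have h5 : (p - 1) / 2 + (p - 1) / 2 + 1 ≤ p := by omega
  calc (p - 1) / 2 * ((2 * g + 1) * M) + ((p - 1) / 2 * ((2 * g + 1) * M) + (2 * g + 1) * M)
      = ((p - 1) / 2 + (p - 1) / 2 + 1) * ((2 * g + 1) * M) := by ring
    _ ≤ p * ((2 * g + 1) * M) := Nat.mul_le_mul_right _ h5

end MPadcOA
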