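import Pool.Agent.Lib.MP_adc574_ag_OAP.V7
import Pool.Agent.Lib.MP_adc574_ag_OAP.V8
import Pool.Agent.Lib.MP_adc574_ag_OAP.NvS

/-!
# Theorem A+, even degree: the twisted system
-/

set_option autoImplicit false

namespace MPadcOA

open Polynomial Matrix

theorem famE (g : ℕ) (hg : 0 < g) : ∃ c p₀ : ℕ, ∀ p : ℕ, p.Prime → p₀ ≤ p →
    ∀ (k : Type) [Field k] [CharP k p] [Infinite k] (n : ℕ), 0 < n → ∀ (r : ℕ) (a : Fin (2 * g) → k[X])
      (z : k[X]), Function.Injective a → (∀ j, a j ≠ z) → Roots (p ^ n) r a →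
      Roots (p ^ n) r (fun _ : Fin (2 * g) => z) →
    ∃ (Δ : k[X]) (G : Matrix (Nx g) (Nx g) k[X]) (Bad : k[X]),
      Tw p (p ^ n) r c Δ G (UE p (C (1 / 2 : k)) (X - z) fun j => a j - z) Bad ∧
      ∀ τ : k, z.eval τ ≠ τ → (∀ j, (a j).eval τ ≠ τ) → (∀ j, (a j).eval τ ≠ z.eval τ) →
        Δ.eval τ ≠ 0 := by
  refine ⟨(2 * g + 1) * NG g + (4 * g + 6), 4 * g + 5, fun p hp hpp k _ _ _ n hn r a z hinj hza ha hz => ?_⟩
  have : Fact p.Prime := ⟨hp⟩
  have hq1 : 1 < p ^ n := Nat.one_lt_pow hn.ne' hp.one_lt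
  have hpq : p ≤ p ^ n := Nat.le_self_pow hn.ne' p
  have j₀ : Fin (2 * g) := ⟨0, by omega⟩
  obtain ⟨GG, hGd, hGG⟩ := univ_G (k := k) (g := g) hp (by omega) (by omega)
  have hDa : ∀ α : k, ∀ j, (X - C α) ^ (p ^ n) ∣ a j - C ((a j).eval α) := fun α j => ha.dvd hn α j
  have hDz : ∀ α : k, (X - C α) ^ (p ^ n) ∣ z - C (z.eval α) := fun α => hz.dvd hn α j₀
  have hB : badE a z ≠ 0 := badE_ne_zero hg hq1 ha hz hinj hza
  have hcard : Fintype.card (Option (Fin (2 * g))) = 2 * g + 1 := by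
    rw [Fintype.card_option, Fintype.card_fin]
  have hspz : Sp (p ^ n) r 1 1 z := hz.sp j₀
  have hspv : ∀ o, Sp (p ^ n) r 1 1 (vv a z o) := by
    intro o
    rcases o with _ | j
    · show Sp (p ^ n) r 1 1 (X - z)
      rw [sub_eq_add_neg]
      exact Sp.X.add hspz.neg
    · show Sp (p ^ n) r 1 1 (a j - z)
      rw [sub_eq_add_neg]
      exact (ha.sp j).add hspz.neg
  have hN : 2 * g ≤ NG g := by
    unfold NG
    omega
  have hspec : ∀ α : k, (badE a z).eval α ≠ 0 → SpecOk p ((2 * g + 1) * NG g + (4 * g + 6)) (UA p a z α) α ∧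
      ∀ i l, (X - C α) ^ (p ^ n) ∣ UE p (C (1 / 2 : k)) (X - z) (fun j => a j - z) i l - UA p a z α i l :=
    fun α hα => spec_E hp hg hpp (by omega) a z α (hDa α) (hDz α) hα
  refine ⟨(X - z) ^ 2 * hgm (NG g) (vv a z) (∏ j : Fin (2 * g), (MvPolynomial.X none - MvPolynomial.X (some j))),
    Matrix.of fun l' l => -hgm (NG g) (vv a z) (GG l' l), badE a z, ⟨hB, ?_, ?_, ?_, ?_, ?_, ?_⟩, ?_⟩
  · have h1 := (hspv none).pow 2
    have h2 := hgm_sp (NG g) (vv a z) (∏ j : Fin (2 * g), (MvPolynomial.X none - MvPolynomial.X (some j))) hspv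
    have h3 := h1.mul h2
    rw [hcard] at h3
    exact h3.mono (by omega) (by omega)
  · intro i j
    have h2 := (hgm_sp (NG g) (vv a z) (GG i j) hspv).neg
    rw [hcard] at h2
    exact h2.mono (by omega) (by omega)
  · intro i l
    have hM : 1 ≤ (p ^ n) ^ r := Nat.one_le_pow _ _ (by omega)
    have hzd : z.natDegree ≤ (p ^ n) ^ r := hz.natDegree_le (by omega) j₀
    have h1 : (X - z).natDegree ≤ (p ^ n) ^ r :=
      (natDegree_sub_le _ _).trans (max_le (natDegree_X_le.trans hM) hzd)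
    have h2 : ∀ j, (a j - z).natDegree ≤ (p ^ n) ^ r := fun j =>
      (natDegree_sub_le _ _).trans (max_le (ha.natDegree_le (by omega) j) hzd)
    refine (natDegree_UE p ((p ^ n) ^ r) (X - z) (fun j => a j - z) hp.one_le h1 h2 i l).trans ?_
    calc p * ((2 * g + 1) * (p ^ n) ^ r) ≤ p ^ n * ((2 * g + 1) * (p ^ n) ^ r) :=
          Nat.mul_le_mul_right _ hpq
      _ = (2 * g + 1) * (p ^ n) ^ (r + 1) := by ring
      _ ≤ ((2 * g + 1) * NG g + (4 * g + 6)) * (p ^ n) ^ (r + 1) := by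
          refine Nat.mul_le_mul_right _ ?_
          omega
  · exact hor_E (c := 0) hp hg hpp (by omega) le_rfl a z hDa hDz hB GG hGd hGG
  · exact iso_of_spec (q := p ^ n) (by omega) _ (badE a z) hB fun α hα =>
      ⟨UA p a z α, (hspec α hα).1.iso, (hspec α hα).2⟩
  · intro α hα
    exact ⟨UA p a z α, (hspec α hα).1, (hspec α hα).2⟩
  · intro τ h1 h2 h3
    have hw : τ - z.eval τ ≠ 0 := sub_ne_zero.2 h1.symm
    have hv : ∀ o, (vv a z o).eval τ ≠ 0 := by
      intro o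
      rcases o with _ | j
      · show (X - z).eval τ ≠ 0
        rw [eval_sub, eval_X]
        exact hw
      · show (a j - z).eval τ ≠ 0
        rw [eval_sub]
        exact sub_ne_zero.2 (h3 j)
    obtain ⟨hd, he⟩ := DU_spec (k := k) g
    rw [eval_mul, eval_pow, eval_sub, eval_X, hgm_eval (NG g) (vv a z) _ (hd.trans hN) τ hv, he]
    refine mul_ne_zero (pow_ne_zero _ hw) (mul_ne_zero (pow_ne_zero _ ?_) ?_)
    · exact Finset.prod_ne_zero_iff.2 fun o _ => hv o
    · refine Finset.prod_ne_zero_iff.2 fun j _ => ?_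
      rw [sub_ne_zero]
      intro h4
      have h5 := inv_injective h4
      have h6 : (X - z).eval τ = (a j - z).eval τ := h5
      rw [eval_sub, eval_sub, eval_X] at h6
      exact h2 j (sub_left_injective h6).symm

end MPadcOA
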