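import Pool.Agent.Lib.MP_adc574_ag_OAP.V9
import Pool.Agent.Lib.MP_adc574_ag_OAP.V10
import Pool.Agent.Lib.MP_adc574_ag_OAP.TwH
import Pool.Agent.Lib.MP_adc574_ag_OA.O4

/-!
# Theorem A+, even degree `2 g + 2`: the twisted system for the moving roots `τ ^ (q ^ i)` and fixed roots `b i`
-/

set_option autoImplicit false

namespace MPadcOA

open Polynomial Matrix MPadcCC

private theorem TwE_prod {β M : Type*} [CommMonoid M] {r s N : ℕ} (hrs : r + s = N) (u : Fin r → β) (v : Fin s → β)
    (φ : β → M) : ∏ j : Fin N, φ (Fin.append u v (Fin.cast hrs.symm j)) = (∏ i, φ (u i)) * ∏ i, φ (v i) := by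
  subst hrs
  simp [Fin.prod_univ_add]

private theorem TwE_cases {β : Type*} {r s N : ℕ} (hrs : r + s = N) (u : Fin r → β) (v : Fin s → β) (j : Fin N) :
    (∃ i, Fin.append u v (Fin.cast hrs.symm j) = u i) ∨ ∃ i, Fin.append u v (Fin.cast hrs.symm j) = v i := by
  subst hrs
  refine Fin.addCases (fun i => ?_) (fun i => ?_) j
  · exact Or.inl ⟨i, by simp⟩
  · exact Or.inr ⟨i, by simp⟩

private theorem TwE_inj {β γ : Type*} {r s N : ℕ} (hrs : r + s = N) (u : Fin r → β) (v : Fin s → β) (φ : β → γ)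
    (hu : Function.Injective fun i => φ (u i)) (hv : Function.Injective fun i => φ (v i))
    (huv : ∀ i j, φ (u i) ≠ φ (v j)) :
    Function.Injective fun j : Fin N => φ (Fin.append u v (Fin.cast hrs.symm j)) := by
  subst hrs
  intro i j h
  revert h
  refine Fin.addCases (fun i => ?_) (fun i => ?_) i <;> refine Fin.addCases (fun j => ?_) (fun j => ?_) j
  · intro h
    simp only [Fin.cast_eq_self, Fin.append_left] at h
    rw [hu h]
  · intro h
    simp only [Fin.cast_eq_self, Fin.append_left, Fin.append_right] at h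
    exact absurd h (huv i j)
  · intro h
    simp only [Fin.cast_eq_self, Fin.append_left, Fin.append_right] at h
    exact absurd h.symm (huv j i)
  · intro h
    simp only [Fin.cast_eq_self, Fin.append_right] at h
    rw [hv h]

/-- The conjugates are different. -/
private theorem TwE_conj {k : Type*} [Field k] {p n r : ℕ} [Fact p.Prime] [CharP k p] {τ : k}
    (h2 : ∀ i < r, τ ^ (p ^ n) ^ (i + 1) ≠ τ) : ∀ i j : Fin r, (i : ℕ) < j →
    τ ^ (p ^ n) ^ ((i : ℕ) + 1) ≠ τ ^ (p ^ n) ^ ((j : ℕ) + 1) := by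
  intro i j hij h
  have h3 : (p ^ n) ^ ((j : ℕ) + 1) = (p ^ n) ^ ((j : ℕ) - i - 1 + 1) * p ^ (n * ((i : ℕ) + 1)) := by
    rw [pow_mul, ← pow_add]
    congr 1
    omega
  rw [h3, pow_mul τ ((p ^ n) ^ ((j : ℕ) - i - 1 + 1)), ← pow_mul p n] at h
  have h4 : τ = τ ^ (p ^ n) ^ ((j : ℕ) - i - 1 + 1) :=
    iterateFrobenius_inj k p (n * ((i : ℕ) + 1)) (by
      rw [iterateFrobenius_def, iterateFrobenius_def]
      exact h)
  exact h2 ((j : ℕ) - i - 1) (by have := j.2; omega) h4.symm

/-- The twisted system for even degree. -/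
theorem twHyp_even (g : ℕ) (hg : 0 < g) : TwHyp g (2 * g + 2) := by
  intro r s hrs0
  have hrs : r + s = 2 * g + 1 := by omega
  obtain ⟨c, p₁, hfam⟩ := famE g hg
  refine ⟨c, p₁ + (g + 3), fun p hp hp0 k _ _ _ n hn b hb => ?_⟩
  have : Fact p.Prime := ⟨hp⟩
  have hodd : Odd p := hp.odd_of_ne_two (by omega)
  have hp1 : p₁ ≤ p := by omega
  have hq : 1 < p ^ n := Nat.one_lt_pow hn.ne' hp.one_lt
  obtain ⟨u, hu⟩ : ∃ u : Fin r → k[X], ∀ i : Fin r, u i = X ^ ((p ^ n) ^ ((i : ℕ) + 1)) := ⟨_, fun _ => rfl⟩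
  obtain ⟨v, hv⟩ : ∃ v : Fin s → k[X], ∀ i : Fin s, v i = C (b i) := ⟨_, fun _ => rfl⟩
  obtain ⟨e, he⟩ : ∃ e : Fin (2 * g + 1) → k[X], ∀ j, e j = Fin.append u v (Fin.cast hrs.symm j) :=
    ⟨_, fun _ => rfl⟩
  have hecases : ∀ j, (∃ i : Fin r, e j = X ^ ((p ^ n) ^ ((i : ℕ) + 1))) ∨ ∃ i, e j = C (b i) := by
    intro j
    rcases TwE_cases hrs u v j with ⟨i, hi⟩ | ⟨i, hi⟩
    · exact Or.inl ⟨i, by rw [he, hi, hu]⟩
    · exact Or.inr ⟨i, by rw [he, hi, hv]⟩
  have heinj : Function.Injective e := by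
    have h0 := TwE_inj hrs u v (id : k[X] → k[X]) (fun i j h => ?_) (fun i j h => ?_) (fun i j h => ?_)
    · intro i j h
      rw [he, he] at h
      exact h0 h
    · have h' : u i = u j := h
      rw [hu, hu] at h'
      have h1 := congrArg natDegree h'
      rw [natDegree_X_pow, natDegree_X_pow] at h1
      have h2 := Nat.pow_right_injective hq h1
      exact Fin.ext (by simpa using h2)
    · have h' : v i = v j := h
      rw [hv, hv] at h'
      exact hb (C_injective h')
    · have h' : u i = v j := h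
      rw [hu, hv] at h'
      have h1 := congrArg natDegree h'
      rw [natDegree_X_pow, natDegree_C] at h1
      exact absurd h1 (by positivity)
  obtain ⟨a, ha⟩ : ∃ a : Fin (2 * g) → k[X], ∀ j, a j = e j.castSucc := ⟨_, fun _ => rfl⟩
  obtain ⟨z, hz⟩ : ∃ z : k[X], z = e (Fin.last (2 * g)) := ⟨_, rfl⟩
  have hinj : Function.Injective a := by
    intro i j h
    rw [ha, ha] at h
    exact Fin.castSucc_injective _ (heinj h)
  have hza : ∀ j, a j ≠ z := by
    intro j h
    rw [ha, hz] at h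
    exact absurd (heinj h) (Fin.castSucc_lt_last j).ne
  have hroots : Roots (p ^ n) r a := by
    intro j
    rw [ha]
    rcases hecases j.castSucc with ⟨i, hi⟩ | ⟨i, hi⟩
    · exact Or.inr ⟨i, hi⟩
    · exact Or.inl ⟨b i, hi⟩
  have hrootz : Roots (p ^ n) r fun _ : Fin (2 * g) => z := by
    intro j
    show (∃ b : k, z = C b) ∨ ∃ i : Fin r, z = X ^ ((p ^ n) ^ ((i : ℕ) + 1))
    rw [hz]
    rcases hecases (Fin.last (2 * g)) with ⟨i, hi⟩ | ⟨i, hi⟩
    · exact Or.inr ⟨i, hi⟩
    · exact Or.inl ⟨b i, hi⟩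
  obtain ⟨Δ, G, Bad, hTw, hΔ⟩ := hfam p hp hp1 k n hn r a z hinj hza hroots hrootz
  refine ⟨Δ, G, _, Bad, hTw, fun τ h1 h2 h3 h4 => ?_⟩
  have hne : ∀ j, (e j).eval τ ≠ τ := by
    intro j
    rcases hecases j with ⟨i, hi⟩ | ⟨i, hi⟩
    · rw [hi, eval_pow, eval_X]
      exact h2 i i.2
    · rw [hi, eval_C]
      have h5 := h3 i 0 (Nat.zero_le r)
      rwa [pow_zero, pow_one] at h5
  have hvinj : Function.Injective fun j => (e j).eval τ := by
    have h0 := TwE_inj hrs u v (fun f : k[X] => f.eval τ) (fun i j h => ?_) (fun i j h => ?_) (fun i j h => ?_)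
    · intro i j h
      have h' : (e i).eval τ = (e j).eval τ := h
      rw [he, he] at h'
      exact h0 h'
    · have h' : (u i).eval τ = (u j).eval τ := h
      rw [hu, hu, eval_pow, eval_X, eval_pow, eval_X] at h'
      rcases lt_trichotomy (i : ℕ) j with h5 | h5 | h5
      · exact absurd h' (TwE_conj h2 i j h5)
      · exact Fin.ext h5
      · exact absurd h'.symm (TwE_conj h2 j i h5)
    · have h' : (v i).eval τ = (v j).eval τ := h
      rw [hv, hv, eval_C, eval_C] at h'
      exact hb h'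
    · have h' : (u i).eval τ = (v j).eval τ := h
      rw [hu, hv, eval_pow, eval_X, eval_C] at h'
      exact h3 j ((i : ℕ) + 1) i.2 h'.symm
  refine ⟨hΔ τ ?_ ?_ ?_, ?_⟩
  · rw [hz]
    exact hne _
  · intro j
    rw [ha]
    exact hne _
  · intro j h
    rw [ha, hz] at h
    exact absurd (hvinj h) (Fin.castSucc_lt_last j).ne
  · have h5 : (UE p (C (1 / 2 : k)) (X - z) fun j => a j - z).map (eval τ) =
        UE p (1 / 2 : k) (τ - z.eval τ) fun j => (a j).eval τ - z.eval τ := by
      refine Matrix.ext fun i l => ?_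
      have h6 := UE_map (evalRingHom τ) p (C (1 / 2 : k)) (X - z) (fun j => a j - z) i l
      simp only [coe_evalRingHom, eval_sub, eval_X, eval_C] at h6
      rw [Matrix.map_apply]
      exact h6
    rw [h5]
    refine det_UE g (by omega) hodd _ _ ?_
    -- the product
    have h6 : ∏ j, (X - C ((e j).eval τ)) = (∏ i : Fin r, (X - C ((u i).eval τ))) * ∏ i : Fin s, (X - C ((v i).eval τ)) := by
      have h7 := TwE_prod hrs u v fun f => X - C (f.eval τ)
      rw [← h7]
      exact Finset.prod_congr rfl fun j _ => by rw [he]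
    have h7 : (X - C τ) * ∏ j, (X - C ((e j).eval τ)) =
        (∏ i ∈ Finset.range (r + 1), (X - C (τ ^ (p ^ n) ^ i))) * ∏ i, (X - C (b i)) := by
      rw [h6, Finset.prod_range_succ', pow_zero, pow_one, Finset.prod_range]
      simp only [hu, hv, eval_pow, eval_X, eval_C]
      ring
    have h8 : ((X - C τ) * ∏ j, (X - C ((e j).eval τ))).comp (X + C (z.eval τ)) =
        (X - C (τ - z.eval τ)) * (X * ∏ j, (X - C ((a j).eval τ - z.eval τ))) := by
      have h0 : ∀ x : k, (X - C x : k[X]).comp (X + C (z.eval τ)) = X - C (x - z.eval τ) := by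
        intro x
        rw [sub_comp, X_comp, C_comp, C_sub]
        ring
      rw [mul_comp, h0, Polynomial.prod_comp, Fin.prod_univ_castSucc, h0, ← hz, sub_self, C_0, sub_zero]
      simp only [h0, ← ha]
      ring
    rw [← h8, ← pow_comp, det_hw_comp g (by omega), h7]
    · exact h4
    · have h9 : ((X - C τ) * ∏ j, (X - C ((e j).eval τ))).natDegree ≤ 2 * g + 2 := by
        refine natDegree_mul_le.trans ?_
        rw [natDegree_X_sub_C, natDegree_prod_of_monic _ _ fun j _ => monic_X_sub_C _]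
        simp only [natDegree_X_sub_C, Finset.sum_const, Finset.card_univ, Fintype.card_fin, smul_eq_mul, mul_one]
        omega
      refine (natDegree_pow_le_of_le _ h9).trans ?_
      obtain ⟨M, hM⟩ := hodd
      have h5 : (p - 1) / 2 = M := by omega
      have h6 : p - 1 = 2 * M := by omega
      rw [h5, h6]
      exact le_of_eq (by ring)

end MPadcOA
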