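import Pool.Agent.Lib.MP_adc574_ag_OAP.TwH

/-!
# Theorem A+: the twisted system in odd degree (from `famP`)
-/

set_option autoImplicit false

namespace MPadcOA

open Polynomial Matrix MPadcCC

private theorem TwO_prod {β M : Type*} [CommMonoid M] {r s N : ℕ} (hrs : r + s = N) (u : Fin r → β) (v : Fin s → β)
    (φ : β → M) : ∏ j : Fin N, φ (Fin.append u v (Fin.cast hrs.symm j)) = (∏ i, φ (u i)) * ∏ i, φ (v i) := by
  subst hrs
  simp [Fin.prod_univ_add]

private theorem TwO_cases {β : Type*} {r s N : ℕ} (hrs : r + s = N) (u : Fin r → β) (v : Fin s → β) (j : Fin N) :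
    (∃ i, Fin.append u v (Fin.cast hrs.symm j) = u i) ∨ ∃ i, Fin.append u v (Fin.cast hrs.symm j) = v i := by
  subst hrs
  refine Fin.addCases (fun i => ?_) (fun i => ?_) j
  · exact Or.inl ⟨i, by simp⟩
  · exact Or.inr ⟨i, by simp⟩

private theorem TwO_inj {β : Type*} {r s N : ℕ} (hrs : r + s = N) (u : Fin r → β) (v : Fin s → β)
    (hu : Function.Injective u) (hv : Function.Injective v) (huv : ∀ i j, u i ≠ v j) :
    Function.Injective fun j : Fin N => Fin.append u v (Fin.cast hrs.symm j) := by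
  subst hrs
  intro i j h
  revert h
  refine Fin.addCases (fun i => ?_) (fun i => ?_) i <;> refine Fin.addCases (fun j => ?_) (fun j => ?_) j
  · intro h
    simp only [Fin.cast_eq_self, Fin.append_left] at h
    rw [hu h]
  · intro h
    simp only [Fin.cast_eq_self, Fin.append_left, Fin.append_right] at h
    exact absurd h (huv i j)
  · intro h
    simp only [Fin.cast_eq_self, Fin.append_left, Fin.append_right] at h
    exact absurd h.symm (huv j i)
  · intro h
    simp only [Fin.cast_eq_self, Fin.append_right] at h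
    rw [hv h]

theorem twHyp_odd (g : ℕ) (hg : 0 < g) : TwHyp g (2 * g + 1) := by
  intro r s hrs0
  have hrs : r + s = 2 * g := by omega
  obtain ⟨c, p₁, hfam⟩ := famP g hg
  refine ⟨c, p₁, fun p hp hp0 k _ _ _ n hn b hb => ?_⟩
  have hq : 1 < p ^ n := Nat.one_lt_pow hn.ne' hp.one_lt
  obtain ⟨u, hu⟩ : ∃ u : Fin r → k[X], u = fun i : Fin r => X ^ ((p ^ n) ^ ((i : ℕ) + 1)) := ⟨_, rfl⟩
  obtain ⟨v, hv⟩ : ∃ v : Fin s → k[X], v = fun i : Fin s => C (b i) := ⟨_, rfl⟩
  obtain ⟨a, ha⟩ : ∃ a : Fin (2 * g) → k[X], a = fun j => Fin.append u v (Fin.cast hrs.symm j) := ⟨_, rfl⟩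
  have hinj : Function.Injective a := by
    rw [ha]
    refine TwO_inj hrs u v ?_ ?_ ?_
    · intro i j h
      rw [hu] at h
      have h1 := congrArg natDegree h
      simp only [natDegree_X_pow] at h1
      have h2 := Nat.pow_right_injective hq h1
      exact Fin.ext (by simpa using h2)
    · intro i j h
      rw [hv] at h
      exact hb (C_injective h)
    · intro i j h
      rw [hu, hv] at h
      have h1 := congrArg natDegree h
      simp only [natDegree_X_pow, natDegree_C] at h1
      exact absurd h1 (by positivity)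
  have hroots : Roots (p ^ n) r a := by
    intro j
    rw [ha]
    rcases TwO_cases hrs u v j with ⟨i, hi⟩ | ⟨i, hi⟩
    · right
      refine ⟨i, ?_⟩
      change Fin.append u v (Fin.cast hrs.symm j) = _
      rw [hi, hu]
    · left
      refine ⟨b i, ?_⟩
      change Fin.append u v (Fin.cast hrs.symm j) = _
      rw [hi, hv]
  obtain ⟨G, Bad, hTw⟩ := hfam p hp hp0 k n hn r a hinj hroots
  refine ⟨_, G, _, Bad, hTw, fun τ h1 h2 h3' h4 => ?_⟩
  have h3 : ∀ i, b i ≠ τ := by
    intro i
    have h5 := h3' i 0 (Nat.zero_le r)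
    rwa [pow_zero, pow_one] at h5
  refine ⟨?_, ?_⟩
  · rw [eval_prod, Finset.prod_ne_zero_iff]
    intro j _
    rw [eval_sub, eval_X, ha]
    change τ - (Fin.append u v (Fin.cast hrs.symm j)).eval τ ≠ 0
    rcases TwO_cases hrs u v j with ⟨i, hi⟩ | ⟨i, hi⟩
    · rw [hi, hu]
      simp only [eval_pow, eval_X]
      exact sub_ne_zero.2 (h2 i i.2).symm
    · rw [hi, hv]
      simp only [eval_C]
      exact sub_ne_zero.2 (h3 i).symm
  · have h5 := fst_UP p a τ
    have h6 : ∏ j, (X - C ((a j).eval τ)) = (∏ i : Fin r, (X - C ((u i).eval τ))) * ∏ i : Fin s, (X - C ((v i).eval τ)) := by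
      rw [ha]
      exact TwO_prod hrs u v fun f => X - C (f.eval τ)
    have h7 : (X - C τ) * ∏ j, (X - C ((a j).eval τ)) =
        (∏ i ∈ Finset.range (r + 1), (X - C (τ ^ (p ^ n) ^ i))) * ∏ i, (X - C (b i)) := by
      rw [h6, Finset.prod_range_succ', pow_zero, pow_one, Finset.prod_range, hu, hv]
      simp only [eval_pow, eval_X, eval_C]
      ring
    rw [h7] at h5
    exact (congrArg Matrix.det h5).trans h4

end MPadcOA
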