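import Pool.Agent.Lib.MP_adc574_ag_OAP.H3
import Pool.Agent.Lib.MP_adc574_ag_OAP.TwH

/-!
# Theorem A+ with a power saving: the moving roots of one factor
-/

set_option autoImplicit false

namespace MPadcOA

open Polynomial Matrix MPadcCC

/-- The values of a polynomial over `E` at the conjugates. -/
private theorem H5_aeval {E : Type} [Field E] [Finite E] {k : Type*} [Field k] [Algebra E k] (f : E[X]) (t : k) (j : ℕ) :
    aeval (t ^ Nat.card E ^ j) f = (aeval t f) ^ Nat.card E ^ j := by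
  classical
  have := Fintype.ofFinite E
  induction j with
  | zero => rw [pow_zero, pow_one, pow_one]
  | succ j ih =>
    have h1 : aeval (t ^ Nat.card E ^ (j + 1)) f = aeval (t ^ Nat.card E ^ j) (expand E (Nat.card E) f) := by
      rw [expand_aeval, pow_succ, pow_mul]
    have h2 : expand E (Nat.card E) f = f ^ Nat.card E := by
      rw [Nat.card_eq_fintype_card]
      exact FiniteField.expand_card f
    rw [h1, h2, map_pow, ih, ← pow_mul, ← pow_succ]

/-- The bad moving roots in the form of the count. -/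
theorem BadT_core {p g : ℕ} (hp : p.Prime) (E : Type) [Field E] [Finite E] [CharP E p] (r s : ℕ) (f : E[X])
    (hf : f ∈ Mon E s) (hsq : Squarefree f) :
    ∃ n : ℕ, 0 < n ∧ Nat.card E = p ^ n ∧ ∃ (b : Fin s → AlgebraicClosure E) (Z : Finset (AlgebraicClosure E)),
      Function.Injective b ∧ Z.card = (BadT E p g r f).ncard ∧
      ∀ τ ∈ Z, τ ^ (p ^ n) ^ (r + 1) = τ ∧ (∀ i < r, τ ^ (p ^ n) ^ (i + 1) ≠ τ) ∧
        (∀ i, ∀ j ≤ r, b i ≠ τ ^ (p ^ n) ^ j) ∧
        (hw p (g + 1) (((∏ i ∈ Finset.range (r + 1), (X - C (τ ^ (p ^ n) ^ i))) *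
          ∏ i, (X - C (b i))) ^ ((p - 1) / 2))).det = 0 := by
  classical
  have : Fact p.Prime := ⟨hp⟩
  have := Fintype.ofFinite E
  obtain ⟨n, hn, hcard⟩ := FiniteField.card E p
  have hq : Nat.card E = p ^ (n : ℕ) := by rw [Nat.card_eq_fintype_card, hcard]
  let k : Type := AlgebraicClosure E
  obtain ⟨hfm, hfd⟩ : f.Monic ∧ f.natDegree = s := hf
  -- the roots of `f`
  obtain ⟨f', hf'⟩ : ∃ f' : k[X], f' = f.map (algebraMap E k) := ⟨_, rfl⟩
  have hf'm : f'.Monic := by rw [hf']; exact hfm.map _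
  have hf'd : f'.natDegree = s := by rw [hf', natDegree_map, hfd]
  have hsplit : f'.Splits := IsAlgClosed.splits f'
  have hcardr : f'.roots.card = s := by
    rw [← hf'd]
    exact (splits_iff_card_roots.1 hsplit)
  have hnodup : f'.roots.Nodup := by
    apply nodup_roots
    rw [hf']
    exact (PerfectField.separable_iff_squarefree.2 hsq).map
  obtain ⟨e⟩ : Nonempty (Fin s ≃ {x // x ∈ f'.roots.toFinset}) := by
    refine ⟨Fintype.equivOfCardEq ?_⟩
    rw [Fintype.card_fin, Fintype.card_coe, Multiset.toFinset_card_of_nodup hnodup, hcardr]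
  obtain ⟨b, hb⟩ : ∃ b : Fin s → k, b = fun j => (e j : k) := ⟨_, rfl⟩
  have hinj : Function.Injective b := by
    rw [hb]
    exact Subtype.val_injective.comp e.injective
  have hprod : ∏ j, (X - C (b j)) = f' := by
    have h1 : ∏ j, (X - C (b j)) = ∏ x ∈ f'.roots.toFinset, (X - C x) := by
      rw [hb, ← Finset.prod_coe_sort f'.roots.toFinset fun x => X - C x]
      exact Fintype.prod_equiv e (fun j => X - C ((e j : k))) (fun x => X - C (x : k)) fun _ => rfl
    rw [h1]
    have h2 : (f'.roots.map fun x => X - C x).prod = f' :=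
      (hsplit.eq_prod_roots_of_monic hf'm).symm
    rw [Finset.prod, Multiset.toFinset_val, Multiset.dedup_eq_self.2 hnodup]
    exact h2
  have hbad : ∀ t : k, t ∈ BadT E p g r f ↔
      t ^ Nat.card E ^ (r + 1) = t ∧ (∀ i < r, t ^ Nat.card E ^ (i + 1) ≠ t) ∧ aeval t f ≠ 0 ∧
      (hw p (g + 1) ((conj k (Nat.card E) (r + 1) t *
        f.map (algebraMap E k)) ^ ((p - 1) / 2))).det = 0 := fun t => Iff.rfl
  refine ⟨n, n.pos, hq, b, (BadT_finite E p g r f).toFinset, hinj, ?_, ?_⟩
  · rw [Set.ncard_eq_toFinset_card _ (BadT_finite E p g r f)]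
  · intro τ hτ
    rw [Set.Finite.mem_toFinset, hbad, hq] at hτ
    obtain ⟨h2, h3, h4, h5⟩ := hτ
    refine ⟨h2, h3, ?_, ?_⟩
    · intro i j _ hi
      apply h4
      have h6 : f'.eval (τ ^ (p ^ (n : ℕ)) ^ j) = 0 := by
        rw [← hprod, eval_prod]
        exact Finset.prod_eq_zero (Finset.mem_univ i) (by rw [eval_sub, eval_X, eval_C, hi, sub_self])
      rw [hf', eval_map_algebraMap, ← hq, H5_aeval] at h6
      exact eq_zero_of_pow_eq_zero h6
    · rw [hprod, hf']
      exact h5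

/-- The moving roots of one factor with a power saving. -/
theorem BadT_lenE (g N : ℕ) (HC : CountHypE g N) : ∃ C : ℕ, ∀ p : ℕ, p.Prime → ∀ L : ℕ, 0 < L → C * L ^ C ≤ p →
    ∀ (E : Type) [Field E] [Finite E] [CharP E p], ∀ r < N, ∀ f ∈ Mon E (N - (r + 1)), Squarefree f →
      (BadT E p g r f).ncard * L ≤ C * (Nat.card E) ^ (r + 1) := by
  have hex : ∀ r : ℕ, ∃ C : ℕ, r < N → ∀ p : ℕ, p.Prime → ∀ L : ℕ, 0 < L → C * L ^ C ≤ p →
      ∀ (E : Type) [Field E] [Finite E] [CharP E p], ∀ f ∈ Mon E (N - (r + 1)), Squarefree f →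
      (BadT E p g r f).ncard * L ≤ C * (Nat.card E) ^ (r + 1) := by
    intro r
    by_cases hr : r < N
    · obtain ⟨C₀, hC⟩ := HC r (N - (r + 1)) (by omega)
      refine ⟨C₀, fun _ p hp L hL hpL E _ _ _ f hf hsq => ?_⟩
      have : Fact p.Prime := ⟨hp⟩
      obtain ⟨n, hn, hq, b, Z, hb, hZ, hZ'⟩ := BadT_core (g := g) hp E r (N - (r + 1)) f hf hsq
      have hk : CharP (AlgebraicClosure E) p :=
        charP_of_injective_algebraMap (algebraMap E (AlgebraicClosure E)).injective p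
      have hinf : Infinite (AlgebraicClosure E) := IsAlgClosed.instInfinite
      rw [← hZ, hq]
      exact hC p hp L hL hpL (AlgebraicClosure E) n hn b hb Z hZ'
    · exact ⟨0, fun h => absurd h hr⟩
  choose C₀ hC using hex
  refine ⟨∑ r ∈ Finset.range N, C₀ r, fun p hp L hL hpL E _ _ _ r hr f hf hsq => ?_⟩
  have h1 : C₀ r ≤ ∑ r ∈ Finset.range N, C₀ r :=
    Finset.single_le_sum (f := C₀) (fun _ _ => Nat.zero_le _) (Finset.mem_range.2 hr)
  refine (hC r hr p hp L hL ?_ E f hf hsq).trans (Nat.mul_le_mul_right _ h1)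
  exact (Nat.mul_le_mul h1 (Nat.pow_le_pow_right hL h1)).trans hpL

end MPadcOA
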