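import Pool.Agent.Lib.MP_adc574_ag_OA.F13

/-!
# Theorem A+: the system of the pencil with its explicit frame (helper84's `famD`)
-/

set_option autoImplicit false

namespace MPadcOA

open Polynomial Matrix

theorem famX (g : ℕ) (hg : 0 < g) : ∃ c p₀ : ℕ, ∀ p : ℕ, p.Prime → p₀ ≤ p →
    ∀ (k : Type) [Field k] [CharP k p] (a : Fin (2 * g) → k), Function.Injective a →
    ∃ D : Dat g k, D.a = a ∧ D.U = Ux p a * Px a ∧ D.Ok p c ∧ ∀ i l, (D.U i l).natDegree ≤ p := by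
  refine ⟨4 * g + 4, 4 * g + 5, fun p hp hp0 k _ _ a ha => ?_⟩
  obtain ⟨h1, h2, h3⟩ := famD_spec p a hg hp hp0 ha
  exact ⟨famD p a, rfl, rfl, h1, h2⟩

end MPadcOA
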