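import Pool.Agent.Lib.MP_adc574_ag_OAP.R0
import Pool.Agent.Lib.MP_adc574_ag_OA.F3a

/-!
# Theorem A+, leaf R2: comparison with the definitions of F0
-/

set_option autoImplicit false

namespace MPadcOA

open Polynomial Matrix

variable {k : Type*} [Field k] {g : ℕ} (p : ℕ) (a : Fin (2 * g) → k)

/-- PROOF. `Polynomial.map_prod`, `map_X`, `map_C`. -/
theorem fR_C : fR (fun j => (C (a j) : k[X])) = fx a := by
  unfold fR fx ff
  rw [Polynomial.map_prod]
  refine Finset.prod_congr rfl fun j _ => ?_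
  rw [Polynomial.map_sub, map_X, map_C]

/-- PROOF. `eval_prod`. -/
theorem fR_eval_X : (fR (fun j => (C (a j) : k[X]))).eval X = ff a := by
  unfold fR ff
  rw [eval_prod]
  refine Finset.prod_congr rfl fun j _ => ?_
  rw [eval_sub, eval_X, eval_C]

/-- PROOF. Unfold. -/
theorem UR_C : UR p (X : k[X]) (fun j => C (a j)) = Ux p a := by
  unfold UR Ux AA FF FR
  rw [fR_C]

/-- PROOF. `qq_coeff`, `fR_C`: `(fx a).coeff i = C ((ff a).coeff i)` (`coeff_map`); `coeff_add`, `coeff_C_mul`. -/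
theorem GR_C : GR (C (1 / 2 : k)) (X : k[X]) (fun j => C (a j)) = Gx a := by
  have h1 : ∀ i, (fx a).coeff i = C ((ff a).coeff i) := fun i => coeff_map _ _
  funext l j
  have h2 : qR (X : k[X]) (fun j => C (a j)) (nu j) (nu l) = (qq a (nu j)).coeff (nu l) := by
    rw [qq_coeff]
    unfold qR
    rw [fR_C]
    simp only [h1]
  unfold GR Gx
  rw [h2, fR_C, coeff_add, coeff_C_mul]

/-- PROOF. Unfold: `C (((nu i : k) - nu j) / 2) = ((nu i : k[X]) - nu j) * C (1 / 2)` (`map_natCast`). -/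
theorem BR_C : BR (C (1 / 2 : k)) (X : k[X]) (fun j => C (a j)) = Bx a := by
  funext i j
  have h1 : (C (((nu i : k) - (nu j : k)) / 2) : k[X]) = ((nu i : k[X]) - (nu j : k[X])) * C (1 / 2 : k) := by
    rw [div_eq_mul_one_div, C_mul, C_sub, map_natCast, map_natCast]
  unfold BR Bx FR FF
  rw [fR_C, h1]

/-- PROOF. `BR_C`, unfold. -/
theorem PR_C : PR (C (1 / 2 : k)) (X : k[X]) (fun j => C (a j)) = Px a := by
  unfold PR Px
  rw [BR_C]

end MPadcOA
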