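import Pool.Agent.Lib.MP_adc574_ag_OAP.R1
import Pool.Agent.Lib.MP_adc574_ag_OAP.R2
import Pool.Agent.Lib.MP_adc574_ag_OA.F5

/-!
# Theorem A+, leaf R3: the twisted frame is horizontal
-/

set_option autoImplicit false

namespace MPadcOA

open Polynomial Matrix

variable {k : Type*} [Field k] {g : ℕ}

/-- Congruent polynomials have the same value and the same derivative at `α`. PROOF. `f - f' = (X - C α) ^ 2 * h`. -/
theorem eval_of_sq_dvd (α : k) (f f' : k[X]) (h : (X - C α) ^ 2 ∣ f - f') :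
    f.eval α = f'.eval α ∧ (derivative f).eval α = (derivative f').eval α := by
  obtain ⟨u, hu⟩ := h
  have h1 : f = f' + (X - C α) ^ 2 * u := by rw [← hu]; ring
  rw [h1]
  constructor
  · rw [eval_add, eval_mul, eval_pow, eval_sub, eval_X, eval_C, sub_self, zero_pow two_ne_zero,
      zero_mul, add_zero]
  · have h2 : eval α (X - C α) = 0 := by rw [eval_sub, eval_X, eval_C, sub_self]
    have h3 : (X - C α) ^ 2 * u = (X - C α) * ((X - C α) * u) := by ring
    rw [h3, derivative_add, derivative_mul, derivative_mul, eval_add, eval_add, eval_mul, eval_mul,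
      eval_mul, h2, zero_mul, mul_zero, zero_mul, add_zero, add_zero]

/-- THE TWISTED FRAME IS HORIZONTAL. PROOF. It is enough to compare the values at every `α ∈ k` (`Polynomial.funext`, `k` infinite). Let `a' j = C ((a j).eval α)`. By `congr_R` with
`P = (X - C α) ^ 2`, `UR_C`, `GR_C`, `eval_of_sq_dvd`: the value of `derivative (UR p X a κ s)`, of `UR p X a κ s` and of `GR _ X a l s` at `α` is that of `derivative (Ux p b κ s)`,
`Ux p b κ s`, `Gx b l s`, `b j = (a j).eval α`; the value of `∏ (X - a j)` at `α` is `∏ (α - b j) = (ff b).eval α`. So the identity is the value at `α` of `hor_Ux`. -/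
theorem hor_UR [Infinite k] {p : ℕ} [CharP k p] (hp : p.Prime) (hg : 0 < g) (hpg : 2 * g < p)
    (a : Fin (2 * g) → k[X]) (ha : ∀ α : k, ∀ j, (X - C α) ^ 2 ∣ a j - C ((a j).eval α)) (κ : Fin g) (s : Nx g) :
    (∏ j, (X - a j)) * derivative (UR p X a κ s) =
      (UR p X a * GR (C (1 / 2 : k)) X a) κ s := by
  refine Polynomial.funext fun α => ?_
  obtain ⟨h1, h2, -⟩ := congr_R p (C (1 / 2 : k)) X a ((X - C α) ^ 2) (fun j => C ((a j).eval α)) (ha α)
  obtain ⟨b, hb⟩ : ∃ b : Fin (2 * g) → k, b = fun j => (a j).eval α := ⟨_, rfl⟩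
  have hba : (fun j => (C ((a j).eval α) : k[X])) = fun j => C (b j) := by rw [hb]
  rw [hba] at h1 h2
  rw [UR_C] at h1
  rw [GR_C] at h2
  have h3 := congrArg (eval α) (hor_Ux p b hp hg hpg κ s)
  have h4 : eval α (∏ j, (X - a j)) = eval α (ff b) := by
    rw [ff, eval_prod, eval_prod]
    refine Finset.prod_congr rfl fun j _ => ?_
    rw [eval_sub, eval_sub, eval_C, hb]
  rw [eval_mul, h4, (eval_of_sq_dvd α _ _ (h1 κ s)).2, ← eval_mul, h3, Matrix.mul_apply, Matrix.mul_apply,
    eval_finsetSum, eval_finsetSum]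
  refine Finset.sum_congr rfl fun l _ => ?_
  rw [eval_mul, eval_mul, (eval_of_sq_dvd α _ _ (h1 κ l)).1, (eval_of_sq_dvd α _ _ (h2 l s)).1]

end MPadcOA
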