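import Pool.Agent.Lib.MP_adc574_ag_OAP.R0
import Pool.Agent.Lib.MP_adc574_ag_OA.F12a

/-!
# Theorem A+, leaf R4: the base change to symplectic coordinates is invertible
-/

set_option autoImplicit false

namespace MPadcOA

open Polynomial Matrix

variable {k : Type*} [Field k] {g : ℕ}

/-- PROOF. `monic_X_sub_C`, `Monic.mul`, `monic_prod_of_monic`, `natDegree_prod_of_monic` over the domain `k[X]`. -/
theorem FR_monic (t : k[X]) (a : Fin (2 * g) → k[X]) :
    (FR t a).Monic ∧ (FR t a).natDegree = 2 * g + 1 := by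
  have h1 : (fR a).Monic := by
    unfold fR
    exact monic_prod_of_monic _ _ fun j _ => monic_X_sub_C (a j)
  have h2 : (fR a).natDegree = 2 * g := by
    unfold fR
    rw [natDegree_prod_of_monic _ _ fun j _ => monic_X_sub_C (a j)]
    simp only [natDegree_X_sub_C, Finset.sum_const, Finset.card_univ, Fintype.card_fin, smul_eq_mul, mul_one]
  constructor
  · unfold FR
    exact (monic_X_sub_C t).mul h1
  · unfold FR
    rw [(monic_X_sub_C t).natDegree_mul h1, natDegree_X_sub_C, h2, add_comm]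

private theorem R4_zero (t : k[X]) (a : Fin (2 * g) → k[X]) (h : k[X]) {i j : Nx g}
    (hij : 2 * g ≤ nu i + nu j) : BR h t a i j = 0 := by
  unfold BR
  rw [coeff_eq_zero_of_natDegree_lt, mul_zero]
  rw [(FR_monic t a).2]
  omega

private theorem R4_unit {p : ℕ} [CharP k p] (hp2 : 2 < p) (hpg : 2 * g < p) (t : k[X])
    (a : Fin (2 * g) → k[X]) {i j : Nx g} (h : nu i + nu j + 1 = 2 * g) :
    IsUnit (BR (C (1 / 2 : k)) t a i j) := by
  have h1 : (FR t a).coeff (nu i + nu j + 2) = 1 := by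
    have h2 : nu i + nu j + 2 = (FR t a).natDegree := by
      rw [(FR_monic t a).2]
      omega
    rw [h2]
    exact (FR_monic t a).1.coeff_natDegree
  have h3 : (2 : k) ≠ 0 := by
    intro h0
    have h4 : ((2 : ℕ) : k) = 0 := by exact_mod_cast h0
    have h5 := (CharP.cast_eq_zero_iff k p 2).1 h4
    have h6 := Nat.le_of_dvd (by norm_num) h5
    omega
  have h7 : (nu i : k) - (nu j : k) ≠ 0 := by
    intro h0
    have h8 : (nu i : k) = (nu j : k) := sub_eq_zero.1 h0
    have h9 : nu i = nu j := CharP.natCast_injOn_Iio k p (Set.mem_Iio.2 (by omega)) (Set.mem_Iio.2 (by omega)) h8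
    omega
  have h10 : BR (C (1 / 2 : k)) t a i j = C (((nu i : k) - (nu j : k)) * (1 / 2)) := by
    unfold BR
    rw [h1, mul_one, C_mul, C_sub, C_eq_natCast, C_eq_natCast]
  rw [h10]
  exact Polynomial.isUnit_C.2 (isUnit_iff_ne_zero.2 (mul_ne_zero h7 (one_div_ne_zero h3)))

/-- PROOF. `Matrix.det_fromBlocks_zero₂₁`, `det_one`, `isUnit_antitri` for the lower right block: the entry at `(j, i)` is `(i - (g + j)) h F_(i + g + j + 2)`, which is zero for
`i + j ≥ g` (`FR_monic`) and for `i + j + 1 = g` it is `(2 i + 1 - 2 g) / 2`, a nonzero constant of `k` (`2 i + 1 - 2 g` is odd, between `- p` and `0`: as in F12 `Bx_unit`). -/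
theorem PR_unit {p : ℕ} [CharP k p] (hp : p.Prime) (hp2 : 2 < p) (hpg : 2 * g < p) (t : k[X])
    (a : Fin (2 * g) → k[X]) : IsUnit (PR (C (1 / 2 : k)) t a).det := by
  unfold PR
  rw [Matrix.det_fromBlocks_zero₂₁, Matrix.det_one, one_mul]
  refine isUnit_antitri _ (fun i j hij => ?_) (fun i j hij => ?_)
  · show BR (C (1 / 2 : k)) t a (Sum.inl j) (Sum.inr i) = 0
    apply R4_zero
    show 2 * g ≤ (j : ℕ) + (g + (i : ℕ))
    omega
  · show IsUnit (BR (C (1 / 2 : k)) t a (Sum.inl j) (Sum.inr i))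
    apply R4_unit hp2 hpg
    show (j : ℕ) + (g + (i : ℕ)) + 1 = 2 * g
    omega

end MPadcOA
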