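import Pool.Agent.Lib.MP_adc574_ag_OA.F0
import Pool.Agent.Lib.MP_adc574_ag_OAP.P0

/-!
# Theorem A+, block R: the system of the family `y² = (x - t) ∏ (x - a j)` over a commutative ring

The definitions of `F0` over a commutative ring `R`, with `t`, `a j`, `h` (`h = 1 / 2`) in `R`. For `R = k[X]`, `t = X`, `a j` constant and
`h = C (1 / 2)` they are the matrices of `F0` (leaf R2); for `R = k[X]`, `t = X`, `a j = X ^ (q ^ i)` or constant, they are the twisted system.
-/

set_option autoImplicit false

namespace MPadcOA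

open Polynomial Matrix

section

variable {R : Type*} [CommRing R] {g : ℕ} (p : ℕ) (h t : R) (a : Fin (2 * g) → R)

/-- `∏ (x - a j)` -/
noncomputable def fR : R[X] := ∏ j, (X - C (a j))

/-- `(x - t) ∏ (x - a j)` -/
noncomputable def FR : R[X] := (X - C t) * fR a

/-- The frame in the basis `x ^ j`. -/
noncomputable def UR : Matrix (Fin g) (Nx g) R :=
  fun κ s => (FR t a ^ ((p - 1) / 2)).coeff (p * ((κ : ℕ) + 1) - (nu s + 1))

/-- The coefficient of `x ^ l` of `(f(t) x ^ j - t ^ j f(x)) / (x - t)`. -/
noncomputable def qR (j l : ℕ) : R :=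
  if l < j then t ^ (j - l - 1) * ∑ i ∈ Finset.range (l + 1), (fR a).coeff i * t ^ i
  else -(t ^ j * ∑ i ∈ Finset.Icc (l + 1) (2 * g), (fR a).coeff i * t ^ (i - l - 1))

/-- The matrix of the system in the basis `x ^ j`. -/
noncomputable def GR : Matrix (Nx g) (Nx g) R :=
  fun l j => h * (t ^ nu j * (derivative (fR a)).coeff (nu l) + qR t a (nu j) (nu l))

/-- The matrix of the alternating form in the basis `x ^ j`. -/
noncomputable def BR : Matrix (Nx g) (Nx g) R :=
  fun i j => ((nu i : R) - (nu j : R)) * h * (FR t a).coeff (nu i + nu j + 2)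

/-- The symplectic basis. -/
noncomputable def PR : Matrix (Nx g) (Nx g) R :=
  fromBlocks 1 (Matrix.of fun j i => h * BR h t a (Sum.inl i) (Sum.inl j)) 0
    (Matrix.of fun j i => BR h t a (Sum.inl i) (Sum.inr j))

end

end MPadcOA
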