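import Pool.Agent.Lib.MP_adc574_ag_OAP.E2
import Pool.Agent.Lib.MP_adc574_ag_OAP.R0

/-!
# Theorem A+, leaf R5: the exponents of the coefficients of the twisted system
-/

set_option autoImplicit false

namespace MPadcOA

open Polynomial Matrix

variable {k : Type*} [Field k] {g q r : ℕ} (a : Fin (2 * g) → k[X])

private theorem R5_nu (s : Nx g) : nu s < 2 * g := by
  rcases s with i | i
  · have := i.2
    change (i : ℕ) < 2 * g
    omega
  · have := i.2
    change g + (i : ℕ) < 2 * g
    omega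

private theorem R5_sub {A A' : ℕ} {f h : k[X]} (hf : Sp q r A A' f) (hh : Sp q r A A' h) :
    Sp q r A A' (f - h) := by
  rw [sub_eq_add_neg]
  exact hf.add hh.neg

private theorem R5_nat (A A' n : ℕ) : Sp q r A A' ((n : ℕ) : k[X]) := by
  have h := Sp.C (k := k) (q := q) (r := r) (A := A) (A' := A') ((n : ℕ) : k)
  rwa [map_natCast] at h

private theorem R5_int (A A' : ℕ) (n : ℤ) : Sp q r A A' ((n : ℤ) : k[X]) := by
  have h := Sp.C (k := k) (q := q) (r := r) (A := A) (A' := A') ((n : ℤ) : k)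
  rwa [map_intCast] at h

private theorem R5_one (A A' : ℕ) : Sp q r A A' (1 : k[X]) := by
  have h := R5_nat (k := k) (q := q) (r := r) A A' 1
  rwa [Nat.cast_one] at h

private theorem R5_Xpow (n : ℕ) : Sp q r n 0 ((X : k[X]) ^ n) := by
  have h := (Sp.X (k := k) (q := q) (r := r) (A' := 0)).pow n
  rwa [mul_one, mul_zero] at h

private theorem R5_prod (s : Finset (Fin (2 * g))) (ha : ∀ j, Sp q r 1 1 (a j)) :
    ∀ n : ℕ, Sp q r s.card s.card ((∏ j ∈ s, (X - C (a j)) : k[X][X]).coeff n) := by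
  classical
  induction s using Finset.induction_on with
  | empty =>
    intro n
    rw [Finset.prod_empty, coeff_one]
    split_ifs
    · exact R5_one _ _
    · exact Sp.zero
  | insert j s hj ih =>
    intro n
    rw [Finset.prod_insert hj, Finset.card_insert_of_notMem hj, sub_mul, coeff_sub, coeff_C_mul, Nat.add_comm]
    refine R5_sub ?_ ((ha j).mul (ih n))
    rcases n with _ | n
    · rw [coeff_X_mul_zero]
      exact Sp.zero
    · rw [coeff_X_mul]
      exact (ih n).mono (by omega) (by omega)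

/-- PROOF. Induction over the product (`Finset.prod_induction`-like, `Finset.induction_on` for `∏ j ∈ s`): a coefficient of `P * (X - C (a j))` is `P_(n - 1) - a_j P_n`
(`mul_sub`, `coeff_mul_X`, `coeff_mul_C`); the coefficients of the product over `s` are in `Sp (s.card) (s.card)`. -/
theorem Sp_fR (ha : ∀ j, Sp q r 1 1 (a j)) (n : ℕ) : Sp q r (2 * g) (2 * g) ((fR a).coeff n) := by
  have h := R5_prod a Finset.univ ha n
  rwa [Finset.card_univ, Fintype.card_fin] at h

/-- PROOF. `FR = (X - C X) * fR`. -/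
theorem Sp_FR (ha : ∀ j, Sp q r 1 1 (a j)) (n : ℕ) :
    Sp q r (2 * g + 1) (2 * g + 1) ((FR X a).coeff n) := by
  unfold FR
  rw [sub_mul, coeff_sub, coeff_C_mul]
  refine R5_sub ?_ ?_
  · rcases n with _ | n
    · rw [coeff_X_mul_zero]
      exact Sp.zero
    · rw [coeff_X_mul]
      exact (Sp_fR a ha n).mono (by omega) (by omega)
  · exact ((Sp.X (A' := 0)).mul (Sp_fR a ha n)).mono (by omega) (by omega)

/-- PROOF. `X ^ j ∈ Sp j 0`, sums, `Sp_fR`; `nu s < 2 g`: all exponents of `X` are `≤ 4 g`. -/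
theorem Sp_GR (ha : ∀ j, Sp q r 1 1 (a j)) (l j : Nx g) :
    Sp q r (8 * g) (8 * g) (GR (C (1 / 2 : k)) X a l j) := by
  have hj := R5_nu j
  have hl := R5_nu l
  unfold GR
  refine ((Sp.C (A := 0) (A' := 0) (1 / 2 : k)).mul (B := 8 * g) (B' := 8 * g) ?_).mono (by omega) (by omega)
  refine Sp.add ?_ ?_
  · rw [coeff_derivative]
    have h1 : ((nu l : ℕ) : k[X]) + 1 = ((nu l + 1 : ℕ) : k[X]) := by push_cast; rfl
    rw [h1]
    exact ((R5_Xpow (nu j)).mul ((Sp_fR a ha (nu l + 1)).mul (R5_nat 0 0 (nu l + 1)))).mono (by omega) (by omega)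
  · unfold qR
    split_ifs with h
    · have h2 : Sp q r (2 * g + 2 * g) (2 * g) (∑ i ∈ Finset.range (nu l + 1), (fR a).coeff i * (X : k[X]) ^ i) := by
        refine Sp.sum _ _ fun i hi => ?_
        rw [Finset.mem_range] at hi
        exact ((Sp_fR a ha i).mul (R5_Xpow i)).mono (by omega) (by omega)
      exact ((R5_Xpow _).mul h2).mono (by omega) (by omega)
    · have h2 : Sp q r (2 * g + 2 * g) (2 * g)
          (∑ i ∈ Finset.Icc (nu l + 1) (2 * g), (fR a).coeff i * (X : k[X]) ^ (i - nu l - 1)) := by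
        refine Sp.sum _ _ fun i hi => ?_
        rw [Finset.mem_Icc] at hi
        exact ((Sp_fR a ha i).mul (R5_Xpow _)).mono (by omega) (by omega)
      exact ((R5_Xpow _).mul h2).neg.mono (by omega) (by omega)

/-- PROOF. A natural number is a constant (`C`); `Sp_FR`. Four blocks. -/
theorem Sp_PR (ha : ∀ j, Sp q r 1 1 (a j)) (i j : Nx g) :
    Sp q r (2 * g + 1) (2 * g + 1) (PR (C (1 / 2 : k)) X a i j) := by
  have hB : ∀ i j : Nx g, Sp q r (2 * g + 1) (2 * g + 1) (BR (C (1 / 2 : k)) X a i j) := by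
    intro i j
    unfold BR
    have h1 := ((R5_sub (R5_nat (k := k) (q := q) (r := r) 0 0 (nu i)) (R5_nat 0 0 (nu j))).mul
      (Sp.C (A := 0) (A' := 0) (1 / 2 : k))).mul (Sp_FR a ha (nu i + nu j + 2))
    exact h1.mono (by omega) (by omega)
  rcases i with i | i <;> rcases j with j | j
  · change Sp q r _ _ ((1 : Matrix (Fin g) (Fin g) k[X]) i j)
    rw [Matrix.one_apply]
    split_ifs
    · exact R5_one _ _
    · exact Sp.zero
  · change Sp q r _ _ (C (1 / 2 : k) * BR (C (1 / 2 : k)) X a (Sum.inl j) (Sum.inl i))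
    exact ((Sp.C (A := 0) (A' := 0) (1 / 2 : k)).mul (hB _ _)).mono (by omega) (by omega)
  · exact Sp.zero
  · exact hB _ _

/-- PROOF. `det_apply`: a sum over the permutations of signs (constants) times products of `2 g` entries; `Sp.sum`, `Sp.prod`. -/
theorem Sp_det {n : Type*} [Fintype n] [DecidableEq n] {c : ℕ} (P : Matrix n n k[X]) (hP : ∀ i j, Sp q r c c (P i j)) :
    Sp q r (Fintype.card n * c) (Fintype.card n * c) P.det := by
  rw [Matrix.det_apply']
  refine Sp.sum _ _ fun σ _ => ?_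
  have h1 := Sp.prod (q := q) (r := r) (A := c) (A' := c) Finset.univ (fun i => P (σ i) i) fun i _ => hP _ _
  rw [Finset.card_univ] at h1
  exact ((R5_int (k := k) (q := q) (r := r) 0 0 ((Equiv.Perm.sign σ : ℤˣ) : ℤ)).mul h1).mono (by omega) (by omega)

/-- PROOF. `P⁻¹ = (det P)⁻¹ • adjugate P` with `det P` a unit, so a constant (`Polynomial.isUnit_iff`); the entries of the adjugate are determinants of matrices with entries in `Sp c c`
(`Matrix.adjugate_apply`, `updateRow`, `Pi.single`), `Sp_det`. -/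
theorem Sp_inv {n : Type*} [Fintype n] [DecidableEq n] {c : ℕ} (P : Matrix n n k[X]) (hP : ∀ i j, Sp q r c c (P i j))
    (hu : IsUnit P.det) :
    ∃ Q : Matrix n n k[X], P * Q = 1 ∧ Q * P = 1 ∧
      ∀ i j, Sp q r (Fintype.card n * c) (Fintype.card n * c) (Q i j) := by
  obtain ⟨b, hb, hbC⟩ := Polynomial.isUnit_iff.1 hu
  have hb0 : b ≠ 0 := hb.ne_zero
  have h1 : (C b⁻¹ : k[X]) * P.det = 1 := by
    rw [← hbC, ← C_mul, inv_mul_cancel₀ hb0, C_1]
  refine ⟨(C b⁻¹ : k[X]) • P.adjugate, ?_, ?_, ?_⟩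
  · rw [Matrix.mul_smul, Matrix.mul_adjugate, smul_smul, h1, one_smul]
  · rw [Matrix.smul_mul, Matrix.adjugate_mul, smul_smul, h1, one_smul]
  · intro i j
    rw [Matrix.smul_apply, smul_eq_mul, Matrix.adjugate_apply]
    have h2 : Sp q r (Fintype.card n * c) (Fintype.card n * c) (P.updateRow j (Pi.single i 1)).det := by
      refine Sp_det _ fun i' j' => ?_
      rw [Matrix.updateRow_apply]
      split_ifs
      · by_cases h3 : j' = i
        · rw [h3, Pi.single_eq_same]
          exact R5_one _ _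
        · rw [Pi.single_eq_of_ne h3]
          exact Sp.zero
      · exact hP _ _
    exact ((Sp.C (A := 0) (A' := 0) b⁻¹).mul h2).mono (by omega) (by omega)

/-- PROOF. `∏ (X - a j)`: `Sp.prod`, `Sp.X`, `Sp.add`. -/
theorem Sp_prod (ha : ∀ j, Sp q r 1 1 (a j)) : Sp q r (2 * g) (2 * g) (∏ j, (X - a j)) := by
  have h := Sp.prod (q := q) (r := r) (A := 1) (A' := 1) Finset.univ (fun j => (X - a j : k[X]))
    fun j _ => R5_sub Sp.X (ha j)
  rwa [Finset.card_univ, Fintype.card_fin, mul_one] at h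

end MPadcOA
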