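import Pool.Agent.Lib.MP_adc574_ag_OAP.R0

/-!
# Theorem A+, leaf R6: the degree of the twisted frame
-/

set_option autoImplicit false

namespace MPadcOA

open Polynomial Matrix

variable {k : Type*} [Field k] {g : ℕ} (p : ℕ) (a : Fin (2 * g) → k[X])

private theorem R6_step {k : Type*} [Field k] {P : k[X][X]} {d : ℕ}
    (h : ∀ n, (P.coeff n).natDegree ≤ d) (b : k[X]) (n : ℕ) :
    ((P * (X - C b)).coeff n).natDegree ≤ d + b.natDegree := by
  rw [mul_sub, coeff_sub, coeff_mul_C]
  refine (natDegree_sub_le _ _).trans (max_le ?_ ?_)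
  · cases n with
    | zero =>
      rw [mul_coeff_zero, coeff_X_zero, mul_zero, natDegree_zero]
      exact Nat.zero_le _
    | succ n =>
      rw [coeff_mul_X]
      exact (h n).trans (Nat.le_add_right _ _)
  · exact natDegree_mul_le.trans (Nat.add_le_add_right (h n) _)

private theorem R6_prod {k ι : Type*} [Field k] (s : Finset ι) (b : ι → k[X]) (n : ℕ) :
    ((∏ j ∈ s, (X - C (b j))).coeff n).natDegree ≤ ∑ j ∈ s, (b j).natDegree := by
  classical
  induction s using Finset.induction_on generalizing n with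
  | empty =>
    rw [Finset.prod_empty, Finset.sum_empty, coeff_one]
    split_ifs <;> simp
  | insert j s hj ih =>
    rw [Finset.prod_insert hj, Finset.sum_insert hj, mul_comm, add_comm]
    exact R6_step ih (b j) n

private theorem R6_pow {k : Type*} [Field k] {P : k[X][X]} {d : ℕ}
    (h : ∀ n, (P.coeff n).natDegree ≤ d) (m n : ℕ) : ((P ^ m).coeff n).natDegree ≤ m * d := by
  induction m generalizing n with
  | zero =>
    rw [pow_zero, coeff_one]
    split_ifs <;> simp
  | succ m ih =>
    rw [pow_succ, coeff_mul]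
    refine natDegree_sum_le_of_forall_le _ _ fun u _ => ?_
    refine natDegree_mul_le.trans ?_
    rw [Nat.succ_mul]
    exact Nat.add_le_add (ih _) (h _)

/-- PROOF. `FR = (X - C X) * ∏ (X - C (a j))`: a coefficient of `P * (X - C b)` is `P_(n - 1) - b P_n`, so its degree is at most (the bound for `P`) `+ natDegree b`; induction over the product. -/
theorem natDegree_FR (n : ℕ) : ((FR X a).coeff n).natDegree ≤ 1 + ∑ j, (a j).natDegree := by
  unfold FR fR
  rw [mul_comm, add_comm]
  exact (R6_step (R6_prod Finset.univ a) X n).trans (Nat.add_le_add_left natDegree_X_le _)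

/-- PROOF. The coefficients of a power: as `coeff_pow_natDegree` in F2b (`coeff_mul`, induction). -/
theorem natDegree_UR (κ : Fin g) (s : Nx g) :
    (UR p X a κ s).natDegree ≤ (p - 1) / 2 * (1 + ∑ j, (a j).natDegree) := by
  unfold UR
  exact R6_pow (natDegree_FR a) _ _

private theorem R6_BR (i j : Nx g) :
    (BR (C (1 / 2 : k)) X a i j).natDegree ≤ 1 + ∑ j, (a j).natDegree := by
  unfold BR
  have h1 : (((nu i : k[X]) - (nu j : k[X])) * C (1 / 2 : k)).natDegree ≤ 0 := by
    refine natDegree_mul_le.trans ?_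
    rw [natDegree_C, add_zero]
    refine (natDegree_sub_le _ _).trans ?_
    rw [natDegree_natCast, natDegree_natCast, max_self]
  refine natDegree_mul_le.trans ?_
  have h2 := natDegree_FR a (nu i + nu j + 2)
  omega

/-- PROOF. Four blocks, `natDegree_FR`. -/
theorem natDegree_PR (i j : Nx g) :
    (PR (C (1 / 2 : k)) X a i j).natDegree ≤ 1 + ∑ j, (a j).natDegree := by
  unfold PR
  rcases i with i | i <;> rcases j with j | j
  · rw [fromBlocks_apply₁₁, Matrix.one_apply]
    split_ifs <;> simp
  · rw [fromBlocks_apply₁₂, Matrix.of_apply]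
    refine natDegree_mul_le.trans ?_
    rw [natDegree_C, zero_add]
    exact R6_BR a _ _
  · rw [fromBlocks_apply₂₁, Matrix.zero_apply, natDegree_zero]
    exact Nat.zero_le _
  · rw [fromBlocks_apply₂₂, Matrix.of_apply]
    exact R6_BR a _ _

/-- PROOF. `Matrix.mul_apply`, `(p - 1) / 2 + 1 ≤ p`. -/
theorem natDegree_UP (hp : 2 < p) (i : Fin g) (l : Nx g) :
    ((UR p X a * PR (C (1 / 2 : k)) X a) i l).natDegree ≤ p * (1 + ∑ j, (a j).natDegree) := by
  rw [Matrix.mul_apply]
  refine natDegree_sum_le_of_forall_le _ _ fun s _ => ?_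
  refine natDegree_mul_le.trans ?_
  refine (Nat.add_le_add (natDegree_UR p a i s) (natDegree_PR a s l)).trans ?_
  have h1 : (p - 1) / 2 + 1 ≤ p := by omega
  calc (p - 1) / 2 * (1 + ∑ j, (a j).natDegree) + (1 + ∑ j, (a j).natDegree)
      = ((p - 1) / 2 + 1) * (1 + ∑ j, (a j).natDegree) := by ring
    _ ≤ p * (1 + ∑ j, (a j).natDegree) := Nat.mul_le_mul_right _ h1

end MPadcOA
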