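import Pool.Agent.Lib.MP_adc574_ag_OAP.T1
import Pool.Agent.Lib.MP_adc574_ag_OAP.R3
import Pool.Agent.Lib.MP_adc574_ag_OAP.R4
import Pool.Agent.Lib.MP_adc574_ag_OAP.R5
import Pool.Agent.Lib.MP_adc574_ag_OAP.R6
import Pool.Agent.Lib.MP_adc574_ag_OAP.FamX

/-!
# Theorem A+, leaf FamP: the twisted system

PROOF. `c₁`, `p₁` from `famX`; `c = c₁ + 2 g (2 g + 1) + 20 g + 4`, `p₀ = p₁ + 2 g + 3`. `U = UR p X a * PR (C (1 / 2)) X a`, `P = PR ..`, `Q` from `Sp_inv` (with `PR_unit`, `Sp_PR`), `Δ = ∏ (X - a j)`,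
`G = Q * (GR * P + Δ • P.map derivative)`, `Bad = bad a`.
* `spD`: `Sp_prod`, `Roots.sp`, `Sp.mono`; `spG`: `Matrix.mul_apply`, `Sp.sum`, `Sp.mul`, `Sp.add`, `Sp_GR`, `Sp_PR`, `Sp.derivative`.
* `degU`: `natDegree_UP`, `Roots.natDegree_le`: `p (1 + 2 g q ^ r) ≤ (2 g + 1) q ^ (r + 1)` (`p ≤ q = p ^ n`).
* `hor`: `hor_mul` from `hor_UR` (`ha`: `Roots.dvd` and `pow_dvd_pow`, `2 ≤ p ^ n`).
* `spec`: for `α` with `Bad.eval α ≠ 0` take `D` from `famX` for `b j = (a j).eval α` (`bad_eval`), `Ok_mono`, `U' = D.U` (first case of `SpecOk`); `U i l - D.U i l` is divisible by `(X - C α) ^ q`: `congr_R` (`Roots.dvd`) for `UR`, `PR` and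
  `UR_C`, `PR_C` (`a' j = C (b j)`), then the product of matrices (`x y - x' y' = (x - x') y + x' (y - y')`, sums). `D.Δ = ∏ (X - C (b j))`.
* `iso`: `iso_of_spec` with `D.isoU`.
-/

set_option autoImplicit false

namespace MPadcOA

open Polynomial Matrix

private theorem FamP_dvd {R m n l : Type*} [CommRing R] [Fintype n] (P : R) (A A' : Matrix m n R)
    (B B' : Matrix n l R) (hA : ∀ i j, P ∣ A i j - A' i j) (hB : ∀ i j, P ∣ B i j - B' i j) (i : m) (j : l) :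
    P ∣ (A * B) i j - (A' * B') i j := by
  rw [Matrix.mul_apply, Matrix.mul_apply, ← Finset.sum_sub_distrib]
  refine Finset.dvd_sum fun x _ => ?_
  have e : A i x * B x j - A' i x * B' x j = (A i x - A' i x) * B x j + A' i x * (B x j - B' x j) := by ring
  rw [e]
  exact dvd_add (Dvd.dvd.mul_right (hA i x) _) (Dvd.dvd.mul_left (hB x j) _)

theorem famP (g : ℕ) (hg : 0 < g) : ∃ c p₀ : ℕ, ∀ p : ℕ, p.Prime → p₀ ≤ p →
    ∀ (k : Type) [Field k] [CharP k p] [Infinite k] (n : ℕ), 0 < n → ∀ (r : ℕ) (a : Fin (2 * g) → k[X]),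
    Function.Injective a → Roots (p ^ n) r a →
    ∃ (G : Matrix (Nx g) (Nx g) k[X]) (Bad : k[X]),
      Tw p (p ^ n) r c (∏ j, (X - a j)) G (UR p X a * PR (C (1 / 2 : k)) X a) Bad := by
  obtain ⟨c₁, p₁, hD⟩ := famX g hg
  refine ⟨c₁ + 2 * g * (2 * g + 1) + 20 * g + 4, p₁ + 2 * g + 3, ?_⟩
  intro p hp hpp k _ _ _ n hn r a hinj ha
  have hF : Fact p.Prime := ⟨hp⟩
  have hp2 : 2 < p := by omega
  have hpg : 2 * g < p := by omega
  have hpq : p ≤ p ^ n := Nat.le_self_pow hn.ne' p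
  have hq1 : 1 < p ^ n := by omega
  have hq2 : 2 ≤ p ^ n := by omega
  have hsp := fun j => Roots.sp ha j
  obtain ⟨Q, hPQ, hQP, hQ⟩ := Sp_inv (PR (C (1 / 2 : k)) X a) (Sp_PR a hsp) (PR_unit hp hp2 hpg X a)
  have hcard : Fintype.card (Nx g) = 2 * g := by
    show Fintype.card (Fin g ⊕ Fin g) = 2 * g
    rw [Fintype.card_sum, Fintype.card_fin]
    ring
  rw [hcard] at hQ
  have hspec : ∀ α : k, (bad a).eval α ≠ 0 → ∃ D : Dat g k, D.Ok p c₁ ∧ D.Δ.eval α ≠ 0 ∧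
      ∀ i l, (X - C α) ^ (p ^ n) ∣ (UR p X a * PR (C (1 / 2 : k)) X a) i l - D.U i l := by
    intro α hα
    obtain ⟨h1, h2⟩ := bad_eval hα
    obtain ⟨D, hDa, hDU, hDO, _⟩ := hD p hp (by omega) k (fun j => (a j).eval α) h1
    refine ⟨D, hDO, ?_, fun i l => ?_⟩
    · have h3 : D.Δ = ∏ j, (X - C ((a j).eval α)) := by
        show ∏ j, (X - C (D.a j)) = _
        rw [hDa]
      rw [h3]
      exact h2
    · obtain ⟨h4, -, h5⟩ := congr_R p (C (1 / 2 : k)) X a ((X - C α) ^ (p ^ n)) (fun j => C ((a j).eval α))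
        (fun j => Roots.dvd hn ha α j)
      rw [UR_C] at h4
      rw [PR_C] at h5
      rw [hDU]
      exact FamP_dvd _ _ _ _ _ h4 h5 i l
  refine ⟨Q * (GR (C (1 / 2 : k)) X a * PR (C (1 / 2 : k)) X a +
    (∏ j, (X - a j)) • (PR (C (1 / 2 : k)) X a).map derivative), bad a, ?_⟩
  refine ⟨bad_ne_zero hq1 ha hinj, (Sp_prod a hsp).mono (by nlinarith) (by nlinarith), fun i j => ?_,
    fun i l => ?_, fun i l => ?_, ?_, fun α hα => ?_⟩
  · rw [Matrix.mul_apply]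
    refine Sp.sum _ _ fun x _ => ?_
    have h1 : Sp (p ^ n) r (10 * g + 1) (10 * g + 1) ((GR (C (1 / 2 : k)) X a * PR (C (1 / 2 : k)) X a +
        (∏ j, (X - a j)) • (PR (C (1 / 2 : k)) X a).map derivative) x j) := by
      rw [Matrix.add_apply]
      refine Sp.add ?_ ?_
      · rw [Matrix.mul_apply]
        refine Sp.sum _ _ fun y _ => ?_
        exact ((Sp_GR a hsp x y).mul (Sp_PR a hsp y j)).mono (by omega) (by omega)
      · rw [Matrix.smul_apply, Matrix.map_apply, smul_eq_mul]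
        exact ((Sp_prod a hsp).mul ((Sp_PR a hsp x j).derivative (dvd_pow_self p hn.ne'))).mono
          (by omega) (by omega)
    exact ((hQ i x).mul h1).mono (by omega) (by omega)
  · refine (natDegree_UP p a hp2 i l).trans ?_
    have h1 : ∑ j, (a j).natDegree ≤ 2 * g * (p ^ n) ^ r := by
      refine (Finset.sum_le_card_nsmul _ _ _ fun j _ => Roots.natDegree_le (by omega) ha j).trans ?_
      rw [Finset.card_univ, Fintype.card_fin, smul_eq_mul]
    have h2 : 1 ≤ (p ^ n) ^ r := Nat.one_le_pow _ _ (by omega)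
    calc p * (1 + ∑ j, (a j).natDegree) ≤ p ^ n * ((1 + 2 * g) * (p ^ n) ^ r) := by
          refine Nat.mul_le_mul hpq ?_
          nlinarith
      _ = (1 + 2 * g) * (p ^ n) ^ (r + 1) := by ring
      _ ≤ _ := Nat.mul_le_mul_right _ (by nlinarith)
  · exact hor_mul _ _ _ _ _ hPQ (fun i l => hor_UR hp hg hpg a
      (fun α j => (pow_dvd_pow _ hq2).trans (Roots.dvd hn ha α j)) i l) i l
  · refine iso_of_spec (q := p ^ n) (by omega) _ (bad a) (bad_ne_zero hq1 ha hinj) fun α hα => ?_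
    obtain ⟨D, h1, -, h2⟩ := hspec α hα
    exact ⟨D.U, h1.isoU, h2⟩
  · obtain ⟨D, h1, h3, h2⟩ := hspec α hα
    exact ⟨D.U, Or.inl ⟨D, Ok_mono (by nlinarith) D h1, h3, rfl⟩, h2⟩

end MPadcOA
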