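import Pool.Agent.Lib.MP_adc574_ag_OAP.R1
import Pool.Agent.Lib.MP_adc574_ag_CC.PDefs

/-!
# Theorem A+, leaf R7: the first columns of the twisted frame are the Hasse-Witt matrix
-/

set_option autoImplicit false

namespace MPadcOA

open Polynomial Matrix MPadcCC

variable {k : Type*} [Field k] {g : ℕ} (p : ℕ) (a : Fin (2 * g) → k[X])

/-- PROOF. The first `g` columns of `PR` are those of the identity (`fromBlocks`), so `fst (UR * PR) = fst UR`; the value at `α` is `UR_map` for `evalRingHom α`; `FR` at the constants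
is `(X - C α) * ∏ ..` and `p (κ + 1) - (nu (inl i) + 1) = p (κ + 1) - (i + 1)`: definition of `hw`. -/
theorem fst_UP (α : k) :
    fst ((UR p X a * PR (C (1 / 2 : k)) X a).map (eval α)) =
      hw p (g + 1) (((X - C α) * ∏ j, (X - C ((a j).eval α))) ^ ((p - 1) / 2)) := by
  ext κ i
  have h1 : ((UR p X a : Matrix (Fin g) (Nx g) k[X]) * PR (C (1 / 2 : k)) X a) κ (Sum.inl i) =
      UR p X a κ (Sum.inl i) := by
    rw [Matrix.mul_apply, Fintype.sum_sum_type]
    have e1 : ∀ j : Fin g, PR (C (1 / 2 : k)) X a (Sum.inl j) (Sum.inl i) =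
        (1 : Matrix (Fin g) (Fin g) k[X]) j i := fun j => rfl
    have e2 : ∀ j : Fin g, PR (C (1 / 2 : k)) X a (Sum.inr j) (Sum.inl i) = 0 := fun j => rfl
    simp only [e1, e2, mul_zero, Finset.sum_const_zero, add_zero, Matrix.one_apply, mul_ite, mul_one,
      Finset.sum_ite_eq', Finset.mem_univ, if_true]
  have h2 := UR_map (evalRingHom α) p X a κ (Sum.inl i)
  rw [coe_evalRingHom, eval_X] at h2
  have h3 : fst ((UR p X a * PR (C (1 / 2 : k)) X a).map (eval α)) κ i =
      eval α ((UR p X a * PR (C (1 / 2 : k)) X a) κ (Sum.inl i)) := rfl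
  rw [h3, h1, h2]
  rfl

end MPadcOA
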