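import Pool.Agent.Lib.MP_adc574_ag_OAP.CntP
import Pool.Agent.Lib.MP_adc574_ag_OAP.FamP
import Pool.Agent.Lib.MP_adc574_ag_OAP.R7

/-!
# Theorem A+, leaf CntF: the count for the moving roots `τ ^ (q ^ i)` and fixed roots `b i`

PROOF. `c`, `p₁` from `famP g`, `p₂` from `countP g c r`. Let `a j = Fin.addCases (fun i : Fin r => X ^ (q ^ (i + 1))) (fun i : Fin s => C (b i)) (Fin.cast hrs.symm j)`, `q = p ^ n`.
`a` is injective: the degrees `q ^ (i + 1)` are different and positive, `b` is injective (`Fin.addCases` cases). `Roots q r a`. Products over `Fin (2 * g)`: `finCongr hrs`, `Fin.prod_univ_add`, `Fin.addCases_left`, `Fin.addCases_right`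
(it may be convenient to `subst`: generalize `2 * g = N` first, or prove a lemma for `Fin (r + s)`).
`countP` for `Z`: `Δ.eval τ = ∏_(i < r) (τ - τ ^ (q ^ (i + 1))) * ∏ (τ - b i) ≠ 0`; the determinant: `fst_UP` and
`(X - C τ) * ∏ j, (X - C ((a j).eval τ)) = (∏ i ∈ range (r + 1), (X - C (τ ^ (q ^ i)))) * ∏ i, (X - C (b i))` (`Finset.prod_range_succ'`, `pow_zero`, `Finset.prod_range`).
-/

set_option autoImplicit false

namespace MPadcOA

open Polynomial Matrix MPadcCC

private theorem CntF_prod {β M : Type*} [CommMonoid M] {r s N : ℕ} (hrs : r + s = N) (u : Fin r → β) (v : Fin s → β)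
    (φ : β → M) : ∏ j : Fin N, φ (Fin.append u v (Fin.cast hrs.symm j)) = (∏ i, φ (u i)) * ∏ i, φ (v i) := by
  subst hrs
  simp [Fin.prod_univ_add]

private theorem CntF_cases {β : Type*} {r s N : ℕ} (hrs : r + s = N) (u : Fin r → β) (v : Fin s → β) (j : Fin N) :
    (∃ i, Fin.append u v (Fin.cast hrs.symm j) = u i) ∨ ∃ i, Fin.append u v (Fin.cast hrs.symm j) = v i := by
  subst hrs
  refine Fin.addCases (fun i => ?_) (fun i => ?_) j
  · exact Or.inl ⟨i, by simp⟩
  · exact Or.inr ⟨i, by simp⟩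

private theorem CntF_inj {β : Type*} {r s N : ℕ} (hrs : r + s = N) (u : Fin r → β) (v : Fin s → β)
    (hu : Function.Injective u) (hv : Function.Injective v) (huv : ∀ i j, u i ≠ v j) :
    Function.Injective fun j : Fin N => Fin.append u v (Fin.cast hrs.symm j) := by
  subst hrs
  intro i j h
  revert h
  refine Fin.addCases (fun i => ?_) (fun i => ?_) i <;> refine Fin.addCases (fun j => ?_) (fun j => ?_) j
  · intro h
    simp only [Fin.cast_eq_self, Fin.append_left] at h
    rw [hu h]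
  · intro h
    simp only [Fin.cast_eq_self, Fin.append_left, Fin.append_right] at h
    exact absurd h (huv i j)
  · intro h
    simp only [Fin.cast_eq_self, Fin.append_left, Fin.append_right] at h
    exact absurd h.symm (huv j i)
  · intro h
    simp only [Fin.cast_eq_self, Fin.append_right] at h
    rw [hv h]

theorem countF (g r s : ℕ) (hg : 0 < g) (hrs : r + s = 2 * g) (ε : ℝ) (hε : 0 < ε) :
    ∃ p₀ : ℕ, ∀ p : ℕ, p.Prime → p₀ ≤ p →
    ∀ (k : Type) [Field k] [CharP k p] [Infinite k] (n : ℕ), 0 < n → ∀ b : Fin s → k, Function.Injective b →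
    ∀ Z : Finset k,
    (∀ τ ∈ Z, τ ^ (p ^ n) ^ (r + 1) = τ ∧ (∀ i < r, τ ^ (p ^ n) ^ (i + 1) ≠ τ) ∧ (∀ i, b i ≠ τ) ∧
      (hw p (g + 1) (((∏ i ∈ Finset.range (r + 1), (X - C (τ ^ (p ^ n) ^ i))) *
        ∏ i, (X - C (b i))) ^ ((p - 1) / 2))).det = 0) →
    (Z.card : ℝ) ≤ ε * ((p : ℝ) ^ n) ^ (r + 1) := by
  obtain ⟨c, p₁, hfam⟩ := famP g hg
  obtain ⟨p₂, hcount⟩ := countP g c r hg ε hε
  refine ⟨max p₁ p₂, fun p hp hp0 k _ _ _ n hn b hb Z hZ => ?_⟩
  have hq : 1 < p ^ n := Nat.one_lt_pow hn.ne' hp.one_lt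
  obtain ⟨u, hu⟩ : ∃ u : Fin r → k[X], u = fun i : Fin r => X ^ ((p ^ n) ^ ((i : ℕ) + 1)) := ⟨_, rfl⟩
  obtain ⟨v, hv⟩ : ∃ v : Fin s → k[X], v = fun i : Fin s => C (b i) := ⟨_, rfl⟩
  obtain ⟨a, ha⟩ : ∃ a : Fin (2 * g) → k[X], a = fun j => Fin.append u v (Fin.cast hrs.symm j) := ⟨_, rfl⟩
  have hinj : Function.Injective a := by
    rw [ha]
    refine CntF_inj hrs u v ?_ ?_ ?_
    · intro i j h
      rw [hu] at h
      have h1 := congrArg natDegree h
      simp only [natDegree_X_pow] at h1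
      have h2 := Nat.pow_right_injective hq h1
      exact Fin.ext (by simpa using h2)
    · intro i j h
      rw [hv] at h
      exact hb (C_injective h)
    · intro i j h
      rw [hu, hv] at h
      have h1 := congrArg natDegree h
      simp only [natDegree_X_pow, natDegree_C] at h1
      exact absurd h1 (by positivity)
  have hroots : Roots (p ^ n) r a := by
    intro j
    rw [ha]
    rcases CntF_cases hrs u v j with ⟨i, hi⟩ | ⟨i, hi⟩
    · right
      refine ⟨i, ?_⟩
      change Fin.append u v (Fin.cast hrs.symm j) = _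
      rw [hi, hu]
    · left
      refine ⟨b i, ?_⟩
      change Fin.append u v (Fin.cast hrs.symm j) = _
      rw [hi, hv]
  obtain ⟨G, Bad, hTw⟩ := hfam p hp ((le_max_left _ _).trans hp0) k n hn r a hinj hroots
  refine hcount p hp ((le_max_right _ _).trans hp0) k n hn _ G _ Bad hTw Z fun τ hτ => ?_
  obtain ⟨h1, h2, h3, h4⟩ := hZ τ hτ
  refine ⟨h1, ?_, ?_⟩
  · rw [eval_prod, Finset.prod_ne_zero_iff]
    intro j _
    rw [eval_sub, eval_X, ha]
    change τ - (Fin.append u v (Fin.cast hrs.symm j)).eval τ ≠ 0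
    rcases CntF_cases hrs u v j with ⟨i, hi⟩ | ⟨i, hi⟩
    · rw [hi, hu]
      simp only [eval_pow, eval_X]
      exact sub_ne_zero.2 (h2 i i.2).symm
    · rw [hi, hv]
      simp only [eval_C]
      exact sub_ne_zero.2 (h3 i).symm
  · have h5 := fst_UP p a τ
    have h6 : ∏ j, (X - C ((a j).eval τ)) = (∏ i : Fin r, (X - C ((u i).eval τ))) * ∏ i : Fin s, (X - C ((v i).eval τ)) := by
      rw [ha]
      exact CntF_prod hrs u v fun f => X - C (f.eval τ)
    have h7 : (X - C τ) * ∏ j, (X - C ((a j).eval τ)) =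
        (∏ i ∈ Finset.range (r + 1), (X - C (τ ^ (p ^ n) ^ i))) * ∏ i, (X - C (b i)) := by
      rw [h6, Finset.prod_range_succ', pow_zero, pow_one, Finset.prod_range, hu, hv]
      simp only [eval_pow, eval_X, eval_C]
      ring
    rw [h7] at h5
    exact (congrArg Matrix.det h5).trans h4

end MPadcOA
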