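import Pool.Agent.Lib.MP_adc574_ag_OAP.P0

/-!
# Theorem A+, leaf E1: the exponents (combinatorics of base `q` digits)

Everything by `Finset.mem_image`, `Finset.mem_product`, `Fintype.mem_piFinset`, `Finset.mem_range`.
-/

set_option autoImplicit false

namespace MPadcOA

/-- PROOF. Definition. -/
theorem mem_EE {q r A A' n : ℕ} : n ∈ EE q r A A' ↔
    ∃ (j : ℕ) (x : Fin r → ℕ), j ≤ A ∧ (∀ i, x i ≤ A') ∧ n = j + q * ∑ i : Fin r, x i * q ^ (i : ℕ) := by
  unfold EE
  rw [Finset.mem_image]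
  constructor
  · rintro ⟨⟨j, x⟩, hx, rfl⟩
    rw [Finset.mem_product, Fintype.mem_piFinset] at hx
    exact ⟨j, x, Nat.lt_succ_iff.1 (Finset.mem_range.1 hx.1),
      fun i => Nat.lt_succ_iff.1 (Finset.mem_range.1 (hx.2 i)), rfl⟩
  · rintro ⟨j, x, hj, hx, rfl⟩
    exact ⟨(j, x), Finset.mem_product.2 ⟨Finset.mem_range.2 (Nat.lt_succ_iff.2 hj),
      Fintype.mem_piFinset.2 fun i => Finset.mem_range.2 (Nat.lt_succ_iff.2 (hx i))⟩, rfl⟩

/-- PROOF. `Finset.card_image_le`, `Finset.card_product`, `Fintype.card_piFinset`. -/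
theorem card_EE_le (q r A A' : ℕ) : (EE q r A A').card ≤ (A + 1) * (A' + 1) ^ r := by
  unfold EE
  refine Finset.card_image_le.trans (le_of_eq ?_)
  rw [Finset.card_product, Fintype.card_piFinset_const, Finset.card_range, Finset.card_range]

/-- A sum of digits is smaller than `q ^ r`. PROOF. `Nat.ofDigits`-free induction on `r` (`Fin.sum_univ_castSucc`): for digits `≤ q - 1`, the sum is at most `q ^ r - 1`. -/
theorem digits_lt {q r : ℕ} (hq : 0 < q) (x : Fin r → ℕ) (hx : ∀ i, x i < q) :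
    ∑ i : Fin r, x i * q ^ (i : ℕ) < q ^ r := by
  induction r with
  | zero =>
    rw [Fin.sum_univ_zero, pow_zero]
    exact Nat.one_pos
  | succ r ih =>
    rw [Fin.sum_univ_castSucc]
    have h1 : ∑ i : Fin r, x i.castSucc * q ^ (i : ℕ) < q ^ r := ih (fun i => x i.castSucc) fun i => hx _
    have h2 : (x (Fin.last r) + 1) * q ^ r ≤ q * q ^ r := Nat.mul_le_mul_right _ (hx (Fin.last r))
    rw [Nat.add_mul, Nat.one_mul] at h2
    rw [pow_succ, Nat.mul_comm (q ^ r) q]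
    exact lt_of_lt_of_le (Nat.add_lt_add_right h1 _) (by rw [Nat.add_comm]; exact h2)

/-- Digits are determined. PROOF. Induction on `r` (`Fin.sum_univ_castSucc`: the last digit is the quotient by `q ^ r`, by `digits_lt`; or `Fin.sum_univ_succ`: the first digit is the remainder modulo `q`). -/
theorem digits_inj {q r : ℕ} (hq : 0 < q) (x y : Fin r → ℕ) (hx : ∀ i, x i < q) (hy : ∀ i, y i < q)
    (h : ∑ i : Fin r, x i * q ^ (i : ℕ) = ∑ i : Fin r, y i * q ^ (i : ℕ)) : x = y := by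
  induction r with
  | zero => exact funext fun i => i.elim0
  | succ r ih =>
    rw [Fin.sum_univ_castSucc, Fin.sum_univ_castSucc] at h
    have hx1 : ∑ i : Fin r, x i.castSucc * q ^ (i : ℕ) < q ^ r := digits_lt hq (fun i => x i.castSucc) fun i => hx _
    have hy1 : ∑ i : Fin r, y i.castSucc * q ^ (i : ℕ) < q ^ r := digits_lt hq (fun i => y i.castSucc) fun i => hy _
    have h' : ∑ i : Fin r, x i.castSucc * q ^ (i : ℕ) + x (Fin.last r) * q ^ r =
        ∑ i : Fin r, y i.castSucc * q ^ (i : ℕ) + y (Fin.last r) * q ^ r := h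
    have hl : x (Fin.last r) = y (Fin.last r) := by
      have h1 := congrArg (fun t => t / q ^ r) h'
      have hp : 0 < q ^ r := Nat.pow_pos hq
      simp only [Nat.add_mul_div_right _ _ hp, Nat.div_eq_of_lt hx1, Nat.div_eq_of_lt hy1, Nat.zero_add] at h1
      exact h1
    rw [hl] at h'
    have hs := Nat.add_right_cancel h'
    have hi := ih (fun i => x i.castSucc) (fun i => y i.castSucc) (fun i => hx _) (fun i => hy _) hs
    funext i
    refine Fin.lastCases ?_ (fun j => ?_) i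
    · exact hl
    · exact congrFun hi j

/-- PROOF. `Finset.card_image_of_injOn`: `j₀` is the remainder modulo `q`, `digits_inj` for the quotient. -/
theorem card_EE {q r A A' : ℕ} (hA : A < q) (hA' : A' < q) :
    (EE q r A A').card = (A + 1) * (A' + 1) ^ r := by
  unfold EE
  rw [Finset.card_image_of_injOn, Finset.card_product, Fintype.card_piFinset_const, Finset.card_range,
    Finset.card_range]
  rintro ⟨j, x⟩ hx ⟨l, y⟩ hy h
  have hq : 0 < q := lt_of_le_of_lt (Nat.zero_le _) hA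
  rw [Finset.mem_coe, Finset.mem_product, Fintype.mem_piFinset] at hx hy
  have hj : j < q := lt_of_le_of_lt (Nat.lt_succ_iff.1 (Finset.mem_range.1 hx.1)) hA
  have hl : l < q := lt_of_le_of_lt (Nat.lt_succ_iff.1 (Finset.mem_range.1 hy.1)) hA
  have hx' : ∀ i, x i < q := fun i => lt_of_le_of_lt (Nat.lt_succ_iff.1 (Finset.mem_range.1 (hx.2 i))) hA'
  have hy' : ∀ i, y i < q := fun i => lt_of_le_of_lt (Nat.lt_succ_iff.1 (Finset.mem_range.1 (hy.2 i))) hA'
  have h' : j + q * ∑ i : Fin r, x i * q ^ (i : ℕ) = l + q * ∑ i : Fin r, y i * q ^ (i : ℕ) := h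
  have hjl : j = l := by
    have h1 := congrArg (fun t => t % q) h'
    simp only [Nat.add_mul_mod_self_left, Nat.mod_eq_of_lt hj, Nat.mod_eq_of_lt hl] at h1
    exact h1
  subst hjl
  have h2 := Nat.eq_of_mul_eq_mul_left hq (Nat.add_left_cancel h')
  rw [digits_inj hq x y hx' hy' h2]

theorem EE_add {q r A A' B B' n m : ℕ} (hn : n ∈ EE q r A A') (hm : m ∈ EE q r B B') :
    n + m ∈ EE q r (A + B) (A' + B') := by
  obtain ⟨j, x, hj, hx, rfl⟩ := mem_EE.1 hn
  obtain ⟨l, y, hl, hy, rfl⟩ := mem_EE.1 hm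
  refine mem_EE.2 ⟨j + l, fun i => x i + y i, Nat.add_le_add hj hl, fun i => Nat.add_le_add (hx i) (hy i), ?_⟩
  simp only [add_mul, Finset.sum_add_distrib]
  ring

theorem EE_mono {q r A A' B B' n : ℕ} (hA : A ≤ B) (hA' : A' ≤ B') (hn : n ∈ EE q r A A') :
    n ∈ EE q r B B' := by
  obtain ⟨j, x, hj, hx, rfl⟩ := mem_EE.1 hn
  exact mem_EE.2 ⟨j, x, hj.trans hA, fun i => (hx i).trans hA', rfl⟩

/-- PROOF. `j₀ = 0`, digits zero. -/
theorem zero_mem_EE (q r A A' : ℕ) : 0 ∈ EE q r A A' := by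
  refine mem_EE.2 ⟨0, fun _ => 0, Nat.zero_le _, fun _ => Nat.zero_le _, ?_⟩
  simp only [zero_mul, Finset.sum_const_zero, mul_zero, add_zero]

/-- PROOF. `j₀ = 1`, digits zero. -/
theorem one_mem_EE (q r A' : ℕ) : 1 ∈ EE q r 1 A' := by
  refine mem_EE.2 ⟨1, fun _ => 0, le_refl _, fun _ => Nat.zero_le _, ?_⟩
  simp only [zero_mul, Finset.sum_const_zero, mul_zero, add_zero]

/-- PROOF. `j₀ = 0`, the digits `Pi.single i 1` (`pow_succ`). -/
theorem pow_mem_EE (q r : ℕ) (A : ℕ) (i : Fin r) : q ^ ((i : ℕ) + 1) ∈ EE q r A 1 := by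
  refine mem_EE.2 ⟨0, fun l => if l = i then 1 else 0, Nat.zero_le _, fun l => ?_, ?_⟩
  · show (if l = i then 1 else 0) ≤ 1
    by_cases h : l = i
    · rw [if_pos h]
    · rw [if_neg h]
      exact Nat.zero_le _
  · simp only [ite_mul, one_mul, zero_mul, Finset.sum_ite_eq', Finset.mem_univ, if_true]
    rw [zero_add, pow_succ, mul_comm]

/-- PROOF. `q` does not divide `n + 1`, so `j₀ ≥ 1`. -/
theorem pred_mem_EE {q r A A' n : ℕ} (hn : n + 1 ∈ EE q r A A') (hq : ¬ q ∣ n + 1) : n ∈ EE q r A A' := by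
  obtain ⟨j, x, hj, hx, h⟩ := mem_EE.1 hn
  have hj0 : j ≠ 0 := by
    rintro rfl
    exact hq ⟨_, h.trans (Nat.zero_add _)⟩
  exact mem_EE.2 ⟨j - 1, x, (Nat.sub_le _ _).trans hj, hx, by omega⟩

/-- PROOF. `j₀ < q` is the remainder. -/
theorem mod_le_of_mem_EE {q r A A' n : ℕ} (hA : A < q) (hn : n ∈ EE q r A A') : n % q ≤ A := by
  obtain ⟨j, x, hj, _, rfl⟩ := mem_EE.1 hn
  rw [Nat.add_mul_mod_self_left, Nat.mod_eq_of_lt (lt_of_le_of_lt hj hA)]
  exact hj

/-- PROOF. `digits_lt` for the `r + 1` digits (`j₀`, then the others): `n < q * q ^ r`. -/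
theorem lt_of_mem_EE {q r A A' n : ℕ} (hA : A < q) (hA' : A' < q) (hn : n ∈ EE q r A A') :
    n < q ^ (r + 1) := by
  obtain ⟨j, x, hj, hx, rfl⟩ := mem_EE.1 hn
  have hq : 0 < q := lt_of_le_of_lt (Nat.zero_le _) hA
  have h1 := digits_lt (r := r) hq x fun i => lt_of_le_of_lt (hx i) hA'
  have h2 : q * (∑ i : Fin r, x i * q ^ (i : ℕ) + 1) ≤ q * q ^ r := Nat.mul_le_mul_left _ h1
  rw [Nat.mul_add, Nat.mul_one] at h2
  rw [pow_succ, Nat.mul_comm (q ^ r) q]
  have h3 : j < q := lt_of_le_of_lt hj hA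
  omega

end MPadcOA
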