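import Pool.Agent.Lib.MP_adc574_ag_OAP.E1

/-!
# Theorem A+, leaf E2: polynomials with few exponents
-/

set_option autoImplicit false

namespace MPadcOA

open Polynomial

variable {k : Type*} [Field k] {q r A A' B B' : ℕ} {f h : k[X]}

theorem Sp.mono (hf : Sp q r A A' f) (hA : A ≤ B) (hA' : A' ≤ B') : Sp q r B B' f := by
  intro n hn
  exact EE_mono hA hA' (hf n hn)

theorem Sp.zero : Sp q r A A' (0 : k[X]) := by
  intro n hn
  exact absurd (Polynomial.coeff_zero n) hn

theorem Sp.add (hf : Sp q r A A' f) (hh : Sp q r A A' h) : Sp q r A A' (f + h) := by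
  intro n hn
  by_cases h1 : f.coeff n = 0
  · refine hh n fun h2 => hn ?_
    rw [Polynomial.coeff_add, h1, h2, add_zero]
  · exact hf n h1

theorem Sp.neg (hf : Sp q r A A' f) : Sp q r A A' (-f) := by
  intro n hn
  refine hf n fun h1 => hn ?_
  rw [Polynomial.coeff_neg, h1, neg_zero]

/-- PROOF. `coeff_mul`: a nonzero coefficient of the product has a nonzero term in the sum over the antidiagonal (`Finset.exists_ne_zero_of_sum_ne_zero`); `EE_add`. -/
theorem Sp.mul (hf : Sp q r A A' f) (hh : Sp q r B B' h) : Sp q r (A + B) (A' + B') (f * h) := by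
  intro n hn
  rw [Polynomial.coeff_mul] at hn
  obtain ⟨x, hx, hx2⟩ := Finset.exists_ne_zero_of_sum_ne_zero hn
  rw [Finset.HasAntidiagonal.mem_antidiagonal] at hx
  rw [← hx]
  exact EE_add (hf _ (left_ne_zero_of_mul hx2)) (hh _ (right_ne_zero_of_mul hx2))

theorem Sp.C (b : k) : Sp q r A A' (Polynomial.C b) := by
  intro n hn
  rw [Polynomial.coeff_C] at hn
  by_cases h1 : n = 0
  · rw [h1]
    exact zero_mem_EE q r A A'
  · rw [if_neg h1] at hn
    exact absurd rfl hn

theorem Sp.X : Sp q r 1 A' (Polynomial.X : k[X]) := by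
  intro n hn
  rw [Polynomial.coeff_X] at hn
  by_cases h1 : 1 = n
  · rw [← h1]
    exact one_mem_EE q r A'
  · rw [if_neg h1] at hn
    exact absurd rfl hn

theorem Sp.Xq (i : Fin r) : Sp q r A 1 ((Polynomial.X : k[X]) ^ (q ^ ((i : ℕ) + 1))) := by
  intro n hn
  rw [Polynomial.coeff_X_pow] at hn
  by_cases h1 : n = q ^ ((i : ℕ) + 1)
  · rw [h1]
    exact pow_mem_EE q r A i
  · rw [if_neg h1] at hn
    exact absurd rfl hn

theorem Sp.pow (hf : Sp q r A A' f) (n : ℕ) : Sp q r (n * A) (n * A') (f ^ n) := by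
  induction n with
  | zero =>
    rw [pow_zero, ← Polynomial.C_1]
    exact Sp.C 1
  | succ n ih =>
    rw [pow_succ]
    exact (ih.mul hf).mono (le_of_eq (by ring)) (le_of_eq (by ring))

theorem Sp.sum {ι : Type*} (s : Finset ι) (F : ι → k[X]) (hF : ∀ i ∈ s, Sp q r A A' (F i)) :
    Sp q r A A' (∑ i ∈ s, F i) := by
  classical
  induction s using Finset.induction_on with
  | empty =>
    rw [Finset.sum_empty]
    exact Sp.zero
  | insert a s ha ih =>
    rw [Finset.sum_insert ha]
    exact (hF a (Finset.mem_insert_self a s)).add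
      (ih fun i hi => hF i (Finset.mem_insert_of_mem hi))

theorem Sp.prod {ι : Type*} (s : Finset ι) (F : ι → k[X]) (hF : ∀ i ∈ s, Sp q r A A' (F i)) :
    Sp q r (s.card * A) (s.card * A') (∏ i ∈ s, F i) := by
  classical
  induction s using Finset.induction_on with
  | empty =>
    rw [Finset.prod_empty, ← Polynomial.C_1]
    exact Sp.C 1
  | insert a s ha ih =>
    rw [Finset.prod_insert ha, Finset.card_insert_of_notMem ha]
    exact ((hF a (Finset.mem_insert_self a s)).mul
      (ih fun i hi => hF i (Finset.mem_insert_of_mem hi))).mono (le_of_eq (by ring))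
      (le_of_eq (by ring))

/-- PROOF. `coeff_derivative`: if it is not zero then `(n + 1 : k) ≠ 0`, so `p` and `q` do not divide `n + 1`; `pred_mem_EE`. -/
theorem Sp.derivative {p : ℕ} [CharP k p] (hpq : p ∣ q) (hf : Sp q r A A' f) :
    Sp q r A A' (Polynomial.derivative f) := by
  intro n hn
  rw [Polynomial.coeff_derivative] at hn
  refine pred_mem_EE (hf _ (left_ne_zero_of_mul hn)) fun h1 => right_ne_zero_of_mul hn ?_
  have h2 := (CharP.cast_eq_zero_iff k p (n + 1)).2 (hpq.trans h1)
  rw [Nat.cast_add, Nat.cast_one] at h2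
  exact h2

end MPadcOA
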