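import Pool.Agent.Lib.MP_adc574_ag_OAP.E2

/-!
# Theorem A+, leaf E5: reduction modulo `(X - α) ^ q`
-/

set_option autoImplicit false

namespace MPadcOA

open Polynomial Matrix

variable {k : Type*} [Field k] {g m : ℕ}

/-- PROOF. `f = ∑_(n ∈ E) C (f.coeff n) * X ^ n` (`as_sum_support`, `Finset.sum_subset`), and `X ^ n - C (β ^ (n / q)) * X ^ (n % q) = X ^ (n % q) * ((X ^ q) ^ (n / q) - C β ^ (n / q))`
(`Nat.mod_add_div`), `sub_dvd_pow_sub_pow`; `X ^ q - C (α ^ q) = (X - C α) ^ q` (`sub_pow_char_pow`, `q = p ^ n`). -/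
theorem redq_dvd {p : ℕ} [Fact p.Prime] [CharP k p] (n : ℕ) (α : k) (E : Finset ℕ) (f : k[X])
    (hf : ∀ i, f.coeff i ≠ 0 → i ∈ E) :
    (X - C α) ^ (p ^ n) ∣ f - redq (p ^ n) (α ^ (p ^ n)) E f := by
  obtain ⟨q, hq⟩ : ∃ q, q = p ^ n := ⟨_, rfl⟩
  have h1 : (X - C α : k[X]) ^ q = X ^ q - C (α ^ q) := by
    rw [hq, sub_pow_char_pow, C_pow]
  rw [← hq]
  obtain ⟨β, hβ⟩ : ∃ β, β = α ^ q := ⟨_, rfl⟩
  rw [← hβ] at h1 ⊢
  have h2 : f = ∑ i ∈ E, C (f.coeff i) * X ^ i := by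
    conv_lhs => rw [f.as_sum_support_C_mul_X_pow]
    refine Finset.sum_subset (fun i hi => hf i (mem_support_iff.1 hi)) fun i _ hi => ?_
    rw [notMem_support_iff.1 hi, C_0, zero_mul]
  have h3 : (∑ i ∈ E, C (f.coeff i) * X ^ i) - redq q β E f = ∑ i ∈ E, C (f.coeff i) *
      (X ^ i - C (β ^ (i / q)) * X ^ (i % q)) := by
    rw [redq, ← Finset.sum_sub_distrib]
    refine Finset.sum_congr rfl fun i _ => ?_
    rw [C_mul]
    ring
  rw [← h2] at h3
  rw [h3, h1]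
  refine Finset.dvd_sum fun i _ => Dvd.dvd.mul_left ?_ _
  have h5 : (X : k[X]) ^ i = X ^ (i % q) * (X ^ q) ^ (i / q) := by
    rw [← pow_mul, ← pow_add, Nat.mod_add_div]
  rw [h5, mul_comm (C _), ← mul_sub, C_pow]
  exact Dvd.dvd.mul_left (sub_dvd_pow_sub_pow _ _ _) _

/-- PROOF. `finsetSum_coeff`, `coeff_C_mul_X_pow`, `Finset.sum_filter`. -/
theorem redq_coeff (q : ℕ) (β : k) (E : Finset ℕ) (f : k[X]) (i : ℕ) :
    (redq q β E f).coeff i = ∑ n ∈ E.filter (fun n => n % q = i), f.coeff n * β ^ (n / q) := by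
  rw [redq, finsetSum_coeff, Finset.sum_filter]
  refine Finset.sum_congr rfl fun n _ => ?_
  rw [coeff_C_mul_X_pow]
  by_cases h : n % q = i
  · rw [if_pos h, if_pos h.symm]
  · rw [if_neg h, if_neg (Ne.symm h)]

/-- PROOF. `natDegree_sum_le_of_forall_le`, `natDegree_C_mul_X_pow_le`. -/
theorem redq_natDegree (q : ℕ) (β : k) (E : Finset ℕ) (f : k[X]) (A : ℕ) (hE : ∀ n ∈ E, n % q ≤ A) :
    (redq q β E f).natDegree ≤ A := by
  refine natDegree_sum_le_of_forall_le _ _ fun n hn => ?_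
  exact (natDegree_C_mul_X_pow_le _ _).trans (hE n hn)

/-- PROOF. `ev` is a sum of products: in the quotient ring `k[X] ⧸ (P)` (`Ideal.Quotient.mk`, `Ideal.mem_span_singleton`) both sides are equal
(`map_sum`, `map_mul`, `map_prod`), or `dvd_sub` with an induction over the products. -/
theorem ev_congr {R : Type*} [CommRing R] (P : R) (U U' : Matrix (Fin g) (Nx g) R) (Φ Φ' : Kx g m → R)
    (hU : ∀ i l, P ∣ U i l - U' i l) (hΦ : ∀ s, P ∣ Φ s - Φ' s) : P ∣ ev U Φ - ev U' Φ' := by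
  have hU' : ∀ i l, Ideal.Quotient.mk (Ideal.span {P}) (U i l) =
      Ideal.Quotient.mk (Ideal.span {P}) (U' i l) := fun i l =>
    Ideal.Quotient.eq.2 (Ideal.mem_span_singleton.2 (hU i l))
  have hΦ' : ∀ s, Ideal.Quotient.mk (Ideal.span {P}) (Φ s) =
      Ideal.Quotient.mk (Ideal.span {P}) (Φ' s) := fun s =>
    Ideal.Quotient.eq.2 (Ideal.mem_span_singleton.2 (hΦ s))
  rw [← Ideal.mem_span_singleton, ← Ideal.Quotient.eq, ev, ev, map_sum, map_sum]
  refine Finset.sum_congr rfl fun s _ => ?_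
  rw [map_mul, map_mul, map_prod, map_prod, hΦ']
  congr 1
  exact Finset.prod_congr rfl fun i _ => hU' _ _

end MPadcOA
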