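import Mathlib

/-!
# Theorem A+, leaf G1: the conjugates of a point over a finite field
-/

set_option autoImplicit false

namespace MPadcOA

open Polynomial

variable {E : Type} [Field E] [Finite E]

/-- The Frobenius of `k` over `E`. -/
private noncomputable def G1_frob (E : Type) [Field E] [Finite E] (k : Type*) [Field k]
    [Algebra E k] : k →ₐ[E] k :=
  letI := Fintype.ofFinite E
  FiniteField.frobeniusAlgHom E k

private theorem G1_frob_apply {k : Type*} [Field k] [Algebra E k] (x : k) :
    G1_frob E k x = x ^ Nat.card E := by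
  letI := Fintype.ofFinite E
  rw [Nat.card_eq_fintype_card]
  rfl

private theorem G1_inj {k : Type*} [Field k] [Algebra E k] (i : ℕ) :
    Function.Injective fun x : k => x ^ Nat.card E ^ i := by
  induction i with
  | zero =>
    intro x y h
    simpa using h
  | succ i ih =>
    intro x y h
    apply ih
    apply (G1_frob E k : k →+* k).injective
    show G1_frob E k (x ^ Nat.card E ^ i) = G1_frob E k (y ^ Nat.card E ^ i)
    rw [G1_frob_apply, G1_frob_apply, ← pow_mul, ← pow_mul, ← pow_succ]
    exact h

/-- The product of the conjugates. -/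
noncomputable def conj (k : Type*) [Field k] (q m : ℕ) (t : k) : k[X] :=
  ∏ i ∈ Finset.range m, (X - C (t ^ q ^ i))

/-- PROOF. `t` is algebraic over `E`; the intermediate field `E⟮t⟯` is a finite field with `q ^ e` elements, `e ≥ 1` (`Module.card_eq_pow_finrank` or `Module.natCard_eq_pow_finrank`), `FiniteField.pow_card`. Take the least `m ≥ 1` with
`t ^ (q ^ m) = t` (`Nat.find`). -/
theorem exists_period (t : AlgebraicClosure E) : ∃ m : ℕ, 0 < m ∧ t ^ Nat.card E ^ m = t ∧
    ∀ i, 0 < i → i < m → t ^ Nat.card E ^ i ≠ t := by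
  classical
  have hint : IsIntegral E t := Algebra.IsIntegral.isIntegral t
  haveI h1 : FiniteDimensional E (IntermediateField.adjoin E {t}) :=
    IntermediateField.adjoin.finiteDimensional hint
  haveI h2 : Finite (IntermediateField.adjoin E {t}) := Module.finite_of_finite E
  letI := Fintype.ofFinite (IntermediateField.adjoin E {t})
  have hcard : Fintype.card (IntermediateField.adjoin E {t}) =
      Nat.card E ^ Module.finrank E (IntermediateField.adjoin E {t}) := by
    rw [← Nat.card_eq_fintype_card]
    exact Module.natCard_eq_pow_finrank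
  have h3 : (⟨t, IntermediateField.mem_adjoin_simple_self E t⟩ :
      IntermediateField.adjoin E {t}) ^ Fintype.card (IntermediateField.adjoin E {t}) =
      ⟨t, IntermediateField.mem_adjoin_simple_self E t⟩ := FiniteField.pow_card _
  have h4 : t ^ Nat.card E ^ Module.finrank E (IntermediateField.adjoin E {t}) = t := by
    rw [← hcard]
    exact congrArg Subtype.val h3
  have hex : ∃ m : ℕ, 0 < m ∧ t ^ Nat.card E ^ m = t :=
    ⟨_, Module.finrank_pos, h4⟩
  exact ⟨Nat.find hex, (Nat.find_spec hex).1, (Nat.find_spec hex).2,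
    fun i hi him h => Nat.find_min hex him ⟨hi, h⟩⟩

/-- An element with `c ^ q = c` is in `E`. PROOF. `X ^ q - X` has at most `q` roots in `k`, the images of the `q` elements of `E` are roots (`FiniteField.pow_card`). -/
theorem mem_of_pow_eq {k : Type*} [Field k] [Algebra E k] (c : k) (hc : c ^ Nat.card E = c) :
    ∃ e : E, algebraMap E k e = c := by
  classical
  letI := Fintype.ofFinite E
  by_contra hcon
  push Not at hcon
  have hq : 1 < Nat.card E := by
    rw [Nat.card_eq_fintype_card]
    exact Fintype.one_lt_card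
  have hne : (X ^ Nat.card E - X : k[X]) ≠ 0 := FiniteField.X_pow_card_sub_X_ne_zero k hq
  have hroot : ∀ x : k, x ^ Nat.card E = x → x ∈ (X ^ Nat.card E - X : k[X]).roots.toFinset := by
    intro x hx
    rw [Multiset.mem_toFinset, mem_roots hne, IsRoot.def, eval_sub, eval_pow, eval_X, hx, sub_self]
  have hsub : insert c (Finset.univ.image (algebraMap E k)) ⊆
      (X ^ Nat.card E - X : k[X]).roots.toFinset := by
    intro x hx
    rw [Finset.mem_insert, Finset.mem_image] at hx
    rcases hx with rfl | ⟨e, _, rfl⟩
    · exact hroot _ hc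
    · refine hroot _ ?_
      rw [← map_pow, Nat.card_eq_fintype_card, FiniteField.pow_card]
  have hnot : c ∉ Finset.univ.image (algebraMap E k) := by
    rw [Finset.mem_image]
    rintro ⟨e, _, he⟩
    exact hcon e he
  have h1 := Finset.card_le_card hsub
  rw [Finset.card_insert_of_notMem hnot,
    Finset.card_image_of_injective _ (algebraMap E k).injective, Finset.card_univ] at h1
  have h2 := (Multiset.toFinset_card_le (X ^ Nat.card E - X : k[X]).roots).trans (card_roots' _)
  rw [FiniteField.X_pow_card_sub_X_natDegree_eq k hq, Nat.card_eq_fintype_card] at h2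
  rw [Nat.card_eq_fintype_card] at h1
  omega

/-- The product of the conjugates has coefficients in `E`. PROOF. The `q`-Frobenius of `k` (`q = p ^ n`, `iterateFrobenius k p n`, a ring homomorphism; `FiniteField.card`) maps the product to the product of the `X - C (t ^ (q ^ (i + 1)))`,
which is the same product (`Finset.prod_range_succ`, `Finset.prod_range_succ'`, `t ^ (q ^ m) = t`). So every coefficient satisfies `c ^ q = c`; `mem_of_pow_eq`; lift (`Polynomial.lifts_iff_coeff_lifts`,
`Polynomial.lifts_and_natDegree_eq_and_monic`). -/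
theorem conj_lift {k : Type*} [Field k] [Algebra E k] (t : k) (m : ℕ) (hm : 0 < m) (ht : t ^ Nat.card E ^ m = t) :
    ∃ P : E[X], P.Monic ∧ P.natDegree = m ∧ P.map (algebraMap E k) = conj k (Nat.card E) m t := by
  have hmonic : (conj k (Nat.card E) m t).Monic :=
    monic_prod_of_monic _ _ fun i _ => monic_X_sub_C _
  have hdeg : (conj k (Nat.card E) m t).natDegree = m := by
    unfold conj
    rw [natDegree_prod_of_monic _ _ fun i _ => monic_X_sub_C _]
    rw [Finset.sum_congr rfl fun i _ => natDegree_X_sub_C _, Finset.sum_const, Finset.card_range,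
      smul_eq_mul, mul_one]
  have hmap : (conj k (Nat.card E) m t).map (G1_frob E k : k →+* k) = conj k (Nat.card E) m t := by
    unfold conj
    rw [Polynomial.map_prod]
    have h1 : ∀ i ∈ Finset.range m, (X - C (t ^ Nat.card E ^ i) : k[X]).map
        (G1_frob E k : k →+* k) = X - C (t ^ Nat.card E ^ (i + 1)) := by
      intro i _
      rw [Polynomial.map_sub, map_X, map_C]
      have h2 : (G1_frob E k : k →+* k) (t ^ Nat.card E ^ i) = t ^ Nat.card E ^ (i + 1) := by
        show G1_frob E k (t ^ Nat.card E ^ i) = _
        rw [G1_frob_apply, ← pow_mul, ← pow_succ]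
      rw [h2]
    rw [Finset.prod_congr rfl h1]
    refine mul_right_cancel₀ (X_sub_C_ne_zero (t ^ Nat.card E ^ 0)) ?_
    rw [← Finset.prod_range_succ' (fun i => (X - C (t ^ Nat.card E ^ i) : k[X])) m,
      Finset.prod_range_succ, ht, pow_zero, pow_one]
  have hlift : conj k (Nat.card E) m t ∈ lifts (algebraMap E k) := by
    rw [lifts_iff_coeff_lifts]
    intro n
    obtain ⟨e, he⟩ := mem_of_pow_eq (E := E) ((conj k (Nat.card E) m t).coeff n) (by
      have h1 := congrArg (fun p : k[X] => p.coeff n) hmap
      beta_reduce at h1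
      rw [coeff_map] at h1
      have h2 : (G1_frob E k : k →+* k) ((conj k (Nat.card E) m t).coeff n) =
        (conj k (Nat.card E) m t).coeff n ^ Nat.card E := G1_frob_apply _
      rw [← h2]
      exact h1)
    exact ⟨e, he⟩
  obtain ⟨P, h1, h2, h3⟩ := lifts_and_natDegree_eq_and_monic hlift hmonic
  exact ⟨P, h3, h2.trans hdeg, h1⟩

/-- PROOF. `t ^ (q ^ i) = t ^ (q ^ j)`, `i < j < m`: the `q ^ i`-th power is injective (a power of Frobenius), so `t ^ (q ^ (j - i)) = t` (`q ^ j = q ^ (j - i) * q ^ i`), contradiction with the period. -/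
theorem conj_injOn {k : Type*} [Field k] [Algebra E k] (t : k) (m : ℕ)
    (h : ∀ i, 0 < i → i < m → t ^ Nat.card E ^ i ≠ t) :
    Set.InjOn (fun i : ℕ => t ^ Nat.card E ^ i) (Finset.range m) := by
  have key : ∀ i j : ℕ, i < j → j < m → t ^ Nat.card E ^ i ≠ t ^ Nat.card E ^ j := by
    intro i j hij hj heq
    have h1 : t ^ Nat.card E ^ j = (t ^ Nat.card E ^ (j - i)) ^ Nat.card E ^ i := by
      rw [← pow_mul, ← pow_add]
      congr 2
      omega
    rw [h1] at heq
    exact h (j - i) (by omega) (by omega) (G1_inj (E := E) i heq).symm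
  intro i hi j hj hij
  have hi' : i < m := Finset.mem_range.1 hi
  have hj' : j < m := Finset.mem_range.1 hj
  by_contra hne
  rcases lt_or_gt_of_ne hne with hlt | hlt
  · exact key i j hlt hj' hij
  · exact key j i hlt hi' hij.symm

/-- PROOF. All `t ^ (q ^ i)` are roots of `F` (apply the Frobenius to `F(t) = 0`: `F(t ^ q) = F(t) ^ q`, the coefficients of `F` are fixed), they are different (`conj_injOn`), so the product divides `F` over `k`
(`Finset.prod_dvd_of_coprime`, `pairwise_coprime_X_sub_C`), so `P` divides `F` over `E` (`Polynomial.map_dvd_map` with `P` monic). -/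
theorem conj_dvd {k : Type*} [Field k] [Algebra E k] (t : k) (m : ℕ)
    (h : ∀ i, 0 < i → i < m → t ^ Nat.card E ^ i ≠ t) (P F : E[X]) (hP : P.Monic)
    (hPm : P.map (algebraMap E k) = conj k (Nat.card E) m t) (hF : aeval t F = 0) : P ∣ F := by
  have hroot : ∀ i : ℕ, aeval (t ^ Nat.card E ^ i) F = 0 := by
    intro i
    induction i with
    | zero => rwa [pow_zero, pow_one]
    | succ i ih =>
      rw [pow_succ, pow_mul, ← G1_frob_apply (E := E), aeval_algHom_apply, ih, map_zero]
  have hinj := conj_injOn (E := E) t m h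
  have h1 : conj k (Nat.card E) m t ∣ F.map (algebraMap E k) := by
    refine Finset.prod_dvd_of_coprime (fun i hi j hj hij => ?_) fun i _ => ?_
    · refine isCoprime_X_sub_C_of_isUnit_sub (IsUnit.mk0 _ (sub_ne_zero.2 fun he => ?_))
      exact hij (hinj hi hj he)
    · rw [dvd_iff_isRoot, IsRoot.def, eval_map_algebraMap]
      exact hroot i
  rw [← hPm] at h1
  exact (map_dvd_map (algebraMap E k) (algebraMap E k).injective hP).1 h1

end MPadcOA
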