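import Mathlib

/-!
# Theorem A+, leaf G2: counting monic polynomials over a finite field
-/

set_option autoImplicit false

namespace MPadcOA

open Polynomial

variable (E : Type) [Field E] [Finite E] (N : ℕ)

/-- The monic polynomials of degree `N`. -/
def Mon : Set E[X] := {F | F.Monic ∧ F.natDegree = N}

/-- PROOF. The bijection `F ↦ (F.coeff i)_(i < N)` with `Fin N → E` (inverse `X ^ N + ∑ C (c i) X ^ i`: `monic_X_pow_add`, `natDegree..`; or `Polynomial.degreeLTEquiv` and `F ↦ F - X ^ N`). -/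
theorem Mon_finite : (Mon E N).Finite := by
  have h1 : Finite (Fin N → E) := inferInstance
  have h2 : Finite (degreeLT E N) := Finite.of_equiv _ (degreeLTEquiv E N).toEquiv.symm
  have h3 : Finite {p : E[X] // p.Monic ∧ p.natDegree = N} :=
    Finite.of_equiv _ (monicEquivDegreeLT (R := E) N).symm
  exact @Set.toFinite _ (Mon E N) h3

theorem Mon_ncard : (Mon E N).ncard = Nat.card E ^ N := by
  have : Finite E := inferInstance
  have h1 : Nat.card {p : E[X] // p.Monic ∧ p.natDegree = N} = Nat.card (Fin N → E) :=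
    Nat.card_congr ((monicEquivDegreeLT (R := E) N).trans (degreeLTEquiv E N).toEquiv)
  rw [Nat.card_pi, Finset.prod_const, Finset.card_univ, Fintype.card_fin] at h1
  rw [← h1, ← Nat.card_coe_set_eq]
  rfl

/-- The polynomials of degree `N` are finitely many. PROOF. `F = C (leadingCoeff) * (monic)`, image of `E × Mon`. -/
theorem deg_finite : {F : E[X] | F.natDegree = N}.Finite := by
  refine Set.Finite.of_finite_image (f := fun F : E[X] => fun i : Fin (N + 1) => F.coeff i)
    (Set.toFinite _) ?_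
  intro F hF G hG h
  have hF' : F.natDegree = N := hF
  have hG' : G.natDegree = N := hG
  ext n
  rcases Nat.lt_or_ge n (N + 1) with h1 | h1
  · exact congrFun h ⟨n, h1⟩
  · rw [coeff_eq_zero_of_natDegree_lt (by omega), coeff_eq_zero_of_natDegree_lt (by omega)]

/-- The monic polynomials which are not squarefree. PROOF. `F = π ^ 2 * h`, `π` of degree `d ≥ 1`, made monic, `h` monic of degree `N - 2 d`. The set is contained in the union over `1 ≤ d ≤ N` (`2 d ≤ N`) of the images of
`Mon E d ×ˢ Mon E (N - 2 d)` under `(π, h) ↦ π ^ 2 * h`; each has at most `q ^ (N - d) ≤ q ^ (N - 1)` elements (`Set.ncard_image_le`, `Set.ncard_prod`, `Mon_ncard`); induction or `Finset` biUnion for the union. -/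
theorem nonsquarefree_le (hN : 0 < N) :
    {F ∈ Mon E N | ¬ Squarefree F}.ncard ≤ N * Nat.card E ^ (N - 1) := by
  have hq : 0 < Nat.card E := Nat.card_pos
  have hsub : {F ∈ Mon E N | ¬ Squarefree F} ⊆ ⋃ d ∈ Finset.Icc 1 (N / 2),
      (fun p : E[X] × E[X] => p.1 ^ 2 * p.2) '' (Mon E d ×ˢ Mon E (N - 2 * d)) := by
    rintro F ⟨⟨hm, hd⟩, hs⟩
    have hF : F ≠ 0 := hm.ne_zero
    unfold Squarefree at hs
    push Not at hs
    obtain ⟨x, ⟨h, hx⟩, hu⟩ := hs
    have hx0 : x ≠ 0 := by
      rintro rfl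
      exact hF (by rw [hx]; ring)
    have hc : x.leadingCoeff ≠ 0 := leadingCoeff_ne_zero.2 hx0
    have hpm : (x * C x.leadingCoeff⁻¹).Monic := monic_mul_leadingCoeff_inv hx0
    have he : F = (x * C x.leadingCoeff⁻¹) ^ 2 * (C (x.leadingCoeff ^ 2) * h) := by
      have h1 : C x.leadingCoeff⁻¹ ^ 2 * C (x.leadingCoeff ^ 2) = (1 : E[X]) := by
        rw [← C_pow, ← C_mul, inv_pow, inv_mul_cancel₀ (pow_ne_zero 2 hc), C_1]
      calc F = x * x * h * 1 := by rw [mul_one]; exact hx
        _ = _ := by rw [← h1]; ring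
    have hp2 : ((x * C x.leadingCoeff⁻¹) ^ 2).Monic := hpm.pow 2
    have hhm : (C (x.leadingCoeff ^ 2) * h).Monic := hp2.of_mul_monic_left (he ▸ hm)
    have hdeg : F.natDegree =
        2 * (x * C x.leadingCoeff⁻¹).natDegree + (C (x.leadingCoeff ^ 2) * h).natDegree := by
      conv_lhs => rw [he]
      rw [hp2.natDegree_mul hhm, hpm.natDegree_pow]
    have hpos : 0 < (x * C x.leadingCoeff⁻¹).natDegree := by
      refine hpm.natDegree_pos_of_not_isUnit fun h1 => hu ?_
      exact isUnit_of_mul_isUnit_left h1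
    rw [Set.mem_iUnion₂]
    refine ⟨(x * C x.leadingCoeff⁻¹).natDegree, Finset.mem_Icc.2 ⟨hpos, by omega⟩, ?_⟩
    refine ⟨(x * C x.leadingCoeff⁻¹, C (x.leadingCoeff ^ 2) * h), ⟨⟨hpm, rfl⟩, ⟨hhm, ?_⟩⟩, he.symm⟩
    show (C (x.leadingCoeff ^ 2) * h).natDegree = _
    omega
  have hfin : (⋃ d ∈ Finset.Icc 1 (N / 2),
      (fun p : E[X] × E[X] => p.1 ^ 2 * p.2) '' (Mon E d ×ˢ Mon E (N - 2 * d))).Finite :=
    Set.Finite.biUnion (Finset.finite_toSet _) fun d _ =>
      ((Mon_finite E d).prod (Mon_finite E (N - 2 * d))).image _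
  refine (Set.ncard_le_ncard hsub hfin).trans ((Finset.set_ncard_biUnion_le _ _).trans ?_)
  refine (Finset.sum_le_sum (g := fun _ => Nat.card E ^ (N - 1)) fun d hd => ?_).trans ?_
  · obtain ⟨h1, h2⟩ := Finset.mem_Icc.1 hd
    refine (Set.ncard_image_le ((Mon_finite E d).prod (Mon_finite E (N - 2 * d)))).trans ?_
    rw [Set.ncard_prod, Mon_ncard, Mon_ncard, ← pow_add]
    exact Nat.pow_le_pow_right hq (by omega)
  · rw [Finset.sum_const, Nat.card_Icc, smul_eq_mul]
    exact Nat.mul_le_mul_right _ (by omega)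

end MPadcOA
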