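import Pool.Agent.Lib.MP_adc574_ag_OAP.G1
import Pool.Agent.Lib.MP_adc574_ag_OAP.G2
import Pool.Agent.Lib.MP_adc574_ag_CC.PDefs

/-!
# Theorem A+, leaf G3: decomposition of a polynomial, counting
-/

set_option autoImplicit false

namespace MPadcOA

open Polynomial MPadcCC

variable (E : Type) [Field E] [Finite E] (p g : ℕ)

/-- The monic squarefree polynomials of degree `2 g + 1` whose Hasse-Witt matrix is not invertible. -/
def BadF : Set E[X] :=
  {F | F ∈ Mon E (2 * g + 1) ∧ Squarefree F ∧ (hw p (g + 1) (F ^ ((p - 1) / 2))).det = 0}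

/-- The bad moving roots for the fixed factor `f`. -/
def BadT (r : ℕ) (f : E[X]) : Set (AlgebraicClosure E) :=
  {t | t ^ Nat.card E ^ (r + 1) = t ∧ (∀ i < r, t ^ Nat.card E ^ (i + 1) ≠ t) ∧ aeval t f ≠ 0 ∧
    (hw p (g + 1) ((conj (AlgebraicClosure E) (Nat.card E) (r + 1) t *
      f.map (algebraMap E (AlgebraicClosure E))) ^ ((p - 1) / 2))).det = 0}

private theorem G3_one_lt (r : ℕ) : 1 < Nat.card E ^ (r + 1) :=
  Nat.one_lt_pow (Nat.succ_ne_zero r) Finite.one_lt_card

/-- PROOF. Roots of `X ^ (q ^ (r + 1)) - X ≠ 0`. -/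
theorem BadT_finite (r : ℕ) (f : E[X]) : (BadT E p g r f).Finite := by
  have hne : (X ^ (Nat.card E ^ (r + 1)) - X : (AlgebraicClosure E)[X]) ≠ 0 :=
    FiniteField.X_pow_card_sub_X_ne_zero _ (G3_one_lt E r)
  refine Set.Finite.subset
    (Multiset.finite_toSet (X ^ (Nat.card E ^ (r + 1)) - X : (AlgebraicClosure E)[X]).roots) ?_
  intro t ht
  show t ∈ (X ^ (Nat.card E ^ (r + 1)) - X : (AlgebraicClosure E)[X]).roots
  rw [mem_roots hne, IsRoot.def, eval_sub, eval_pow, eval_X, ht.1, sub_self]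

private theorem G3_hw_map {R S : Type*} [CommRing R] [CommRing S] (φ : R →+* S) (p m : ℕ) (G : R[X]) :
    φ.mapMatrix (hw p m G) = hw p m (G.map φ) := by
  ext α β
  simp only [hw, RingHom.mapMatrix_apply, Matrix.map_apply, coeff_map]

/-- DECOMPOSITION. PROOF. `F` has a root `t` in the algebraic closure (degree `2 g + 1 ≥ 1`: `IsAlgClosed.exists_aeval_eq_zero`). Let `m` be its period (`exists_period`), `P` the polynomial of `conj_lift`, `P ∣ F` (`conj_dvd`), `F = P * f`, `m ≤ 2 g + 1`, `r = m - 1`. `f` is monic,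
squarefree of degree `2 g - r`. `f(t) ≠ 0` since otherwise `P ∣ f` (`conj_dvd`) and `P ^ 2 ∣ F`, `P` not a unit. The determinant: the Hasse-Witt matrix commutes with the base change `E → k` (`hw`, `coeff_map`, `RingHom.map_det`). -/
theorem decomp (F : E[X]) (hF : F ∈ BadF E p g) : ∃ r < 2 * g + 1, ∃ f ∈ Mon E (2 * g - r), Squarefree f ∧
    ∃ t ∈ BadT E p g r f, F.map (algebraMap E (AlgebraicClosure E)) =
      conj (AlgebraicClosure E) (Nat.card E) (r + 1) t * f.map (algebraMap E (AlgebraicClosure E)) := by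
  classical
  obtain ⟨⟨hmon, hdeg⟩, hsq, hdet⟩ := hF
  have hd0 : F.degree ≠ 0 := by
    intro h
    have h2 := Polynomial.natDegree_eq_zero_iff_degree_le_zero.2 h.le
    rw [hdeg] at h2
    omega
  obtain ⟨t, ht⟩ := IsAlgClosed.exists_aeval_eq_zero (AlgebraicClosure E) F hd0
  obtain ⟨m, hm, htm, hper⟩ := exists_period t
  obtain ⟨P, hP, hPd, hPm⟩ := conj_lift t m hm htm
  obtain ⟨f, hf⟩ := conj_dvd t m hper P F hP hPm ht
  have hfm : f.Monic := by
    rw [hf] at hmon
    exact Monic.of_mul_monic_left hP hmon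
  have hfd : m + f.natDegree = 2 * g + 1 := by
    have h1 := hP.natDegree_mul hfm
    rw [← hf, hdeg, hPd] at h1
    exact h1.symm
  have hfsq : Squarefree f := hsq.squarefree_of_dvd (Dvd.intro_left P hf.symm)
  obtain ⟨r, rfl⟩ : ∃ r, m = r + 1 := ⟨m - 1, by omega⟩
  have hmap : F.map (algebraMap E (AlgebraicClosure E)) =
      conj (AlgebraicClosure E) (Nat.card E) (r + 1) t * f.map (algebraMap E (AlgebraicClosure E)) := by
    rw [hf, Polynomial.map_mul, hPm]
  refine ⟨r, by omega, f, ⟨hfm, by omega⟩, hfsq, t, ⟨htm, ?_, ?_, ?_⟩, hmap⟩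
  · intro i hi
    exact hper (i + 1) (Nat.succ_pos i) (Nat.succ_lt_succ hi)
  · intro h0
    have h1 : P ∣ f := conj_dvd t (r + 1) hper P f hP hPm h0
    have h2 : P * P ∣ F := by
      rw [hf]
      exact mul_dvd_mul_left P h1
    have h3 := natDegree_eq_zero_of_isUnit (hsq P h2)
    omega
  · rw [← hmap, ← Polynomial.map_pow, ← G3_hw_map, ← RingHom.map_det, hdet, map_zero]

/-- COUNTING. PROOF. By `decomp` and the injectivity of `F ↦ F.map` the set `BadF` is contained in the union over `r < 2 g + 1`, `f ∈ Mon E (2 g - r)` squarefree (finite: `Mon_finite`) and `t ∈ BadT r f` (finite) of sets with at most one element. So its cardinality is at most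
`∑_r ∑_f ncard (BadT r f) ≤ ∑_r q ^ (2 g - r) * (ε * q ^ (r + 1)) = (2 g + 1) * ε * q ^ (2 g + 1)`. (`Finset.card_biUnion_le`, or a map from the finite set of triples onto a superset.) -/
theorem BadF_le (ε : ℝ) (hε : 0 ≤ ε)
    (h : ∀ r < 2 * g + 1, ∀ f ∈ Mon E (2 * g - r), Squarefree f →
      ((BadT E p g r f).ncard : ℝ) ≤ ε * (Nat.card E : ℝ) ^ (r + 1)) :
    ((BadF E p g).ncard : ℝ) ≤ (2 * g + 1) * ε * (Nat.card E : ℝ) ^ (2 * g + 1) := by
  classical
  let φ := algebraMap E (AlgebraicClosure E)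
  have hφ : Function.Injective (fun F : E[X] => F.map φ) := Polynomial.map_injective φ φ.injective
  let sq : ℕ → Finset E[X] := fun r => (Mon_finite E (2 * g - r)).toFinset.filter Squarefree
  let BT : ℕ → E[X] → Finset (AlgebraicClosure E) := fun r f => (BadT_finite E p g r f).toFinset
  let S : Finset (AlgebraicClosure E)[X] := (Finset.range (2 * g + 1)).biUnion fun r =>
    (sq r).biUnion fun f => (BT r f).image fun t =>
      conj (AlgebraicClosure E) (Nat.card E) (r + 1) t * f.map φ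
  have hsub : (fun F : E[X] => F.map φ) '' BadF E p g ⊆ (S : Set (AlgebraicClosure E)[X]) := by
    rintro _ ⟨F, hF, rfl⟩
    obtain ⟨r, hr, f, hf, hfsq, t, ht, hm⟩ := decomp E p g F hF
    simp only [S, Finset.coe_biUnion, Set.mem_iUnion, Finset.mem_coe, Finset.mem_image]
    refine ⟨r, Finset.mem_range.2 hr, f, ?_, t, ?_, hm.symm⟩
    · exact Finset.mem_filter.2 ⟨(Mon_finite E (2 * g - r)).mem_toFinset.2 hf, hfsq⟩
    · exact (BadT_finite E p g r f).mem_toFinset.2 ht
  have h1 : (BadF E p g).ncard ≤ S.card := by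
    rw [← Set.ncard_image_of_injective (BadF E p g) hφ, ← Set.ncard_coe_finset S]
    exact Set.ncard_le_ncard hsub S.finite_toSet
  have h2 : S.card ≤ ∑ r ∈ Finset.range (2 * g + 1), ∑ f ∈ sq r, (BT r f).card := by
    refine Finset.card_biUnion_le.trans (Finset.sum_le_sum fun r _ => ?_)
    refine Finset.card_biUnion_le.trans (Finset.sum_le_sum fun f _ => ?_)
    exact Finset.card_image_le
  have h3 : ((∑ r ∈ Finset.range (2 * g + 1), ∑ f ∈ sq r, (BT r f).card : ℕ) : ℝ) ≤
      ∑ r ∈ Finset.range (2 * g + 1), ε * (Nat.card E : ℝ) ^ (2 * g + 1) := by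
    rw [Nat.cast_sum]
    refine Finset.sum_le_sum fun r hr => ?_
    have hr' : r < 2 * g + 1 := Finset.mem_range.1 hr
    rw [Nat.cast_sum]
    have hb : ∀ f ∈ sq r, (((BT r f).card : ℕ) : ℝ) ≤ ε * (Nat.card E : ℝ) ^ (r + 1) := by
      intro f hf
      obtain ⟨hf1, hf2⟩ := Finset.mem_filter.1 hf
      have h4 := h r hr' f ((Mon_finite E (2 * g - r)).mem_toFinset.1 hf1) hf2
      rwa [Set.ncard_eq_toFinset_card _ (BadT_finite E p g r f)] at h4
    have hc : (((sq r).card : ℕ) : ℝ) ≤ (Nat.card E : ℝ) ^ (2 * g - r) := by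
      have h5 : (sq r).card ≤ Nat.card E ^ (2 * g - r) := by
        refine (Finset.card_filter_le _ _).trans (le_of_eq ?_)
        rw [← Set.ncard_eq_toFinset_card _ (Mon_finite E (2 * g - r)), Mon_ncard]
      exact_mod_cast h5
    calc ∑ f ∈ sq r, (((BT r f).card : ℕ) : ℝ) ≤ ∑ _f ∈ sq r, ε * (Nat.card E : ℝ) ^ (r + 1) :=
          Finset.sum_le_sum hb
      _ = ((sq r).card : ℝ) * (ε * (Nat.card E : ℝ) ^ (r + 1)) := by
          rw [Finset.sum_const, nsmul_eq_mul]
      _ ≤ (Nat.card E : ℝ) ^ (2 * g - r) * (ε * (Nat.card E : ℝ) ^ (r + 1)) :=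
          mul_le_mul_of_nonneg_right hc (mul_nonneg hε (pow_nonneg (Nat.cast_nonneg _) _))
      _ = ε * ((Nat.card E : ℝ) ^ (2 * g - r) * (Nat.card E : ℝ) ^ (r + 1)) := by ring
      _ = ε * (Nat.card E : ℝ) ^ (2 * g + 1) := by
          rw [← pow_add]
          have h6 : 2 * g - r + (r + 1) = 2 * g + 1 := by omega
          rw [h6]
  have h4 : ((BadF E p g).ncard : ℝ) ≤ ((S.card : ℕ) : ℝ) := by exact_mod_cast h1
  have h5 : ((S.card : ℕ) : ℝ) ≤
      ((∑ r ∈ Finset.range (2 * g + 1), ∑ f ∈ sq r, (BT r f).card : ℕ) : ℝ) := by exact_mod_cast h2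
  refine (h4.trans (h5.trans h3)).trans (le_of_eq ?_)
  rw [Finset.sum_const, Finset.card_range, nsmul_eq_mul]
  push_cast
  ring

end MPadcOA
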