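import Pool.Agent.Lib.MP_adc574_ag_OAP.H3
import Pool.Agent.Lib.MP_adc574_ag_OAP.CntF

/-!
# Theorem A+: the moving roots of one factor, for an arbitrary degree `N` (copy of G4 over an abstract count)
-/

set_option autoImplicit false

namespace MPadcOA

open Polynomial Matrix MPadcCC

/-- The count of the bad moving roots for polynomials of degree `N` (`countF` implies `CountHyp g (2 g + 1)`). -/
def CountHyp (g N : ℕ) : Prop :=
  ∀ r s : ℕ, r + s + 1 = N → ∀ ε : ℝ, 0 < ε → ∃ p₀ : ℕ, ∀ p : ℕ, p.Prime → p₀ ≤ p →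
    ∀ (k : Type) [Field k] [CharP k p] [Infinite k] (n : ℕ), 0 < n → ∀ b : Fin s → k, Function.Injective b →
    ∀ Z : Finset k,
    (∀ τ ∈ Z, τ ^ (p ^ n) ^ (r + 1) = τ ∧ (∀ i < r, τ ^ (p ^ n) ^ (i + 1) ≠ τ) ∧
      (∀ i, ∀ j ≤ r, b i ≠ τ ^ (p ^ n) ^ j) ∧
      (hw p (g + 1) (((∏ i ∈ Finset.range (r + 1), (X - C (τ ^ (p ^ n) ^ i))) *
        ∏ i, (X - C (b i))) ^ ((p - 1) / 2))).det = 0) →
    (Z.card : ℝ) ≤ ε * ((p : ℝ) ^ n) ^ (r + 1)

theorem countHyp_odd (g : ℕ) (hg : 0 < g) : CountHyp g (2 * g + 1) := by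
  intro r s hrs ε hε
  obtain ⟨p₀, h⟩ := countF g r s hg (by omega) ε hε
  refine ⟨p₀, fun p hp hp₀ k _ _ _ n hn b hb Z hZ => h p hp hp₀ k n hn b hb Z fun τ hτ => ?_⟩
  obtain ⟨h1, h2, h3, h4⟩ := hZ τ hτ
  refine ⟨h1, h2, fun i => ?_, h4⟩
  have h5 := h3 i 0 (Nat.zero_le r)
  rwa [pow_zero, pow_one] at h5

/-- The values of a polynomial over `E` at the conjugates. -/
private theorem H4_aeval {E : Type} [Field E] [Finite E] {k : Type*} [Field k] [Algebra E k] (f : E[X]) (t : k) (j : ℕ) :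
    aeval (t ^ Nat.card E ^ j) f = (aeval t f) ^ Nat.card E ^ j := by
  classical
  have := Fintype.ofFinite E
  induction j with
  | zero => rw [pow_zero, pow_one, pow_one]
  | succ j ih =>
    have h1 : aeval (t ^ Nat.card E ^ (j + 1)) f = aeval (t ^ Nat.card E ^ j) (expand E (Nat.card E) f) := by
      rw [expand_aeval, pow_succ, pow_mul]
    have h2 : expand E (Nat.card E) f = f ^ Nat.card E := by
      rw [Nat.card_eq_fintype_card]
      exact FiniteField.expand_card f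
    rw [h1, h2, map_pow, ih, ← pow_mul, ← pow_succ]

/-- PROOF. As `MainA_monic` in MainA.lean: `k = AlgebraicClosure E`, `q = Nat.card E = p ^ n` (`FiniteField.card`), the roots of `f` in `k` as an injective family `b : Fin s → k`, `s = 2 g - r`, with
`∏ i, (X - C (b i)) = f.map _` (`f` monic and separable); `countF g r s` (one `p₀` for each `r ≤ 2 g`: finite sum) for the finset of `BadT E p g r f` (`BadT_finite`, `Set.ncard_eq_toFinset_card`);
`b i ≠ t` from `aeval t f ≠ 0`. -/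
theorem BadT_len (g N : ℕ) (HC : CountHyp g N) (ε : ℝ) (hε : 0 < ε) : ∃ p₀ : ℕ, ∀ p : ℕ, p.Prime → p₀ ≤ p →
    ∀ (E : Type) [Field E] [Finite E] [CharP E p], ∀ r < N, ∀ f ∈ Mon E (N - (r + 1)), Squarefree f →
      ((BadT E p g r f).ncard : ℝ) ≤ ε * (Nat.card E : ℝ) ^ (r + 1) := by
  classical
  have hex : ∀ r : Fin (N), ∃ p₀ : ℕ, ∀ p : ℕ, p.Prime → p₀ ≤ p →
      ∀ (k : Type) [Field k] [CharP k p] [Infinite k] (n : ℕ), 0 < n →
      ∀ b : Fin (N - (r + 1)) → k, Function.Injective b → ∀ Z : Finset k,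
      (∀ τ ∈ Z, τ ^ (p ^ n) ^ ((r : ℕ) + 1) = τ ∧ (∀ i < (r : ℕ), τ ^ (p ^ n) ^ (i + 1) ≠ τ) ∧
        (∀ i, ∀ j ≤ (r : ℕ), b i ≠ τ ^ (p ^ n) ^ j) ∧
        (hw p (g + 1) (((∏ i ∈ Finset.range ((r : ℕ) + 1), (X - C (τ ^ (p ^ n) ^ i))) *
          ∏ i, (X - C (b i))) ^ ((p - 1) / 2))).det = 0) →
      (Z.card : ℝ) ≤ ε * ((p : ℝ) ^ n) ^ ((r : ℕ) + 1) := fun r =>
    HC r (N - (r + 1)) (by omega) ε hε
  choose P hP using hex
  refine ⟨∑ r, P r, fun p hp hp₀ E _ _ _ r hr f hf hsq => ?_⟩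
  have hpr : P ⟨r, hr⟩ ≤ p :=
    (Finset.single_le_sum (f := P) (fun _ _ => Nat.zero_le _) (Finset.mem_univ _)).trans hp₀
  have : Fact p.Prime := ⟨hp⟩
  have := Fintype.ofFinite E
  obtain ⟨n, hn, hcard⟩ := FiniteField.card E p
  have hq : Nat.card E = p ^ (n : ℕ) := by rw [Nat.card_eq_fintype_card, hcard]
  let k : Type := AlgebraicClosure E
  have hk : CharP k p := charP_of_injective_algebraMap (algebraMap E k).injective p
  have hinf : Infinite k := IsAlgClosed.instInfinite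
  obtain ⟨hfm, hfd⟩ : f.Monic ∧ f.natDegree = N - (r + 1) := hf
  -- the roots of `f`
  obtain ⟨f', hf'⟩ : ∃ f' : k[X], f' = f.map (algebraMap E k) := ⟨_, rfl⟩
  have hf'm : f'.Monic := by rw [hf']; exact hfm.map _
  have hf'd : f'.natDegree = N - (r + 1) := by rw [hf', natDegree_map, hfd]
  have hsplit : f'.Splits := IsAlgClosed.splits f'
  have hcardr : f'.roots.card = N - (r + 1) := by
    rw [← hf'd]
    exact (splits_iff_card_roots.1 hsplit)
  have hnodup : f'.roots.Nodup := by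
    apply nodup_roots
    rw [hf']
    exact (PerfectField.separable_iff_squarefree.2 hsq).map
  obtain ⟨e⟩ : Nonempty (Fin (N - (r + 1)) ≃ {x // x ∈ f'.roots.toFinset}) := by
    refine ⟨Fintype.equivOfCardEq ?_⟩
    rw [Fintype.card_fin, Fintype.card_coe, Multiset.toFinset_card_of_nodup hnodup, hcardr]
  obtain ⟨b, hb⟩ : ∃ b : Fin (N - (r + 1)) → k, b = fun j => (e j : k) := ⟨_, rfl⟩
  have hinj : Function.Injective b := by
    rw [hb]
    exact Subtype.val_injective.comp e.injective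
  have hprod : ∏ j, (X - C (b j)) = f' := by
    have h1 : ∏ j, (X - C (b j)) = ∏ x ∈ f'.roots.toFinset, (X - C x) := by
      rw [hb, ← Finset.prod_coe_sort f'.roots.toFinset fun x => X - C x]
      exact Fintype.prod_equiv e (fun j => X - C ((e j : k))) (fun x => X - C (x : k)) fun _ => rfl
    rw [h1]
    have h2 : (f'.roots.map fun x => X - C x).prod = f' :=
      (hsplit.eq_prod_roots_of_monic hf'm).symm
    rw [Finset.prod, Multiset.toFinset_val, Multiset.dedup_eq_self.2 hnodup]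
    exact h2
  have hbad : ∀ t : k, t ∈ BadT E p g r f ↔
      t ^ Nat.card E ^ (r + 1) = t ∧ (∀ i < r, t ^ Nat.card E ^ (i + 1) ≠ t) ∧ aeval t f ≠ 0 ∧
      (hw p (g + 1) ((conj k (Nat.card E) (r + 1) t *
        f.map (algebraMap E k)) ^ ((p - 1) / 2))).det = 0 := fun t => Iff.rfl
  have h1 := hP ⟨r, hr⟩ p hp hpr k n n.pos b hinj (BadT_finite E p g r f).toFinset (by
    intro τ hτ
    rw [Set.Finite.mem_toFinset, hbad, hq] at hτ
    obtain ⟨h2, h3, h4, h5⟩ := hτ
    refine ⟨h2, h3, ?_, ?_⟩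
    · intro i j _ hi
      apply h4
      have h6 : f'.eval (τ ^ (p ^ (n : ℕ)) ^ j) = 0 := by
        rw [← hprod, eval_prod]
        exact Finset.prod_eq_zero (Finset.mem_univ i) (by rw [eval_sub, eval_X, eval_C, hi, sub_self])
      rw [hf', eval_map_algebraMap, ← hq, H4_aeval] at h6
      exact eq_zero_of_pow_eq_zero h6
    · rw [hprod, hf']
      exact h5)
  rw [Set.ncard_eq_toFinset_card _ (BadT_finite E p g r f), hq]
  push_cast
  exact h1

end MPadcOA
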