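import Pool.Agent.Lib.MP_adc574_ag_OAP.R0

/-!
# Theorem A+, leaf R1: functoriality

`φ : R →+* S`. All by `map_prod`, `map_sum`, `map_mul`, `map_pow`, `Polynomial.coeff_map`, `Polynomial.derivative_map`, `map_natCast`,
`apply_ite`; for `PR` four blocks (`map_one`, `map_zero`).
-/

set_option autoImplicit false

namespace MPadcOA

open Polynomial Matrix

variable {R S : Type*} [CommRing R] [CommRing S] (φ : R →+* S) {g : ℕ} (p : ℕ) (h t : R) (a : Fin (2 * g) → R)

theorem fR_map : (fR a).map φ = fR fun j => φ (a j) := by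
  unfold fR
  rw [Polynomial.map_prod]
  refine Finset.prod_congr rfl fun j _ => ?_
  rw [Polynomial.map_sub, Polynomial.map_X, Polynomial.map_C]

theorem FR_map : (FR t a).map φ = FR (φ t) fun j => φ (a j) := by
  unfold FR
  rw [Polynomial.map_mul, fR_map, Polynomial.map_sub, Polynomial.map_X, Polynomial.map_C]

theorem UR_map (κ : Fin g) (s : Nx g) : φ (UR p t a κ s) = UR p (φ t) (fun j => φ (a j)) κ s := by
  unfold UR
  rw [← Polynomial.coeff_map, Polynomial.map_pow, FR_map]

theorem qR_map (j l : ℕ) : φ (qR t a j l) = qR (φ t) (fun j => φ (a j)) j l := by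
  have hc : ∀ i, φ ((fR a).coeff i) = (fR fun j => φ (a j)).coeff i := fun i => by
    rw [← fR_map, Polynomial.coeff_map]
  unfold qR
  split_ifs
  · rw [map_mul, map_pow, map_sum]
    refine congrArg _ (Finset.sum_congr rfl fun i _ => ?_)
    rw [map_mul, map_pow, hc]
  · rw [map_neg, map_mul, map_pow, map_sum]
    refine congrArg _ (congrArg _ (Finset.sum_congr rfl fun i _ => ?_))
    rw [map_mul, map_pow, hc]

theorem GR_map (l j : Nx g) : φ (GR h t a l j) = GR (φ h) (φ t) (fun j => φ (a j)) l j := by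
  unfold GR
  rw [map_mul, map_add, map_mul, map_pow, qR_map, ← Polynomial.coeff_map, ← Polynomial.derivative_map,
    fR_map]

theorem BR_map (i j : Nx g) : φ (BR h t a i j) = BR (φ h) (φ t) (fun j => φ (a j)) i j := by
  unfold BR
  rw [map_mul, map_mul, map_sub, map_natCast, map_natCast, ← Polynomial.coeff_map, FR_map]

theorem PR_map (i j : Nx g) : φ (PR h t a i j) = PR (φ h) (φ t) (fun j => φ (a j)) i j := by
  unfold PR
  rcases i with i | i <;> rcases j with j | j
  · rw [fromBlocks_apply₁₁, fromBlocks_apply₁₁, Matrix.one_apply, Matrix.one_apply]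
    split_ifs
    · exact map_one φ
    · exact map_zero φ
  · rw [fromBlocks_apply₁₂, fromBlocks_apply₁₂, Matrix.of_apply, Matrix.of_apply, map_mul, BR_map]
  · rw [fromBlocks_apply₂₁, fromBlocks_apply₂₁]
    exact map_zero φ
  · rw [fromBlocks_apply₂₂, fromBlocks_apply₂₂, Matrix.of_apply, Matrix.of_apply, BR_map]

/-- Congruence: PROOF. `φ = Ideal.Quotient.mk (Ideal.span {P})` (`Ideal.Quotient.eq`, `Ideal.mem_span_singleton`) and the theorems above. -/
theorem congr_R (P : R) (a' : Fin (2 * g) → R) (ha : ∀ j, P ∣ a j - a' j) :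
    (∀ κ s, P ∣ UR p t a κ s - UR p t a' κ s) ∧ (∀ l j, P ∣ GR h t a l j - GR h t a' l j) ∧
      (∀ i j, P ∣ PR h t a i j - PR h t a' i j) := by
  have he : (fun j => Ideal.Quotient.mk (Ideal.span {P}) (a j)) =
      fun j => Ideal.Quotient.mk (Ideal.span {P}) (a' j) := by
    funext j
    exact Ideal.Quotient.eq.2 (Ideal.mem_span_singleton.2 (ha j))
  refine ⟨fun κ s => ?_, fun l j => ?_, fun i j => ?_⟩
  · refine Ideal.mem_span_singleton.1 (Ideal.Quotient.eq.1 ?_)
    rw [UR_map, UR_map, he]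
  · refine Ideal.mem_span_singleton.1 (Ideal.Quotient.eq.1 ?_)
    rw [GR_map, GR_map, he]
  · refine Ideal.mem_span_singleton.1 (Ideal.Quotient.eq.1 ?_)
    rw [PR_map, PR_map, he]

end MPadcOA
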