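import Pool.Agent.Lib.MP_adc574_ag_OAP.P0
import Pool.Agent.Lib.MP_adc574_ag_OAP.E2

/-!
# Theorem A+, leaf T1: small lemmas for the twisted system
-/

set_option autoImplicit false

namespace MPadcOA

open Polynomial Matrix

variable {k : Type*} [Field k] {g : ℕ}

/-- PROOF. Field by field (`degG`, `degw`: `le_trans`; `irr`: the hypothesis for `c'` implies that for `c`). -/
theorem Ok_mono {p c c' : ℕ} (hc : c ≤ c') (D : Dat g k) (hD : D.Ok p c) : D.Ok p c' where
  inj := hD.inj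
  degG := fun i j => (hD.degG i j).trans hc
  symp := hD.symp
  nil := hD.nil
  horU := hD.horU
  isoU := hD.isoU
  rkU := hD.rkU
  horw := hD.horw
  degw := fun l => (hD.degw l).trans (Nat.add_le_add_left hc _)
  resw := hD.resw
  irr := fun b h1 h2 => hD.irr b h1 fun l => lt_of_le_of_lt (Nat.add_le_add_left hc _) (h2 l)

/-- The roots of the twisted system are constants or conjugates of `X`. -/
def Roots (q r : ℕ) (a : Fin (2 * g) → k[X]) : Prop :=
  ∀ j, (∃ b : k, a j = C b) ∨ ∃ i : Fin r, a j = X ^ (q ^ ((i : ℕ) + 1))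

/-- PROOF. Constants: `0`. `X ^ (q ^ (i + 1)) - C (α ^ (q ^ (i + 1))) = (X - C α) ^ (q ^ (i + 1))` (`sub_pow_char_pow`, `q = p ^ n`), `pow_dvd_pow`. -/
theorem Roots.dvd {p : ℕ} [Fact p.Prime] [CharP k p] {n r : ℕ} (hn : 0 < n) {a : Fin (2 * g) → k[X]}
    (ha : Roots (p ^ n) r a) (α : k) (j : Fin (2 * g)) : (X - C α) ^ (p ^ n) ∣ a j - C ((a j).eval α) := by
  rcases ha j with ⟨b, hb⟩ | ⟨i, hi⟩
  · rw [hb, eval_C, sub_self]
    exact dvd_zero _
  · have h1 : (p ^ n) ^ ((i : ℕ) + 1) = p ^ (n * ((i : ℕ) + 1)) := (pow_mul p n _).symm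
    have h2 : a j - C ((a j).eval α) = (X - C α) ^ (p ^ (n * ((i : ℕ) + 1))) := by
      rw [hi, h1, eval_pow, eval_X, C_pow, sub_pow_char_pow]
    rw [h2]
    refine pow_dvd_pow _ (Nat.pow_le_pow_right (Fact.out : p.Prime).pos ?_)
    exact Nat.le_mul_of_pos_right n (Nat.succ_pos _)

/-- PROOF. `Sp.C`, `Sp.Xq`, `Sp.mono`. -/
theorem Roots.sp {q r : ℕ} {a : Fin (2 * g) → k[X]} (ha : Roots q r a) (j : Fin (2 * g)) :
    Sp q r 1 1 (a j) := by
  rcases ha j with ⟨b, hb⟩ | ⟨i, hi⟩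
  · rw [hb]
    exact Sp.C b
  · rw [hi]
    exact Sp.Xq i

/-- PROOF. `natDegree_C`, `natDegree_X_pow`, `i + 1 ≤ r`, `Nat.pow_le_pow_right`. -/
theorem Roots.natDegree_le {q r : ℕ} (hq : 0 < q) {a : Fin (2 * g) → k[X]} (ha : Roots q r a) (j : Fin (2 * g)) :
    (a j).natDegree ≤ q ^ r := by
  rcases ha j with ⟨b, hb⟩ | ⟨i, hi⟩
  · rw [hb, natDegree_C]
    exact Nat.zero_le _
  · rw [hi, natDegree_X_pow]
    exact Nat.pow_le_pow_right hq i.2

/-- PROOF. The degree of `a j` is not `1`. -/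
theorem Roots.ne_X {q r : ℕ} (hq : 1 < q) {a : Fin (2 * g) → k[X]} (ha : Roots q r a) (j : Fin (2 * g)) :
    X - a j ≠ 0 := by
  intro h
  have h1 : (a j).natDegree = 1 := by rw [← sub_eq_zero.1 h, natDegree_X]
  rcases ha j with ⟨b, hb⟩ | ⟨i, hi⟩
  · rw [hb, natDegree_C] at h1
    exact zero_ne_one h1
  · rw [hi, natDegree_X_pow] at h1
    exact (Nat.one_lt_pow (Nat.succ_ne_zero _) hq).ne' h1

/-- The polynomial whose zeros are the bad specialisations. -/
noncomputable def bad (a : Fin (2 * g) → k[X]) : k[X] :=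
  (∏ x ∈ (Finset.univ : Finset (Fin (2 * g) × Fin (2 * g))).filter (fun x => x.1 ≠ x.2), (a x.1 - a x.2)) *
    ∏ j, (X - a j)

/-- PROOF. `mul_ne_zero`, `Finset.prod_ne_zero_iff`, `Roots.ne_X`. -/
theorem bad_ne_zero {q r : ℕ} (hq : 1 < q) {a : Fin (2 * g) → k[X]} (ha : Roots q r a)
    (hinj : Function.Injective a) : bad a ≠ 0 := by
  refine mul_ne_zero (Finset.prod_ne_zero_iff.2 fun x hx => ?_)
    (Finset.prod_ne_zero_iff.2 fun j _ => ha.ne_X hq j)
  exact sub_ne_zero.2 fun h => (Finset.mem_filter.1 hx).2 (hinj h)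

/-- PROOF. `eval_mul`, `eval_prod`, `Finset.prod_ne_zero_iff`. -/
theorem bad_eval {a : Fin (2 * g) → k[X]} {α : k} (h : (bad a).eval α ≠ 0) :
    Function.Injective (fun j => (a j).eval α) ∧ (∏ j, (X - C ((a j).eval α)) : k[X]).eval α ≠ 0 := by
  rw [bad, eval_mul, eval_prod, eval_prod] at h
  have h1 := left_ne_zero_of_mul h
  have h2 := right_ne_zero_of_mul h
  refine ⟨fun j j' hj => ?_, ?_⟩
  · by_contra hne
    have h3 := Finset.prod_ne_zero_iff.1 h1 (j, j') (Finset.mem_filter.2 ⟨Finset.mem_univ _, hne⟩)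
    rw [eval_sub] at h3
    exact h3 (sub_eq_zero.2 hj)
  · rw [eval_prod]
    refine Finset.prod_ne_zero_iff.2 fun j hj => ?_
    have h3 := Finset.prod_ne_zero_iff.1 h2 j hj
    rw [eval_sub] at h3
    rw [eval_sub, eval_C]
    exact h3

/-- ISOTROPY FROM THE SPECIALISATIONS. PROOF. Every entry of `U * JJ * Uᵀ` vanishes at every `α` with `Bad.eval α ≠ 0`: the value of `U` at `α` is that of `U'` (`(X - C α) ^ q` divides the difference, `0 < q`),
and `U' * JJ * U'ᵀ = 0`. So its product with `Bad` is zero (`Polynomial.funext`). (Values of the entries: `Matrix.map` with `evalRingHom α`, `Matrix.map_mul`, `JJ` maps to `JJ`.) -/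
theorem iso_of_spec [Infinite k] {q : ℕ} (hq : 0 < q) (U : Matrix (Fin g) (Nx g) k[X]) (Bad : k[X]) (hB : Bad ≠ 0)
    (spec : ∀ α : k, Bad.eval α ≠ 0 → ∃ U' : Matrix (Fin g) (Nx g) k[X], U' * JJ g k[X] * U'ᵀ = 0 ∧
      ∀ i l, (X - C α) ^ q ∣ U i l - U' i l) :
    U * JJ g k[X] * Uᵀ = 0 := by
  have hval : ∀ α : k, Bad.eval α ≠ 0 → (U * JJ g k[X] * Uᵀ).map (evalRingHom α) = 0 := by
    intro α hα
    obtain ⟨U', h1, h2⟩ := spec α hα
    have h3 : U.map (evalRingHom α) = U'.map (evalRingHom α) := by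
      ext i l
      obtain ⟨t, ht⟩ := h2 i l
      have h4 : (U i l - U' i l).eval α = 0 := by
        rw [ht, eval_mul, eval_pow, eval_sub, eval_X, eval_C, sub_self, zero_pow hq.ne', zero_mul]
      rw [eval_sub] at h4
      exact sub_eq_zero.1 h4
    have h5 : (U' * JJ g k[X] * U'ᵀ).map (evalRingHom α) = 0 := by
      rw [h1]
      exact Matrix.map_zero _ (map_zero _)
    rw [Matrix.map_mul, Matrix.map_mul, Matrix.transpose_map] at h5 ⊢
    rw [h3]
    exact h5
  ext1 i j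
  have h6 : Bad * (U * JJ g k[X] * Uᵀ) i j = 0 := by
    refine Polynomial.funext fun α => ?_
    rw [eval_mul, eval_zero]
    by_cases hα : Bad.eval α = 0
    · rw [hα, zero_mul]
    · have h7 := congrFun (congrFun (hval α hα) i) j
      have h8 : ((U * JJ g k[X] * Uᵀ) i j).eval α = 0 := h7
      rw [h8, mul_zero]
  exact (mul_eq_zero.1 h6).resolve_left hB

/-- CHANGE OF BASIS. PROOF. Let `Δ U' = U G` (entrywise, `hU`). `Δ (U P)' = Δ U' P + U Δ P' = U G P + Δ U P' = (U P) Q (G P + Δ P')` since `P Q = 1`. -/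
theorem hor_mul (Δ : k[X]) (U : Matrix (Fin g) (Nx g) k[X]) (G P Q : Matrix (Nx g) (Nx g) k[X]) (hPQ : P * Q = 1)
    (hU : ∀ i l, Δ * derivative (U i l) = (U * G) i l) (i : Fin g) (l : Nx g) :
    Δ * derivative ((U * P) i l) = (U * P * (Q * (G * P + Δ • P.map derivative))) i l := by
  have h1 : U * P * (Q * (G * P + Δ • P.map derivative)) = U * G * P + Δ • (U * P.map derivative) := by
    rw [← Matrix.mul_assoc, Matrix.mul_assoc U P Q, hPQ, Matrix.mul_one, Matrix.mul_add, ← Matrix.mul_assoc,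
      Matrix.mul_smul]
  rw [h1, Matrix.add_apply, Matrix.smul_apply, Matrix.mul_apply, Matrix.mul_apply, Matrix.mul_apply,
    derivative_sum, smul_eq_mul, Finset.mul_sum, Finset.mul_sum, ← Finset.sum_add_distrib]
  refine Finset.sum_congr rfl fun m _ => ?_
  rw [derivative_mul, ← hU i m, Matrix.map_apply]
  ring

end MPadcOA
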