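import Pool.Agent.Lib.MP_adc574_ag_OA.F13

/-!
# The system of the pencil is a polynomial in the roots: the closure properties

`IsU n Φ`: the polynomial `Φ a ∈ k[X]` is the value at `T = X`, `A j = C (a j)` of one polynomial in `T` and the `A j` of total degree at most `n`, for all `a`.
-/

set_option autoImplicit false

namespace MPadcOA

open Polynomial Matrix

/-- The polynomials in the moving point and the roots. -/
abbrev RU (g : ℕ) (k : Type*) [CommRing k] := MvPolynomial (Option (Fin (2 * g))) k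

/-- The values at `t = X` and at the roots `a`. -/
noncomputable def uev {k : Type*} [Field k] {g : ℕ} (a : Fin (2 * g) → k) : RU g k →ₐ[k] k[X] :=
  MvPolynomial.aeval fun o => o.elim X fun j => C (a j)

/-- `Φ a` depends polynomially on the roots `a` and on the variable, with total degree at most `n`. -/
def IsU {k : Type*} [Field k] {g : ℕ} (n : ℕ) (Φ : (Fin (2 * g) → k) → k[X]) : Prop :=
  ∃ P : RU g k, P.totalDegree ≤ n ∧ ∀ a, Φ a = uev a P

section

variable {k : Type*} [Field k] {g : ℕ} {n m : ℕ} {Φ Ψ : (Fin (2 * g) → k) → k[X]}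

/-- PROOF. The same polynomial. -/
theorem IsU.mono (h : IsU n Φ) (hnm : n ≤ m) : IsU m Φ := by
  obtain ⟨P, hP, h1⟩ := h
  exact ⟨P, hP.trans hnm, h1⟩

/-- PROOF. The constant polynomial (`algebraMap`), `aeval_C`. -/
theorem IsU.const (c : k) : IsU (g := g) 0 fun _ => C c := by
  refine ⟨MvPolynomial.C c, (MvPolynomial.totalDegree_C c).le, fun a => ?_⟩
  unfold uev
  rw [MvPolynomial.aeval_C]
  rfl

/-- PROOF. The variable `X none`, `totalDegree_X`. -/
theorem IsU.var : IsU (g := g) 1 fun _ => (X : k[X]) := by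
  refine ⟨MvPolynomial.X none, (MvPolynomial.totalDegree_X (R := k) none).le, fun a => ?_⟩
  unfold uev
  rw [MvPolynomial.aeval_X]
  rfl

/-- PROOF. The variable `X (some j)`. -/
theorem IsU.root (j : Fin (2 * g)) : IsU 1 fun a => C (a j : k) := by
  refine ⟨MvPolynomial.X (some j), (MvPolynomial.totalDegree_X (R := k) (some j)).le, fun a => ?_⟩
  unfold uev
  rw [MvPolynomial.aeval_X]
  rfl

/-- PROOF. `totalDegree_add`. -/
theorem IsU.add (hΦ : IsU n Φ) (hΨ : IsU n Ψ) : IsU n fun a => Φ a + Ψ a := by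
  obtain ⟨P, hP, h1⟩ := hΦ
  obtain ⟨Q, hQ, h2⟩ := hΨ
  refine ⟨P + Q, (MvPolynomial.totalDegree_add P Q).trans (max_le hP hQ), fun a => ?_⟩
  rw [map_add, ← h1 a, ← h2 a]

/-- PROOF. `totalDegree_neg`. -/
theorem IsU.neg (hΦ : IsU n Φ) : IsU n fun a => -Φ a := by
  obtain ⟨P, hP, h1⟩ := hΦ
  refine ⟨-P, (MvPolynomial.totalDegree_neg P).le.trans hP, fun a => ?_⟩
  rw [map_neg, ← h1 a]

/-- PROOF. `totalDegree_mul`. -/
theorem IsU.mul (hΦ : IsU n Φ) (hΨ : IsU m Ψ) : IsU (n + m) fun a => Φ a * Ψ a := by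
  obtain ⟨P, hP, h1⟩ := hΦ
  obtain ⟨Q, hQ, h2⟩ := hΨ
  refine ⟨P * Q, (MvPolynomial.totalDegree_mul P Q).trans (Nat.add_le_add hP hQ), fun a => ?_⟩
  rw [map_mul, ← h1 a, ← h2 a]

/-- The values: PROOF. `MvPolynomial.induction_on`, or `eval` composed with `aeval` (`MvPolynomial.aeval_def`, `eval₂_eq_eval_map`, `Polynomial.eval` is a ring homomorphism: two
ring homomorphisms from `MvPolynomial` which agree on the constants and on the variables, `MvPolynomial.ringHom_ext`). -/
theorem uev_eval (a : Fin (2 * g) → k) (y : k) (P : RU g k) :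
    (uev a P).eval y = MvPolynomial.eval (fun o : Option (Fin (2 * g)) => o.elim y a) P := by
  have h : (Polynomial.evalRingHom y).comp (uev a : RU g k →ₐ[k] k[X]).toRingHom =
      MvPolynomial.eval (fun o : Option (Fin (2 * g)) => o.elim y a) := by
    refine MvPolynomial.ringHom_ext (fun c => ?_) fun o => ?_
    · change (uev a (MvPolynomial.C c)).eval y = _
      unfold uev
      rw [MvPolynomial.aeval_C, MvPolynomial.eval_C]
      exact eval_C
    · change (uev a (MvPolynomial.X o)).eval y = _
      unfold uev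
      rw [MvPolynomial.aeval_X, MvPolynomial.eval_X]
      cases o with
      | none => exact eval_X
      | some j => exact eval_C
  exact RingHom.congr_fun h P

end

end MPadcOA
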