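import Pool.Agent.Lib.MP_adc574_ag_OAP.UG0

/-!
# The system of the pencil is a polynomial in the roots: sums, products
-/

set_option autoImplicit false

namespace MPadcOA

open Polynomial Matrix

section

variable {k : Type*} [Field k] {g : ℕ} {n m : ℕ} {Φ Ψ : (Fin (2 * g) → k) → k[X]}

/-- PROOF. Induction on the finite set. -/
theorem IsU.sum {ι : Type*} (s : Finset ι) {F : ι → (Fin (2 * g) → k) → k[X]} (h : ∀ i ∈ s, IsU n (F i)) :
    IsU n fun a => ∑ i ∈ s, F i a := by
  classical
  induction s using Finset.induction_on with
  | empty =>
    have h0 : IsU n fun _ : Fin (2 * g) → k => C (0 : k) := (IsU.const (0 : k)).mono (Nat.zero_le n)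
    simpa only [Finset.sum_empty, map_zero] using h0
  | insert j s hj ih =>
    have h1 := (h j (Finset.mem_insert_self j s)).add (ih fun i hi => h i (Finset.mem_insert_of_mem hi))
    simpa only [Finset.sum_insert hj] using h1

/-- PROOF. Induction on the finite set. -/
theorem IsU.prod {ι : Type*} (s : Finset ι) {F : ι → (Fin (2 * g) → k) → k[X]} (h : ∀ i ∈ s, IsU n (F i)) :
    IsU (s.card * n) fun a => ∏ i ∈ s, F i a := by
  classical
  induction s using Finset.induction_on with
  | empty =>
    have h0 : IsU (g := g) 0 fun _ => C (1 : k) := IsU.const (1 : k)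
    simpa only [Finset.prod_empty, map_one, Finset.card_empty, zero_mul] using h0
  | insert j s hj ih =>
    have h1 := (h j (Finset.mem_insert_self j s)).mul (ih fun i hi => h i (Finset.mem_insert_of_mem hi))
    have e : n + s.card * n = (insert j s).card * n := by
      rw [Finset.card_insert_of_notMem hj]
      ring
    rw [← e]
    simpa only [Finset.prod_insert hj] using h1

/-- PROOF. Induction on `m`. -/
theorem IsU.pow (h : IsU n Φ) (m : ℕ) : IsU (m * n) fun a => Φ a ^ m := by
  induction m with
  | zero =>
    have h0 : IsU (g := g) 0 fun _ => C (1 : k) := IsU.const (1 : k)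
    simpa only [pow_zero, map_one, zero_mul] using h0
  | succ m ih =>
    have h1 := ih.mul h
    have e : m * n + n = (m + 1) * n := by ring
    rw [← e]
    simpa only [pow_succ] using h1

end

end MPadcOA
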