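import Pool.Agent.Lib.MP_adc574_ag_OAP.UG0

/-!
# The system of the pencil is a polynomial in the roots: the derivative
-/

set_option autoImplicit false

namespace MPadcOA

open Polynomial Matrix

section

variable {k : Type*} [Field k] {g : ℕ} {n m : ℕ} {Φ Ψ : (Fin (2 * g) → k) → k[X]}

/-- PROOF. `pderiv none P`: `uev a (pderiv none P) = derivative (uev a P)` by induction on `P` (`MvPolynomial.induction_on`, or two derivations which
agree at the variables); the total degree does not increase: `pderiv` of a monomial is a monomial with one exponent less (`pderiv_monomial`,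
`totalDegree_le_iff` / `Finset.sup_le`, the supports). -/
theorem IsU.derivative (h : IsU n Φ) : IsU n fun a => derivative (Φ a) := by
  classical
  obtain ⟨P, hP, hPa⟩ := h
  refine ⟨MvPolynomial.pderiv none P, le_trans ?_ hP, fun a => ?_⟩
  · refine Finset.sup_le fun d hd => ?_
    rw [MvPolynomial.mem_support_iff, MvPolynomial.coeff_pderiv] at hd
    have h1 : d + Finsupp.single none 1 ∈ P.support :=
      MvPolynomial.mem_support_iff.2 (left_ne_zero_of_mul hd)
    have h2 := MvPolynomial.le_totalDegree h1
    rw [Finsupp.sum_add_index' (fun _ => rfl) (fun _ _ _ => rfl), Finsupp.sum_single_index rfl] at h2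
    exact (Nat.le_add_right _ 1).trans h2
  · dsimp only
    rw [hPa a]
    clear hPa hP
    induction P using MvPolynomial.induction_on with
    | C c =>
      have h1 : uev a (MvPolynomial.C c : RU g k) = C c := MvPolynomial.aeval_C _ _
      rw [h1, MvPolynomial.pderiv_C, map_zero, Polynomial.derivative_C]
    | add P Q hP hQ =>
      rw [map_add (uev a), Polynomial.derivative_add, hP, hQ, map_add (MvPolynomial.pderiv none),
        map_add (uev a)]
    | mul_X P o hP =>
      have h1 : uev a (MvPolynomial.X o : RU g k) = o.elim X fun j => C (a j) :=
        MvPolynomial.aeval_X _ _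
      rw [MvPolynomial.pderiv_mul, map_add (uev a), map_mul (uev a), map_mul (uev a), map_mul (uev a),
        Polynomial.derivative_mul, hP]
      congr 2
      cases o with
      | none => rw [h1, MvPolynomial.pderiv_X_self, map_one, Option.elim_none, derivative_X]
      | some j =>
        rw [h1, MvPolynomial.pderiv_X_of_ne (Option.some_ne_none j), map_zero, Option.elim_some,
          derivative_C]

end

end MPadcOA
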