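import Pool.Agent.Lib.MP_adc574_ag_OAP.UG0b

/-!
# The system of the pencil is a polynomial in the roots: `f`, `F`, `G`, `B`, `P` in the basis `x ^ j`
-/

set_option autoImplicit false

namespace MPadcOA

open Polynomial Matrix

section

variable (k : Type*) [Field k] (g : ℕ)

private theorem UG1_sub {n : ℕ} {Φ Ψ : (Fin (2 * g) → k) → k[X]} (h1 : IsU n Φ) (h2 : IsU n Ψ) :
    IsU n fun a => Φ a - Ψ a := by
  simp only [sub_eq_add_neg]
  exact h1.add h2.neg

private theorem UG1_pow (m : ℕ) : IsU (g := g) m fun _ => (X : k[X]) ^ m := by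
  have h := (IsU.var (k := k) (g := g)).pow m
  rw [mul_one] at h
  exact h

private theorem UG1_coeff (s : Finset (Fin (2 * g))) : ∀ i : ℕ,
    IsU s.card fun a : Fin (2 * g) → k => C ((∏ j ∈ s, (X - C (a j))).coeff i) := by
  classical
  refine Finset.induction_on s ?_ ?_
  · intro i
    simp only [Finset.prod_empty, Finset.card_empty]
    exact IsU.const _
  · intro b s hb ih i
    rw [Finset.card_insert_of_notMem hb]
    simp only [Finset.prod_insert hb]
    cases i with
    | zero =>
      have h1 : (fun a : Fin (2 * g) → k => C (((X - C (a b)) * ∏ j ∈ s, (X - C (a j))).coeff 0)) =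
          fun a => -(C ((∏ j ∈ s, (X - C (a j))).coeff 0) * C (a b)) := by
        funext a
        rw [mul_coeff_zero, coeff_sub, coeff_X_zero, coeff_C_zero, zero_sub, neg_mul, C_neg, C_mul,
          mul_comm]
      rw [h1]
      exact ((ih 0).mul (IsU.root b)).neg
    | succ i =>
      have h1 : (fun a : Fin (2 * g) → k => C (((X - C (a b)) * ∏ j ∈ s, (X - C (a j))).coeff (i + 1))) =
          fun a => C ((∏ j ∈ s, (X - C (a j))).coeff i) -
            C ((∏ j ∈ s, (X - C (a j))).coeff (i + 1)) * C (a b) := by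
        funext a
        rw [sub_mul, coeff_sub, coeff_X_mul, coeff_C_mul, C_sub, C_mul, mul_comm (C (a b))]
      rw [h1]
      exact UG1_sub k g ((ih i).mono (Nat.le_succ _)) ((ih (i + 1)).mul (IsU.root b))

/-- PROOF. `ff a = ∏ (X - C (a j))`: a product of `2 g` factors of degree `1`. -/
theorem isU_ff : IsU (2 * g) fun a : Fin (2 * g) → k => ff a := by
  have h : ∀ j ∈ (Finset.univ : Finset (Fin (2 * g))), IsU 1 fun a : Fin (2 * g) → k => (X - C (a j) : k[X]) := by
    intro j _
    exact UG1_sub k g IsU.var (IsU.root j)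
  have h2 := IsU.prod Finset.univ h
  rw [Finset.card_univ, Fintype.card_fin, mul_one] at h2
  exact h2

/-- PROOF. For a finite set `s`, `∀ i, IsU s.card fun a => C ((∏ j ∈ s, (X - C (a j))).coeff i)`, induction on `s`: `coeff ((X - C b) * P) (i + 1) =
coeff P i - b * coeff P (i + 1)` and `coeff ((X - C b) * P) 0 = - b * coeff P 0`. -/
theorem isU_ff_coeff (i : ℕ) : IsU (2 * g) fun a : Fin (2 * g) → k => C ((ff a).coeff i) := by
  have h := UG1_coeff k g Finset.univ i
  rw [Finset.card_univ, Fintype.card_fin] at h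
  exact h

/-- PROOF. `FF_coeff`; `mul_coeff_zero` for `n = 0`. -/
theorem isU_FF_coeff (n : ℕ) : IsU (2 * g + 1) fun a : Fin (2 * g) → k => (FF a).coeff n := by
  cases n with
  | zero =>
    have h1 : (fun a : Fin (2 * g) → k => (FF a).coeff 0) = fun a => -(X * C ((ff a).coeff 0)) := by
      funext a
      unfold FF fx
      rw [mul_coeff_zero, coeff_sub, coeff_X_zero, coeff_C_zero, coeff_map, zero_sub, neg_mul]
    rw [h1]
    exact ((IsU.var.mul (isU_ff_coeff k g 0)).neg).mono (by omega)
  | succ n =>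
    have h1 : (fun a : Fin (2 * g) → k => (FF a).coeff (n + 1)) =
        fun a => C ((ff a).coeff n) - X * C ((ff a).coeff (n + 1)) := by
      funext a
      exact FF_coeff a n
    rw [h1]
    exact UG1_sub k g ((isU_ff_coeff k g n).mono (by omega))
      ((IsU.var.mul (isU_ff_coeff k g (n + 1))).mono (by omega))

/-- PROOF. `qq_coeff` and `isU_ff_coeff`. -/
theorem isU_qq_coeff {j l : ℕ} (hj : j < 2 * g) (hl : l < 2 * g) :
    IsU (6 * g) fun a : Fin (2 * g) → k => (qq a j).coeff l := by
  have h1 : (fun a : Fin (2 * g) → k => (qq a j).coeff l) = fun a =>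
      if l < j then X ^ (j - l - 1) * ∑ i ∈ Finset.range (l + 1), C ((ff a).coeff i) * X ^ i
      else -(X ^ j * ∑ i ∈ Finset.Icc (l + 1) (2 * g), C ((ff a).coeff i) * X ^ (i - l - 1)) := by
    funext a
    exact qq_coeff a j l
  rw [h1]
  by_cases h : l < j
  · simp only [if_pos h]
    have h2 : IsU (2 * g + l) fun a : Fin (2 * g) → k =>
        ∑ i ∈ Finset.range (l + 1), C ((ff a).coeff i) * X ^ i := by
      refine IsU.sum (F := fun i a => C ((ff a).coeff i) * X ^ i) _ fun i hi => ?_
      rw [Finset.mem_range] at hi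
      exact ((isU_ff_coeff k g i).mul (UG1_pow k g i)).mono (by omega)
    exact ((UG1_pow k g (j - l - 1)).mul h2).mono (by omega)
  · simp only [if_neg h]
    have h2 : IsU (2 * g + 2 * g) fun a : Fin (2 * g) → k =>
        ∑ i ∈ Finset.Icc (l + 1) (2 * g), C ((ff a).coeff i) * X ^ (i - l - 1) := by
      refine IsU.sum (F := fun i a => C ((ff a).coeff i) * X ^ (i - l - 1)) _ fun i hi => ?_
      rw [Finset.mem_Icc] at hi
      exact ((isU_ff_coeff k g i).mul (UG1_pow k g (i - l - 1))).mono (by omega)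
    exact (((UG1_pow k g j).mul h2).neg).mono (by omega)

/-- PROOF. `coeff_C_mul`, `coeff_add`; `(derivative (fx a)).coeff l = C ((l + 1) * (ff a).coeff (l + 1))` (`coeff_derivative`, `fx`, `coeff_map`), `isU_qq_coeff`,
`nu l, nu j < 2 g` (`nu_lt`). -/
theorem isU_Gx (l j : Nx g) : IsU (6 * g) fun a : Fin (2 * g) → k => Gx a l j := by
  have hl := nu_lt l
  have hj := nu_lt j
  have h1 : (fun a : Fin (2 * g) → k => Gx a l j) = fun a =>
      C (1 / 2 : k) * (X ^ nu j * (C ((ff a).coeff (nu l + 1)) * C ((nu l : k) + 1)) +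
        (qq a (nu j)).coeff (nu l)) := by
    funext a
    unfold Gx
    rw [coeff_add, coeff_C_mul, coeff_derivative, fx, coeff_map, C_add, C_1, C_eq_natCast]
  rw [h1]
  exact ((IsU.const (1 / 2 : k)).mul
    (((((UG1_pow k g (nu j)).mul ((isU_ff_coeff k g (nu l + 1)).mul (IsU.const ((nu l : k) + 1)))).mono
      (show nu j + (2 * g + 0) ≤ 6 * g by omega))).add (isU_qq_coeff k g hj hl))).mono (by omega)

/-- PROOF. `isU_FF_coeff`. -/
theorem isU_Bx (i j : Nx g) : IsU (2 * g + 1) fun a : Fin (2 * g) → k => Bx a i j := by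
  exact ((IsU.const (((nu i : k) - (nu j : k)) / 2)).mul
    (isU_FF_coeff k g (nu i + nu j + 2))).mono (by omega)

/-- PROOF. Four blocks. -/
theorem isU_Px (i j : Nx g) : IsU (2 * g + 1) fun a : Fin (2 * g) → k => Px a i j := by
  rcases i with i | i <;> rcases j with j | j
  · by_cases h : i = j
    · have h1 : (fun a : Fin (2 * g) → k => Px a (Sum.inl i) (Sum.inl j)) = fun _ => C (1 : k) := by
        funext a
        unfold Px
        rw [fromBlocks_apply₁₁, h, one_apply_eq, C_1]
      rw [h1]
      exact (IsU.const 1).mono (Nat.zero_le _)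
    · have h1 : (fun a : Fin (2 * g) → k => Px a (Sum.inl i) (Sum.inl j)) = fun _ => C (0 : k) := by
        funext a
        unfold Px
        rw [fromBlocks_apply₁₁, one_apply_ne h, C_0]
      rw [h1]
      exact (IsU.const 0).mono (Nat.zero_le _)
  · exact ((IsU.const (1 / 2 : k)).mul (isU_Bx k g (Sum.inl j) (Sum.inl i))).mono (by omega)
  · have h1 : (fun a : Fin (2 * g) → k => Px a (Sum.inr i) (Sum.inl j)) = fun _ => C (0 : k) := by
      funext a
      unfold Px
      rw [fromBlocks_apply₂₁, Matrix.zero_apply, C_0]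
    rw [h1]
    exact (IsU.const 0).mono (Nat.zero_le _)
  · exact isU_Bx k g (Sum.inl j) (Sum.inr i)

end

end MPadcOA
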