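import Pool.Agent.Lib.MP_adc574_ag_OAP.UG1
import Pool.Agent.Lib.MP_adc574_ag_OAP.UG0c

/-!
# The system of the pencil is a polynomial in the roots: the inverse of `P`
-/

set_option autoImplicit false

namespace MPadcOA

open Polynomial Matrix

section

variable {k : Type*} [Field k] {g : ℕ}

private theorem UG2_B {p : ℕ} [CharP k p] (hp : p.Prime) (a : Fin (2 * g) → k) {i j : Nx g} (h : nu i + nu j + 1 = 2 * g) :
    Bx a i j = C (((nu i : k) - (nu j : k)) / 2) := by
  have h1 : (FF a).coeff (nu i + nu j + 2) = 1 := by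
    have h2 : nu i + nu j + 2 = (FF a).natDegree := by
      rw [(FF_monic a).2]
      omega
    rw [h2]
    exact (FF_monic a).1.coeff_natDegree
  unfold Bx
  rw [h1, mul_one]

private theorem UG2_card : Fintype.card (Nx g) = 2 * g := by
  rw [Fintype.card_sum, Fintype.card_fin, two_mul]

/-- PROOF. `det_apply`, `IsU.sum`, `IsU.prod` (the sign is `1` or `-1`). -/
theorem IsU.det {n : ℕ} {M : (Fin (2 * g) → k) → Matrix (Nx g) (Nx g) k[X]}
    (h : ∀ i j, IsU n fun a => M a i j) : IsU (2 * g * n) fun a => (M a).det := by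
  have h1 : (fun a => (M a).det) = fun a => ∑ σ : Equiv.Perm (Nx g), Equiv.Perm.sign σ • ∏ i, M a (σ i) i := by
    funext a
    rw [Matrix.det_apply]
  rw [h1]
  refine IsU.sum _ fun σ _ => ?_
  have h2 : IsU (2 * g * n) fun a => ∏ i, M a (σ i) i := by
    have h3 := IsU.prod (n := n) (Finset.univ : Finset (Nx g)) (F := fun i a => M a (σ i) i) fun i _ => h _ _
    rwa [Finset.card_univ, UG2_card] at h3
  rcases Int.units_eq_one_or (Equiv.Perm.sign σ) with h4 | h4
  · have h5 : (fun a => Equiv.Perm.sign σ • ∏ i, M a (σ i) i) = fun a => ∏ i, M a (σ i) i := by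
      funext a
      rw [h4, one_smul]
    rw [h5]
    exact h2
  · have h5 : (fun a => Equiv.Perm.sign σ • ∏ i, M a (σ i) i) = fun a => -∏ i, M a (σ i) i := by
      funext a
      rw [h4, Units.neg_smul, one_smul]
    rw [h5]
    exact h2.neg

/-- PROOF. As in `Px_unit`: the determinant is the one of the lower right block, which is zero below the antidiagonal, with the constant entries
`C ((nu i - nu j) / 2)`, `nu i + nu j + 1 = 2 g`, on it; so (as in `isUnit_antitri`) the determinant is the sign of `Fin.revPerm` times the product of these entries,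
the same for all `a`. (Or: `IsUnit` by `Px_unit`, so `= C u`, and `u` is the value of this formula.) -/
theorem det_Px_const {p : ℕ} [CharP k p] (hp : p.Prime) (hp2 : 2 < p) (hpg : 2 * g < p) :
    ∃ u : k, u ≠ 0 ∧ ∀ a : Fin (2 * g) → k, (Px a).det = C u := by
  obtain ⟨v, hv⟩ : ∃ v : k, v = ∏ i : Fin g, (((nu (Sum.inl i : Nx g) : k) - (nu (Sum.inr (Fin.rev i) : Nx g) : k)) / 2) :=
    ⟨_, rfl⟩
  obtain ⟨u, hu⟩ : ∃ u : k, u = (((Equiv.Perm.sign (Fin.revPerm : Equiv.Perm (Fin g)) : ℤˣ) : ℤ) : k) * v := ⟨_, rfl⟩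
  have hdet : ∀ a : Fin (2 * g) → k, (Px a).det = C u := by
    intro a
    unfold Px
    rw [Matrix.det_fromBlocks_zero₂₁, Matrix.det_one, one_mul]
    obtain ⟨M, hM⟩ : ∃ M : Matrix (Fin g) (Fin g) k[X], M = Matrix.of fun j i => Bx a (Sum.inl i) (Sum.inr j) := ⟨_, rfl⟩
    rw [← hM]
    have h2 : (M.submatrix (Fin.revPerm : Equiv.Perm (Fin g)) id).det = ∏ i, M (Fin.rev i) i := by
      rw [Matrix.det_of_lowerTriangular]
      · rfl
      · intro i j hij
        have hij' : i < j := OrderDual.toDual_lt_toDual.1 hij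
        have h3 : (i : ℕ) < j := hij'
        show M (Fin.rev i) j = 0
        rw [hM]
        show Bx a (Sum.inl j) (Sum.inr (Fin.rev i)) = 0
        apply Bx_zero
        show 2 * g ≤ (j : ℕ) + (g + ((Fin.rev i : Fin g) : ℕ))
        rw [Fin.val_rev]
        omega
    have h3 : ∏ i, M (Fin.rev i) i = C v := by
      rw [hv, map_prod]
      refine Finset.prod_congr rfl fun i _ => ?_
      rw [hM]
      show Bx a (Sum.inl i) (Sum.inr (Fin.rev i)) = _
      refine UG2_B hp a ?_
      show (i : ℕ) + (g + ((Fin.rev i : Fin g) : ℕ)) + 1 = 2 * g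
      have := i.2
      rw [Fin.val_rev]
      omega
    rw [h3, Matrix.det_permute] at h2
    have h4 : ∀ e : ℤˣ, ∀ x y : k[X], ((e : ℤ) : k[X]) * x = y → x = ((e : ℤ) : k[X]) * y := by
      intro e x y hxy
      rcases Int.units_eq_one_or e with h5 | h5
      · rw [h5] at hxy ⊢
        push_cast at hxy ⊢
        rw [one_mul] at hxy ⊢
        exact hxy
      · rw [h5] at hxy ⊢
        push_cast at hxy ⊢
        rw [← hxy]
        ring
    rw [h4 _ _ _ h2, hu, C_mul]
    congr 1
  refine ⟨u, ?_, hdet⟩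
  have h1 := Px_unit (fun _ => (0 : k)) hp hp2 hpg
  rw [hdet] at h1
  exact isUnit_iff_ne_zero.1 (isUnit_C.1 h1)

/-- PROOF. `Qx a = (Px a)⁻¹ = Ring.inverse (det) • adjugate = C u⁻¹ • adjugate (Px a)` (`Matrix.inv_def`, `Ring.inverse_unit`), `Matrix.adjugate_apply`: the
determinant of `(Px a).updateRow j (Pi.single i 1)`, `IsU.det`. -/
theorem isU_Qx {p : ℕ} [CharP k p] (hp : p.Prime) (hp2 : 2 < p) (hpg : 2 * g < p) (i j : Nx g) :
    IsU (2 * g * (2 * g + 1)) fun a : Fin (2 * g) → k => Qx a i j := by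
  obtain ⟨u, hu, hdet⟩ := det_Px_const (k := k) hp hp2 hpg
  have h1 : ∀ a : Fin (2 * g) → k, Qx a i j = C u⁻¹ * ((Px a).updateRow j (Pi.single i 1)).det := by
    intro a
    obtain ⟨hPQ, -, -⟩ := Qx_spec a hp hp2 hpg
    have h2 : (Px a).det • Qx a = (Px a).adjugate := by
      rw [← Matrix.one_mul (Qx a), ← Matrix.smul_mul, ← Matrix.adjugate_mul, Matrix.mul_assoc, hPQ, Matrix.mul_one]
    have h3 := congrFun (congrFun h2 i) j
    rw [Matrix.smul_apply, smul_eq_mul, hdet, Matrix.adjugate_apply] at h3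
    rw [← h3, ← mul_assoc, ← C_mul, inv_mul_cancel₀ hu, C_1, one_mul]
  have h4 : (fun a : Fin (2 * g) → k => Qx a i j) = fun a => C u⁻¹ * ((Px a).updateRow j (Pi.single i 1)).det := funext h1
  rw [h4]
  have h5 : IsU (2 * g * (2 * g + 1)) fun a : Fin (2 * g) → k => ((Px a).updateRow j (Pi.single i 1)).det := by
    refine IsU.det fun r c => ?_
    by_cases hr : r = j
    · have h6 : (fun a : Fin (2 * g) → k => (Px a).updateRow j (Pi.single i 1) r c) =
          fun _ => C ((Pi.single i 1 : Nx g → k) c) := by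
        funext a
        rw [hr, Matrix.updateRow_self]
        by_cases hc : c = i
        · rw [hc, Pi.single_eq_same, Pi.single_eq_same, C_1]
        · rw [Pi.single_eq_of_ne hc, Pi.single_eq_of_ne hc, C_0]
      rw [h6]
      exact (IsU.const _).mono (Nat.zero_le _)
    · have h6 : (fun a : Fin (2 * g) → k => (Px a).updateRow j (Pi.single i 1) r c) = fun a => Px a r c := by
        funext a
        rw [Matrix.updateRow_ne hr]
      rw [h6]
      exact isU_Px k g r c
  have h7 := (IsU.const (g := g) (u⁻¹ : k)).mul h5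
  rwa [zero_add] at h7

/-- The bound of the total degree. -/
def NG (g : ℕ) : ℕ := 2 * g * (2 * g + 1) + (8 * g + 1)

/-- PROOF. `(famD p a).G = Qx a * (Gx a * Px a + ff a • (Px a).map derivative)`: entries, the previous theorems (`6 g + (2 g + 1)`, `2 g + (2 g + 1)`); then `choose`. -/
theorem univ_G {p : ℕ} [CharP k p] (hp : p.Prime) (hp2 : 2 < p) (hpg : 2 * g < p) :
    ∃ GG : Matrix (Nx g) (Nx g) (RU g k), (∀ i j, (GG i j).totalDegree ≤ NG g) ∧
      ∀ (a : Fin (2 * g) → k) (i j : Nx g), (famD p a).G i j = uev a (GG i j) := by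
  have h1 : ∀ i j : Nx g, IsU (NG g) fun a : Fin (2 * g) → k => (famD p a).G i j := by
    intro i j
    have h2 : (fun a : Fin (2 * g) → k => (famD p a).G i j) = fun a => ∑ l, Qx a i l *
        ((∑ m, Gx a l m * Px a m j) + ff a * derivative (Px a l j)) := by
      funext a
      show (Qx a * (Gx a * Px a + ff a • (Px a).map derivative)) i j = _
      rw [Matrix.mul_apply]
      refine Finset.sum_congr rfl fun l _ => ?_
      rw [Matrix.add_apply, Matrix.mul_apply, Matrix.smul_apply, Matrix.map_apply, smul_eq_mul]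
    rw [h2]
    refine IsU.sum _ fun l _ => ?_
    unfold NG
    refine (isU_Qx hp hp2 hpg i l).mul ?_
    refine IsU.add ?_ ?_
    · refine IsU.sum _ fun m _ => ?_
      exact ((isU_Gx k g l m).mul (isU_Px k g m j)).mono (by omega)
    · exact ((isU_ff k g).mul (isU_Px k g l j).derivative).mono (by omega)
  choose GG h3 h4 using h1
  exact ⟨GG, h3, fun a i j => h4 i j a⟩

end

end MPadcOA
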