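import Pool.Agent.Lib.MP_adc574_ag_OA.F13
import Pool.Agent.Lib.MP_adc574_ag_OAP.R1
import Pool.Agent.Lib.MP_adc574_ag_OAP.R2
import Pool.Agent.Lib.MP_adc574_ag_OAP.T1

/-!
# Theorem A+, even degree: definitions

The curve `y² = F(x)`, `F = (x - t) (x - z) ∏ (x - a j)` of degree `2 g + 2`, `j < 2 g`: the root `z` is moved to infinity, `x = z + 1 / x'`. With
`w = t - z`, `κ j = a j - z` the new curve is `y² = (x' - 1 / w) ∏ (x' - 1 / κ j)`. Everything is homogenised: `FH = (w x - 1) ∏ (κ j x - 1)` is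
`W` times the new polynomial, `W = w ∏ κ j`, and `UE = W ^ ((p - 1) / 2) UH PH` is `W ^ p` times the frame of the system `famD p (κ⁻¹)` at `1 / w`.

`hgm N v P`: the polynomial `(∏ v o) ^ N * P(1 / v)`, all exponents of `P` at most `N`. `badE`: the polynomial whose zeros are the points where two of the roots agree.
-/

set_option autoImplicit false

namespace MPadcOA

open Polynomial Matrix

section

variable {R : Type*} [CommRing R] {g : ℕ} (p : ℕ) (h w : R) (κ : Fin (2 * g) → R)

/-- `w ∏ κ j` -/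
def WH : R := w * ∏ j, κ j

/-- `(w x - 1) ∏ (κ j x - 1)` -/
noncomputable def FH : R[X] := (C w * X - 1) * ∏ j, (C (κ j) * X - 1)

/-- The homogenised frame in the basis `x ^ j`. -/
noncomputable def UH : Matrix (Fin g) (Nx g) R :=
  fun i s => (FH w κ ^ ((p - 1) / 2)).coeff (p * ((i : ℕ) + 1) - (nu s + 1))

/-- The matrix of the homogenised form. -/
noncomputable def BH : Matrix (Nx g) (Nx g) R :=
  fun i j => ((nu i : R) - (nu j : R)) * h * (FH w κ).coeff (nu i + nu j + 2)

/-- The homogenised symplectic basis. -/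
noncomputable def PH : Matrix (Nx g) (Nx g) R :=
  fromBlocks (WH w κ • 1) (Matrix.of fun j i => h * BH h w κ (Sum.inl i) (Sum.inl j)) 0
    (Matrix.of fun j i => BH h w κ (Sum.inl i) (Sum.inr j))

/-- The homogenised frame. -/
noncomputable def UE : Matrix (Fin g) (Nx g) R :=
  WH w κ ^ ((p - 1) / 2) • (UH p w κ * PH h w κ)

end

/-- `(∏ v o) ^ N * P(1 / v)` -/
noncomputable def hgm {k : Type*} [Field k] {σ : Type*} [Fintype σ] (N : ℕ) (v : σ → k[X])
    (P : MvPolynomial σ k) : k[X] :=
  ∑ e ∈ P.support, C (P.coeff e) * ∏ o, v o ^ (N - e o)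

/-- The polynomial whose zeros are the bad specialisations. -/
noncomputable def badE {k : Type*} [Field k] {g : ℕ} (a : Fin (2 * g) → k[X]) (z : k[X]) : k[X] :=
  bad a * ((X - z) * ∏ j, (a j - z))

/-- The inverses of the differences at `α`. -/
noncomputable def kap {k : Type*} [Field k] {g : ℕ} (a : Fin (2 * g) → k[X]) (z : k[X]) (α : k) :
    Fin (2 * g) → k :=
  fun j => ((a j).eval α - z.eval α)⁻¹

/-- The frame of the specialisation at `α`. -/
noncomputable def UA {k : Type*} [Field k] {g : ℕ} (p : ℕ) (a : Fin (2 * g) → k[X]) (z : k[X]) (α : k) :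
    Matrix (Fin g) (Nx g) k[X] :=
  fun i l => C ((∏ j, ((a j).eval α - z.eval α)) ^ p) *
    (((famD p (kap a z α)).U i l).reflect p).comp (X - C (z.eval α))

/-- The variables: `w = X - z` and `κ j = a j - z`. -/
noncomputable def vv {k : Type*} [Field k] {g : ℕ} (a : Fin (2 * g) → k[X]) (z : k[X]) :
    Option (Fin (2 * g)) → k[X] :=
  fun o => o.elim (X - z) fun j => a j - z

end MPadcOA
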