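import Pool.Agent.Lib.MP_adc574_ag_OAP.V0

/-!
# Theorem A+, even degree, leaf V1: functoriality

MODEL: leaf R1 (`UR_map`, `PR_map`, `congr_R`), the same proofs.
-/

set_option autoImplicit false

namespace MPadcOA

open Polynomial Matrix

variable {R S : Type*} [CommRing R] [CommRing S] (φ : R →+* S) {g : ℕ} (p : ℕ) (h w : R) (κ : Fin (2 * g) → R)

/-- PROOF. `map_mul`, `map_prod`. -/
theorem WH_map : φ (WH w κ) = WH (φ w) fun j => φ (κ j) := by
  unfold WH
  rw [map_mul, map_prod]

/-- PROOF. `Polynomial.map_mul`, `Polynomial.map_prod`, `map_sub`, `map_C`, `map_X`. -/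
theorem FH_map : (FH w κ).map φ = FH (φ w) fun j => φ (κ j) := by
  unfold FH
  rw [Polynomial.map_mul, Polynomial.map_prod, Polynomial.map_sub, Polynomial.map_mul, Polynomial.map_C,
    Polynomial.map_X, Polynomial.map_one]
  refine congrArg _ (Finset.prod_congr rfl fun j _ => ?_)
  rw [Polynomial.map_sub, Polynomial.map_mul, Polynomial.map_C, Polynomial.map_X, Polynomial.map_one]

private theorem V1_UH_map (i : Fin g) (s : Nx g) : φ (UH p w κ i s) = UH p (φ w) (fun j => φ (κ j)) i s := by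
  unfold UH
  rw [← Polynomial.coeff_map, Polynomial.map_pow, FH_map]

private theorem V1_BH_map (i j : Nx g) : φ (BH h w κ i j) = BH (φ h) (φ w) (fun j => φ (κ j)) i j := by
  unfold BH
  rw [map_mul, map_mul, map_sub, map_natCast, map_natCast, ← Polynomial.coeff_map, FH_map]

private theorem V1_PH_map (i j : Nx g) : φ (PH h w κ i j) = PH (φ h) (φ w) (fun j => φ (κ j)) i j := by
  unfold PH
  rcases i with i | i <;> rcases j with j | j
  · rw [fromBlocks_apply₁₁, fromBlocks_apply₁₁, Matrix.smul_apply, Matrix.smul_apply, smul_eq_mul, smul_eq_mul,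
      map_mul, WH_map, Matrix.one_apply, Matrix.one_apply]
    refine congrArg _ ?_
    split_ifs
    · exact map_one φ
    · exact map_zero φ
  · rw [fromBlocks_apply₁₂, fromBlocks_apply₁₂, Matrix.of_apply, Matrix.of_apply, map_mul, V1_BH_map]
  · rw [fromBlocks_apply₂₁, fromBlocks_apply₂₁]
    exact map_zero φ
  · rw [fromBlocks_apply₂₂, fromBlocks_apply₂₂, Matrix.of_apply, Matrix.of_apply, V1_BH_map]

/-- PROOF. `coeff_map`, `Polynomial.map_pow`; `map_natCast`; four blocks; `Matrix.mul_apply`, `map_sum`. -/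
theorem UE_map (i : Fin g) (l : Nx g) :
    φ (UE p h w κ i l) = UE p (φ h) (φ w) (fun j => φ (κ j)) i l := by
  unfold UE
  rw [Matrix.smul_apply, Matrix.smul_apply, smul_eq_mul, smul_eq_mul, map_mul, map_pow, WH_map, Matrix.mul_apply,
    Matrix.mul_apply, map_sum]
  refine congrArg _ (Finset.sum_congr rfl fun s _ => ?_)
  rw [map_mul, V1_UH_map, V1_PH_map]

/-- Congruence: PROOF. `φ = Ideal.Quotient.mk (Ideal.span {P})` (`Ideal.Quotient.eq`, `Ideal.mem_span_singleton`) and `UE_map`. -/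
theorem congr_UE (P w' : R) (κ' : Fin (2 * g) → R) (hw : P ∣ w - w') (hκ : ∀ j, P ∣ κ j - κ' j)
    (i : Fin g) (l : Nx g) : P ∣ UE p h w κ i l - UE p h w' κ' i l := by
  have hw2 : Ideal.Quotient.mk (Ideal.span {P}) w = Ideal.Quotient.mk (Ideal.span {P}) w' :=
    Ideal.Quotient.eq.2 (Ideal.mem_span_singleton.2 hw)
  have he : (fun j => Ideal.Quotient.mk (Ideal.span {P}) (κ j)) =
      fun j => Ideal.Quotient.mk (Ideal.span {P}) (κ' j) := by
    funext j
    exact Ideal.Quotient.eq.2 (Ideal.mem_span_singleton.2 (hκ j))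
  refine Ideal.mem_span_singleton.1 (Ideal.Quotient.eq.1 ?_)
  rw [UE_map, UE_map, hw2, he]

end MPadcOA
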