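import Pool.Agent.Lib.MP_adc574_ag_OAP.V0

/-!
# Theorem A+, even degree, leaf V2: the homogenised frame over a field
-/

set_option autoImplicit false

namespace MPadcOA

open Polynomial Matrix

variable {k : Type*} [Field k] {g : ℕ} (p : ℕ) (w : k) (κ : Fin (2 * g) → k)

/-- PROOF. `C w * X - 1 = C w * (X - C w⁻¹)`, `Finset.prod_mul_distrib`, `map_prod` (`C` of a product). -/
theorem FH_inv (hw : w ≠ 0) (hκ : ∀ j, κ j ≠ 0) :
    FH w κ = C (WH w κ) * FR w⁻¹ fun j => (κ j)⁻¹ := by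
  have h1 : ∀ x : k, x ≠ 0 → (C x * X - 1 : k[X]) = C x * (X - C x⁻¹) := by
    intro x hx
    rw [mul_sub, ← C_mul, mul_inv_cancel₀ hx, C_1]
  unfold FH FR fR WH
  rw [h1 w hw, Finset.prod_congr rfl fun j _ => h1 (κ j) (hκ j), Finset.prod_mul_distrib, C_mul,
    map_prod]
  ring

/-- The frame of `famD` at `y`. PROOF. `(famD p a).U = Ux p a * Px a` (`rfl`); `UR_C`, `PR_C` and `UR_map`, `PR_map` for `evalRingHom y : k[X] →+* k`
(`eval_X`, `eval_C`), `Matrix.mul_apply`, `eval_finsetSum`, `eval_mul`. -/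
theorem famD_U_eval (a : Fin (2 * g) → k) (y : k) (i : Fin g) (l : Nx g) :
    ((famD p a).U i l).eval y = (UR p y a * PR (1 / 2 : k) y a) i l := by
  have h1 : ∀ s : Nx g, (Ux p a i s).eval y = UR p y a i s := by
    intro s
    have h2 := UR_map (evalRingHom y) p (X : k[X]) (fun j => C (a j)) i s
    rw [UR_C] at h2
    simp only [coe_evalRingHom, eval_X, eval_C] at h2
    exact h2
  have h3 : ∀ s : Nx g, (Px a s l).eval y = PR (1 / 2 : k) y a s l := by
    intro s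
    have h2 := PR_map (evalRingHom y) (C (1 / 2 : k)) (X : k[X]) (fun j => C (a j)) s l
    rw [PR_C] at h2
    simp only [coe_evalRingHom, eval_X, eval_C] at h2
    exact h2
  show ((Ux p a * Px a) i l).eval y = _
  rw [Matrix.mul_apply, Matrix.mul_apply, eval_finsetSum]
  refine Finset.sum_congr rfl fun s _ => ?_
  rw [eval_mul, h1, h3]

/-- PROOF. `FH_inv`: `UH = WH ^ ((p - 1) / 2) • UR p w⁻¹ κ⁻¹`, `BH = WH • BR`, `PH = WH • PR` (four blocks), so `UE = WH ^ ((p - 1) / 2 + (p - 1) / 2 + 1) • (UR * PR)`,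
and the exponent is `p` (`p` odd); `famD_U_eval`. -/
theorem UE_inv (hp : Odd p) (hw : w ≠ 0) (hκ : ∀ j, κ j ≠ 0) (i : Fin g) (l : Nx g) :
    UE p (1 / 2 : k) w κ i l =
      WH w κ ^ p * ((famD p fun j => (κ j)⁻¹).U i l).eval w⁻¹ := by
  have hFH := FH_inv w κ hw hκ
  have hU : ∀ s : Nx g, UH p w κ i s = WH w κ ^ ((p - 1) / 2) *
      UR p w⁻¹ (fun j => (κ j)⁻¹) i s := by
    intro s
    show (FH w κ ^ ((p - 1) / 2)).coeff _ = _
    rw [hFH, mul_pow, ← C_pow, coeff_C_mul]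
    rfl
  have hB : ∀ s t : Nx g, BH (1 / 2 : k) w κ s t = WH w κ *
      BR (1 / 2 : k) w⁻¹ (fun j => (κ j)⁻¹) s t := by
    intro s t
    show ((nu s : k) - (nu t : k)) * (1 / 2) * (FH w κ).coeff (nu s + nu t + 2) =
      WH w κ * (((nu s : k) - (nu t : k)) * (1 / 2) *
        (FR w⁻¹ fun j => (κ j)⁻¹).coeff (nu s + nu t + 2))
    rw [hFH, coeff_C_mul]
    ring
  have hP : ∀ s : Nx g, PH (1 / 2 : k) w κ s l = WH w κ *
      PR (1 / 2 : k) w⁻¹ (fun j => (κ j)⁻¹) s l := by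
    intro s
    rcases s with s | s <;> rcases l with l | l
    · show (WH w κ • (1 : Matrix (Fin g) (Fin g) k)) s l =
        WH w κ * (1 : Matrix (Fin g) (Fin g) k) s l
      rfl
    · show (1 / 2 : k) * BH (1 / 2 : k) w κ (Sum.inl l) (Sum.inl s) =
        WH w κ * ((1 / 2 : k) * BR (1 / 2 : k) w⁻¹ (fun j => (κ j)⁻¹) (Sum.inl l) (Sum.inl s))
      rw [hB]
      ring
    · show (0 : k) = WH w κ * 0
      rw [mul_zero]
    · exact hB _ _
  have hprod : (UH p w κ * PH (1 / 2 : k) w κ) i l = WH w κ ^ ((p - 1) / 2) * (WH w κ *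
      (UR p w⁻¹ (fun j => (κ j)⁻¹) * PR (1 / 2 : k) w⁻¹ (fun j => (κ j)⁻¹)) i l) := by
    rw [Matrix.mul_apply, Matrix.mul_apply, Finset.mul_sum, Finset.mul_sum]
    refine Finset.sum_congr rfl fun s _ => ?_
    rw [hU, hP]
    ring
  have hexp : WH w κ ^ p = WH w κ ^ ((p - 1) / 2) * (WH w κ ^ ((p - 1) / 2) * WH w κ) := by
    rw [← pow_succ, ← pow_add]
    congr 1
    obtain ⟨m, rfl⟩ := hp
    omega
  show WH w κ ^ ((p - 1) / 2) * (UH p w κ * PH (1 / 2 : k) w κ) i l = _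
  rw [famD_U_eval, hprod, hexp]
  ring

end MPadcOA
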