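import Mathlib

/-!
# Theorem A+, even degree, leaf V4: reversed polynomials, values and derivatives
-/

set_option autoImplicit false

namespace MPadcOA

open Polynomial

variable {k : Type*} [Field k]

/-- PROOF. `Polynomial.eval₂_reflect_mul_pow` (with `Invertible`), or the sums of the coefficients (`eval_eq_sum_range'`, `coeff_reflect`, `revAt_le`, `Finset.sum_range_reflect`). -/
theorem reflect_eval (N : ℕ) (f : k[X]) (hf : f.natDegree ≤ N) (β : k) (hβ : β ≠ 0) :
    (reflect N f).eval β = β ^ N * f.eval β⁻¹ := by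
  let _ : Invertible β⁻¹ := invertibleOfNonzero (inv_ne_zero hβ)
  have h := eval₂_reflect_mul_pow (RingHom.id k) β⁻¹ N f hf
  rw [invOf_eq_inv, inv_inv] at h
  have h1 : (reflect N f).eval β * (β⁻¹) ^ N = f.eval β⁻¹ := h
  rw [← h1, mul_comm (eval β (reflect N f)), ← mul_assoc, ← mul_pow, mul_inv_cancel₀ hβ, one_pow,
    one_mul]

/-- PROOF. It is enough to prove it for `f = C c * X ^ n`, `n ≤ p` (both sides are additive in `f`; `as_sum_range'` with the bound `p + 1`, `reflect_add`, `Finset.sum_induction`-like, or `Polynomial.induction_with_natDegree_le`):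
`reflect p f = C c * X ^ (p - n)`, its derivative is `(p - n) c X ^ (p - n - 1) = - n c X ^ (p - n - 1)` (`(p : k) = 0`), and `(derivative f).eval β⁻¹ = n c β⁻¹ ^ (n - 1)`. -/
theorem reflect_derivative {p : ℕ} [CharP k p] (f : k[X]) (hf : f.natDegree ≤ p) (β : k) (hβ : β ≠ 0) :
    β ^ 2 * (derivative (reflect p f)).eval β = -(β ^ p * (derivative f).eval β⁻¹) := by
  have hp : (p : k) = 0 := CharP.cast_eq_zero k p
  refine induction_with_natDegree_le (fun f : k[X] => β ^ 2 * (derivative (reflect p f)).eval β =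
    -(β ^ p * (derivative f).eval β⁻¹)) p ?_ ?_ ?_ f hf
  · simp only [reflect_zero, derivative_zero, eval_zero, mul_zero, neg_zero]
  · intro n c _ hn
    simp only [reflect_C_mul_X_pow, revAt_le hn, derivative_C_mul_X_pow, eval_mul, eval_C,
      eval_pow, eval_X]
    obtain ⟨m, rfl⟩ := Nat.exists_eq_add_of_le hn
    rw [Nat.add_sub_cancel_left]
    push_cast at hp
    rcases Nat.eq_zero_or_pos n with h0 | h0
    · subst h0
      rw [Nat.cast_zero, zero_add] at hp
      rw [hp, Nat.cast_zero, mul_zero]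
      ring
    rcases Nat.eq_zero_or_pos m with h1 | h1
    · subst h1
      rw [Nat.cast_zero, add_zero] at hp
      rw [hp, Nat.cast_zero, mul_zero]
      ring
    obtain ⟨a, rfl⟩ := Nat.exists_eq_add_of_le' h0
    obtain ⟨b, rfl⟩ := Nat.exists_eq_add_of_le' h1
    have h2 : ((b + 1 : ℕ) : k) = -((a + 1 : ℕ) : k) := by
      rw [eq_neg_iff_add_eq_zero, add_comm]
      exact hp
    have h3 : β ^ (a + 1 + (b + 1)) * β⁻¹ ^ a = β ^ (b + 2) := by
      have h4 : β ^ (a + 1 + (b + 1)) = β ^ (b + 2) * β ^ a := by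
        rw [← pow_add]
        congr 1
        omega
      rw [h4, mul_assoc, ← mul_pow, mul_inv_cancel₀ hβ, one_pow, mul_one]
    rw [Nat.add_sub_cancel, Nat.add_sub_cancel, h2]
    have h5 : -(β ^ (a + 1 + (b + 1)) * (c * ((a + 1 : ℕ) : k) * β⁻¹ ^ a)) =
        -(c * ((a + 1 : ℕ) : k) * (β ^ (a + 1 + (b + 1)) * β⁻¹ ^ a)) := by ring
    rw [h5, h3]
    ring
  · intro f g _ _ h1 h2
    simp only [reflect_add, derivative_add, eval_add, mul_add, neg_add] at h1 h2 ⊢
    rw [h1, h2]

end MPadcOA
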