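import Pool.Agent.Lib.MP_adc574_ag_OAP.V1
import Pool.Agent.Lib.MP_adc574_ag_OAP.V2
import Pool.Agent.Lib.MP_adc574_ag_OAP.V4

/-!
# Theorem A+, even degree, leaf V3: the homogenised frame with constant roots is a transformed frame
-/

set_option autoImplicit false

namespace MPadcOA

open Polynomial Matrix

variable {k : Type*} [Field k] [Infinite k] {g : ℕ} (p : ℕ)

/-- PROOF. Both sides multiplied by `X - C ρ` have the same values at all `x ∈ k` (`Polynomial.funext`, `k` infinite; then cancel `X - C ρ ≠ 0`): for `x ≠ ρ` the value of the left side is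
(`UE_map` for `evalRingHom x`) `UE p (1 / 2) (x - ρ) κ i l = ((x - ρ) * ∏ κ) ^ p * (D.U i l).eval (x - ρ)⁻¹` (`UE_inv`), and the value of the right side is `(∏ κ) ^ p * (reflect p (D.U i l)).eval (x - ρ)`
(`eval_comp`), `reflect_eval`. -/
theorem UE_reflect (hp : Odd p) (ρ : k) (κ : Fin (2 * g) → k) (hκ : ∀ j, κ j ≠ 0) (i : Fin g) (l : Nx g)
    (hU : ((famD p fun j => (κ j)⁻¹).U i l).natDegree ≤ p) :
    UE p (C (1 / 2 : k)) (X - C ρ) (fun j => C (κ j)) i l =
      C ((∏ j, κ j) ^ p) * (((famD p fun j => (κ j)⁻¹).U i l).reflect p).comp (X - C ρ) := by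
  have key : (X - C ρ) * UE p (C (1 / 2 : k)) (X - C ρ) (fun j => C (κ j)) i l = (X - C ρ) *
      (C ((∏ j, κ j) ^ p) * (((famD p fun j => (κ j)⁻¹).U i l).reflect p).comp (X - C ρ)) := by
    refine Polynomial.funext fun y => ?_
    rw [eval_mul, eval_mul]
    by_cases hy : y = ρ
    · rw [hy, eval_sub, eval_X, eval_C, sub_self, zero_mul, zero_mul]
    · have hy' : y - ρ ≠ 0 := sub_ne_zero.2 hy
      refine congrArg (fun t => eval y (X - C ρ) * t) ?_
      have h1 := UE_map (evalRingHom y) p (C (1 / 2 : k)) (X - C ρ) (fun j => C (κ j)) i l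
      simp only [coe_evalRingHom, eval_C, eval_sub, eval_X] at h1
      rw [h1, UE_inv p (y - ρ) κ hp hy' hκ i l, eval_mul, eval_C, eval_comp, eval_sub, eval_X, eval_C,
        reflect_eval p _ hU _ hy']
      unfold WH
      rw [mul_pow]
      ring
  exact mul_left_cancel₀ (X_sub_C_ne_zero ρ) key

end MPadcOA
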