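import Pool.Agent.Lib.MP_adc574_ag_OAP.V0

/-!
# Theorem A+, even degree, leaf V5: homogenised polynomials
-/

set_option autoImplicit false

namespace MPadcOA

open Polynomial

variable {k : Type*} [Field k] {σ : Type*} [Fintype σ]

/-- PROOF. `MvPolynomial.eval_eq'`: `eval x P = ∑ e ∈ P.support, coeff e P * ∏ o, x o ^ e o`; `e o ≤ N` for `e ∈ P.support` (`MvPolynomial.le_totalDegree`, `Finsupp.le_degree`-like:
`e o ≤ ∑ e`), so `v ^ N * v⁻¹ ^ (e o) = v ^ (N - e o)` (`pow_sub₀`), `Finset.prod_mul_distrib`, `Finset.prod_pow`. -/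
theorem hgm_eval (N : ℕ) (v : σ → k[X]) (P : MvPolynomial σ k) (hP : P.totalDegree ≤ N) (α : k)
    (hv : ∀ o, (v o).eval α ≠ 0) :
    (hgm N v P).eval α = (∏ o, (v o).eval α) ^ N * MvPolynomial.eval (fun o => ((v o).eval α)⁻¹) P := by
  rw [MvPolynomial.eval_eq', hgm, Polynomial.eval_finsetSum, Finset.mul_sum]
  refine Finset.sum_congr rfl fun e he => ?_
  have hle : ∀ o, e o ≤ N := by
    intro o
    refine le_trans ?_ ((MvPolynomial.le_totalDegree he).trans hP)
    by_cases ho : o ∈ e.support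
    · exact Finset.single_le_sum (f := e) (fun _ _ => Nat.zero_le _) ho
    · rw [Finsupp.notMem_support_iff.1 ho]
      exact Nat.zero_le _
  rw [Polynomial.eval_mul, Polynomial.eval_C, Polynomial.eval_prod, ← Finset.prod_pow, mul_left_comm,
    ← Finset.prod_mul_distrib]
  refine congrArg (fun r => P.coeff e * r) (Finset.prod_congr rfl fun o _ => ?_)
  rw [Polynomial.eval_pow, pow_sub₀ _ (hv o) (hle o), inv_pow]

/-- PROOF. `Sp.sum`, `Sp.C`, `Sp.mul`, `Sp.pow` (`(N - e o) * 1 ≤ N`), `Sp.prod` (`Fintype.card σ * N`), `Sp.mono`. -/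
theorem hgm_sp {q r : ℕ} (N : ℕ) (v : σ → k[X]) (P : MvPolynomial σ k) (hv : ∀ o, Sp q r 1 1 (v o)) :
    Sp q r (Fintype.card σ * N) (Fintype.card σ * N) (hgm N v P) := by
  unfold hgm
  refine Sp.sum _ _ fun e _ => ?_
  have h1 : Sp q r ((Finset.univ : Finset σ).card * N) ((Finset.univ : Finset σ).card * N)
      (∏ o, v o ^ (N - e o)) := by
    refine Sp.prod _ _ fun o _ => ?_
    exact ((hv o).pow (N - e o)).mono (by omega) (by omega)
  have h2 : Sp q r 0 0 (Polynomial.C (P.coeff e)) := Sp.C _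
  refine (h2.mul h1).mono ?_ ?_
  · rw [zero_add, Finset.card_univ]
  · rw [zero_add, Finset.card_univ]

/-- The discriminant `∏ (T - A j)`: degree and values. PROOF. `totalDegree_finset_prod` (each factor of degree `≤ 1`: `totalDegree_sub`, `totalDegree_X`), `map_prod`, `MvPolynomial.eval_X`. -/
theorem DU_spec (g : ℕ) :
    (∏ j : Fin (2 * g), ((MvPolynomial.X none : MvPolynomial (Option (Fin (2 * g))) k) -
      MvPolynomial.X (some j))).totalDegree ≤ 2 * g ∧
    ∀ x : Option (Fin (2 * g)) → k, MvPolynomial.eval x (∏ j : Fin (2 * g),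
      ((MvPolynomial.X none : MvPolynomial (Option (Fin (2 * g))) k) - MvPolynomial.X (some j))) =
        ∏ j, (x none - x (some j)) := by
  refine ⟨?_, fun x => ?_⟩
  · refine (MvPolynomial.totalDegree_finsetProd _ _).trans ?_
    calc ∑ j : Fin (2 * g), ((MvPolynomial.X none : MvPolynomial (Option (Fin (2 * g))) k) -
          MvPolynomial.X (some j)).totalDegree ≤ ∑ _j : Fin (2 * g), 1 := by
          refine Finset.sum_le_sum fun j _ => ?_
          refine (MvPolynomial.totalDegree_sub _ _).trans ?_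
          rw [MvPolynomial.totalDegree_X, MvPolynomial.totalDegree_X, max_self]
      _ = 2 * g := by
          rw [Finset.sum_const, Finset.card_univ, Fintype.card_fin, smul_eq_mul, mul_one]
  · rw [map_prod]
    refine Finset.prod_congr rfl fun j _ => ?_
    rw [map_sub, MvPolynomial.eval_X, MvPolynomial.eval_X]

end MPadcOA
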