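import Pool.Agent.Lib.MP_adc574_ag_OAP.V3

/-!
# Theorem A+, even degree, leaf V6: the specialisations
-/

set_option autoImplicit false

namespace MPadcOA

open Polynomial Matrix

variable {k : Type} [Field k] {g : ℕ}

/-- PROOF. `bad_ne_zero`, `Roots.ne_X` for `z` (the constant family; `0 < g`), `sub_ne_zero`, `Finset.prod_ne_zero_iff`. -/
theorem badE_ne_zero {q r : ℕ} (hg : 0 < g) (hq : 1 < q) {a : Fin (2 * g) → k[X]} {z : k[X]} (ha : Roots q r a)
    (hz : Roots q r fun _ : Fin (2 * g) => z) (hinj : Function.Injective a) (hza : ∀ j, a j ≠ z) :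
    badE a z ≠ 0 := by
  unfold badE
  have h1 : X - z ≠ 0 := Roots.ne_X hq hz ⟨0, by omega⟩
  refine mul_ne_zero (bad_ne_zero hq ha hinj) (mul_ne_zero h1 ?_)
  exact Finset.prod_ne_zero_iff.2 fun j _ => sub_ne_zero.2 (hza j)

/-- PROOF. `bad_eval` (the second part: `∏ (α - a j(α)) ≠ 0`), `eval_mul`, `eval_prod`, `eval_sub`, `Finset.prod_ne_zero_iff`. -/
theorem badE_eval {a : Fin (2 * g) → k[X]} {z : k[X]} {α : k} (h : (badE a z).eval α ≠ 0) :
    Function.Injective (fun j => (a j).eval α) ∧ (∀ j, (a j).eval α ≠ α) ∧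
      (∀ j, (a j).eval α ≠ z.eval α) ∧ z.eval α ≠ α := by
  unfold badE at h
  rw [eval_mul, eval_mul] at h
  have h1 := left_ne_zero_of_mul h
  have h2 := left_ne_zero_of_mul (right_ne_zero_of_mul h)
  have h3 := right_ne_zero_of_mul (right_ne_zero_of_mul h)
  obtain ⟨h4, h5⟩ := bad_eval h1
  rw [eval_sub, eval_X] at h2
  rw [eval_prod] at h3 h5
  rw [Finset.prod_ne_zero_iff] at h3 h5
  refine ⟨h4, fun j hj => ?_, fun j hj => ?_, fun hj => ?_⟩
  · refine h5 j (Finset.mem_univ j) ?_
    rw [eval_sub, eval_X, eval_C, hj, sub_self]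
  · refine h3 j (Finset.mem_univ j) ?_
    rw [eval_sub, hj, sub_self]
  · exact h2 (by rw [hj, sub_self])

/-- PROOF. `inv_injective`, `sub_left_injective`. -/
theorem kap_injective {a : Fin (2 * g) → k[X]} {z : k[X]} {α : k}
    (h : Function.Injective fun j => (a j).eval α) : Function.Injective (kap a z α) := by
  intro i j hij
  unfold kap at hij
  exact h (sub_left_injective (inv_injective hij))

/-- THE SPECIALISATION. PROOF. Second case of `SpecOk` with `D = famD p (kap a z α)`, `ρ = z.eval α`, `κ = (∏ (a j (α) - z(α))) ^ p`; `famD_spec` (`4 g + 5 ≤ p`, `kap_injective`), `Ok_mono`;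
`D.Δ = ∏ (X - C (kap a z α j))`, its value at `(α - ρ)⁻¹` is not zero since `a j (α) ≠ α`. The congruence: `congr_UE` with `P = (X - C α) ^ q`, `w' = X - C (z.eval α)`, `κ' j = C ((a j).eval α - z.eval α)`
(`ha`, `hz`; `C_sub`), and `UE_reflect`. -/
theorem spec_E [Infinite k] {p q c : ℕ} [CharP k p] (hp : p.Prime) (hg : 0 < g) (hpp : 4 * g + 5 ≤ p)
    (hc : 4 * g + 4 ≤ c) (a : Fin (2 * g) → k[X]) (z : k[X]) (α : k)
    (ha : ∀ j, (X - C α) ^ q ∣ a j - C ((a j).eval α)) (hz : (X - C α) ^ q ∣ z - C (z.eval α))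
    (h : (badE a z).eval α ≠ 0) :
    SpecOk p c (UA p a z α) α ∧
      ∀ i l, (X - C α) ^ q ∣ UE p (C (1 / 2 : k)) (X - z) (fun j => a j - z) i l - UA p a z α i l := by
  obtain ⟨hinj, hne, hnz, hzα⟩ := badE_eval h
  have hk : Function.Injective (kap a z α) := kap_injective hinj
  obtain ⟨hOk, hdeg, -⟩ := famD_spec p (kap a z α) hg hp hpp hk
  have hodd : Odd p := by
    rcases hp.eq_two_or_odd' with h' | h'
    · omega
    · exact h'
  have hκ0 : ∀ j, (a j).eval α - z.eval α ≠ 0 := fun j => sub_ne_zero.2 (hnz j)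
  refine ⟨Or.inr ⟨famD p (kap a z α), z.eval α, (∏ j, ((a j).eval α - z.eval α)) ^ p,
    Ok_mono hc _ hOk, hdeg, ?_, fun h' => hzα h'.symm, ?_, fun i l => rfl⟩, ?_⟩
  · exact pow_ne_zero _ (Finset.prod_ne_zero_iff.2 fun j _ => hκ0 j)
  · have e : (famD p (kap a z α)).Δ = ∏ j, (X - C (kap a z α j)) := rfl
    rw [e, eval_prod, Finset.prod_ne_zero_iff]
    intro j _ hj
    rw [eval_sub, eval_X, eval_C, sub_eq_zero] at hj
    unfold kap at hj
    exact hne j (sub_left_injective (inv_injective hj)).symm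
  · intro i l
    have h1 := congr_UE p (C (1 / 2 : k)) (X - z) (fun j => a j - z) ((X - C α) ^ q) (X - C (z.eval α))
      (fun j => C ((a j).eval α - z.eval α))
      (by
        have e : X - z - (X - C (z.eval α)) = -(z - C (z.eval α)) := by ring
        rw [e]
        exact (dvd_neg.2 hz))
      (by
        intro j
        have e : a j - z - C ((a j).eval α - z.eval α) = (a j - C ((a j).eval α)) - (z - C (z.eval α)) := by
          rw [C_sub]
          ring
        rw [e]
        exact dvd_sub (ha j) hz) i l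
    rw [UE_reflect p hodd (z.eval α) (fun j => (a j).eval α - z.eval α) hκ0 i l (hdeg i l)] at h1
    exact h1

end MPadcOA
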