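import Pool.Agent.Lib.MP_adc574_ag_OAP.V0
import Pool.Agent.Lib.MP_adc574_ag_OAP.V4

/-!
# Theorem A+, even degree, leaf V7a: the values of the specialised frame
-/

set_option autoImplicit false

namespace MPadcOA

open Polynomial Matrix

variable {k : Type} [Field k] {g : ℕ}

/-- The values of the specialised frame and of its derivative. PROOF. `β = α - z(α) ≠ 0`, `f = (famD p (kap a z α)).U i l` of degree `≤ p`; `eval_comp`, `derivative_comp`, `reflect_eval`, `reflect_derivative`. -/
theorem UA_eval {p : ℕ} [CharP k p] (a : Fin (2 * g) → k[X]) (z : k[X]) (α : k) (h : z.eval α ≠ α) (i : Fin g) (l : Nx g)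
    (hU : ((famD p (kap a z α)).U i l).natDegree ≤ p) :
    (UA p a z α i l).eval α = (∏ j, ((a j).eval α - z.eval α)) ^ p *
        ((α - z.eval α) ^ p * ((famD p (kap a z α)).U i l).eval (α - z.eval α)⁻¹) ∧
      (α - z.eval α) ^ 2 * (derivative (UA p a z α i l)).eval α = (∏ j, ((a j).eval α - z.eval α)) ^ p *
        -((α - z.eval α) ^ p * (derivative ((famD p (kap a z α)).U i l)).eval (α - z.eval α)⁻¹) := by
  have hβ : α - z.eval α ≠ 0 := sub_ne_zero.2 (Ne.symm h)
  obtain ⟨f, hf⟩ : ∃ f : k[X], f = (famD p (kap a z α)).U i l := ⟨_, rfl⟩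
  have hUA : UA p a z α i l = C ((∏ j, ((a j).eval α - z.eval α)) ^ p) *
      ((f.reflect p).comp (X - C (z.eval α))) := by
    rw [hf]
    rfl
  rw [hUA, ← hf]
  rw [← hf] at hU
  constructor
  · rw [eval_mul, eval_C, eval_comp, eval_sub, eval_X, eval_C, reflect_eval p f hU _ hβ]
  · rw [derivative_mul, derivative_C, zero_mul, zero_add, derivative_comp, derivative_sub,
      derivative_X, derivative_C, sub_zero, one_mul, eval_mul, eval_C, eval_comp, eval_sub,
      eval_X, eval_C, mul_left_comm, reflect_derivative f hU _ hβ]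

end MPadcOA
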