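import Pool.Agent.Lib.MP_adc574_ag_OAP.V6
import Pool.Agent.Lib.MP_adc574_ag_OAP.V7a
import Pool.Agent.Lib.MP_adc574_ag_OAP.V5
import Pool.Agent.Lib.MP_adc574_ag_OAP.UG2
import Pool.Agent.Lib.MP_adc574_ag_OAP.R3

/-!
# Theorem A+, even degree, leaf V7: the homogenised frame is horizontal
-/

set_option autoImplicit false

namespace MPadcOA

open Polynomial Matrix

variable {k : Type} [Field k] {g : ℕ}

private theorem V7_val [Infinite k] {p q N : ℕ} [CharP k p] (hp : p.Prime) (hg : 0 < g) (hpp : 4 * g + 5 ≤ p)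
    (hq : 2 ≤ q) (hN : NG g ≤ N) (a : Fin (2 * g) → k[X]) (z : k[X]) (α : k)
    (ha : ∀ j, (X - C α) ^ q ∣ a j - C ((a j).eval α)) (hz : (X - C α) ^ q ∣ z - C (z.eval α))
    (hB : (badE a z).eval α ≠ 0) (GG : Matrix (Nx g) (Nx g) (RU g k)) (hGd : ∀ i j, (GG i j).totalDegree ≤ NG g)
    (hGG : ∀ (b : Fin (2 * g) → k) (i j : Nx g), (famD p b).G i j = uev b (GG i j)) (i : Fin g) (l : Nx g) :
    ((α - z.eval α) ^ 2 * (hgm N (vv a z) (∏ j : Fin (2 * g),
        ((MvPolynomial.X none : MvPolynomial (Option (Fin (2 * g))) k) - MvPolynomial.X (some j)))).eval α) *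
        (derivative (UE p (C (1 / 2 : k)) (X - z) (fun j => a j - z) i l)).eval α =
      ∑ l', (UE p (C (1 / 2 : k)) (X - z) (fun j => a j - z) i l').eval α *
        -((hgm N (vv a z) (GG l' l)).eval α) := by
  obtain ⟨h1, h2, h3, h4⟩ := badE_eval hB
  have hN2 : 2 * g ≤ N := by
    have e1 : 2 * g ≤ NG g := by
      unfold NG
      omega
    exact e1.trans hN
  obtain ⟨hD, hDU, -⟩ := famD_spec p (kap a z α) hg hp hpp (kap_injective h1)
  have hc := (spec_E (c := 4 * g + 4) hp hg hpp le_rfl a z α ha hz hB).2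
  have hev : ∀ l', (UE p (C (1 / 2 : k)) (X - z) (fun j => a j - z) i l').eval α =
      (∏ j, ((a j).eval α - z.eval α)) ^ p *
        ((α - z.eval α) ^ p * ((famD p (kap a z α)).U i l').eval (α - z.eval α)⁻¹) := by
    intro l'
    rw [(eval_of_sq_dvd α _ _ ((pow_dvd_pow _ hq).trans (hc i l'))).1]
    exact (UA_eval a z α h4 i l' (hDU i l')).1
  have hde : (α - z.eval α) ^ 2 *
      (derivative (UE p (C (1 / 2 : k)) (X - z) (fun j => a j - z) i l)).eval α =
      (∏ j, ((a j).eval α - z.eval α)) ^ p *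
        -((α - z.eval α) ^ p * (derivative ((famD p (kap a z α)).U i l)).eval (α - z.eval α)⁻¹) := by
    rw [(eval_of_sq_dvd α _ _ ((pow_dvd_pow _ hq).trans (hc i l))).2]
    exact (UA_eval a z α h4 i l (hDU i l)).2
  have hv : ∀ o, (vv a z o).eval α ≠ 0 := by
    intro o
    rcases o with _ | j
    · show (X - z).eval α ≠ 0
      rw [eval_sub, eval_X]
      exact sub_ne_zero.2 fun h => h4 h.symm
    · show (a j - z).eval α ≠ 0
      rw [eval_sub]
      exact sub_ne_zero.2 (h3 j)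
  have hx : (fun o => ((vv a z o).eval α)⁻¹) =
      fun o : Option (Fin (2 * g)) => o.elim (α - z.eval α)⁻¹ (kap a z α) := by
    funext o
    rcases o with _ | j
    · show ((X - z).eval α)⁻¹ = (α - z.eval α)⁻¹
      rw [eval_sub, eval_X]
    · show ((a j - z).eval α)⁻¹ = ((a j).eval α - z.eval α)⁻¹
      rw [eval_sub]
  have hG : ∀ l', (hgm N (vv a z) (GG l' l)).eval α = (∏ o, (vv a z o).eval α) ^ N *
      ((famD p (kap a z α)).G l' l).eval (α - z.eval α)⁻¹ := by
    intro l'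
    rw [hgm_eval N (vv a z) (GG l' l) ((hGd l' l).trans hN) α hv, hx, ← uev_eval, hGG]
  have hDel : (hgm N (vv a z) (∏ j : Fin (2 * g),
      ((MvPolynomial.X none : MvPolynomial (Option (Fin (2 * g))) k) - MvPolynomial.X (some j)))).eval α =
      (∏ o, (vv a z o).eval α) ^ N * ((famD p (kap a z α)).Δ).eval (α - z.eval α)⁻¹ := by
    rw [hgm_eval N (vv a z) _ ((DU_spec g).1.trans hN2) α hv, hx, (DU_spec g).2]
    congr 1
    show ∏ j, ((α - z.eval α)⁻¹ - kap a z α j) = eval (α - z.eval α)⁻¹ (∏ j, (X - C (kap a z α j)))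
    rw [eval_prod]
    refine Finset.prod_congr rfl fun j _ => ?_
    rw [eval_sub, eval_X, eval_C]
  have hh : ((famD p (kap a z α)).Δ).eval (α - z.eval α)⁻¹ *
      (derivative ((famD p (kap a z α)).U i l)).eval (α - z.eval α)⁻¹ =
      ∑ l', ((famD p (kap a z α)).U i l').eval (α - z.eval α)⁻¹ *
        ((famD p (kap a z α)).G l' l).eval (α - z.eval α)⁻¹ := by
    have e1 := congrArg (eval (α - z.eval α)⁻¹) (hD.horU i l)
    rw [eval_mul, Matrix.mul_apply, eval_finsetSum] at e1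
    rw [e1]
    exact Finset.sum_congr rfl fun l' _ => eval_mul
  have e2 : ∑ l', (UE p (C (1 / 2 : k)) (X - z) (fun j => a j - z) i l').eval α *
        -((hgm N (vv a z) (GG l' l)).eval α) =
      -((∏ j, ((a j).eval α - z.eval α)) ^ p * (α - z.eval α) ^ p * (∏ o, (vv a z o).eval α) ^ N) *
        ∑ l', ((famD p (kap a z α)).U i l').eval (α - z.eval α)⁻¹ *
        ((famD p (kap a z α)).G l' l).eval (α - z.eval α)⁻¹ := by
    rw [Finset.mul_sum]
    refine Finset.sum_congr rfl fun l' _ => ?_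
    rw [hev, hG]
    ring
  rw [e2, ← hh, hDel]
  linear_combination ((∏ o, (vv a z o).eval α) ^ N * ((famD p (kap a z α)).Δ).eval (α - z.eval α)⁻¹) * hde

/-- THE HOMOGENISED FRAME IS HORIZONTAL. `GG` are the universal polynomials of `univ_G`, `N ≥ NG g`. PROOF. Multiply by `badE a z ≠ 0` and compare the values at all `α ∈ k` (`Polynomial.funext`). If `badE` is zero at `α` there is nothing to do. Otherwise let
`w = α - z(α)`, `κ j = a j (α) - z(α)`, `D = famD p (kap a z α)` (`kap = κ⁻¹`, injective), `y = w⁻¹`, `H = w * ∏ κ j` (`Fintype.prod_option` for the product over the variables `vv`). By `spec_E` (`2 ≤ q`: `pow_dvd_pow`), `eval_of_sq_dvd` and `UA_eval`, with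
`K = (∏ κ) ^ p`: the value of `UE i l` at `α` is `K w ^ p D.U i l (y)`, and `w ^ 2` times the value of its derivative is `- K w ^ p (D.U i l)'(y)`. By `hgm_eval`, `DU_spec`, `uev_eval`: the value of
`hgm N (vv a z) (∏ (T - A j))` is `H ^ N * ∏ (y - kap j) = H ^ N * D.Δ(y)`, the value of `hgm N (vv a z) (GG l' l)` is `H ^ N * D.G l' l (y)` (`(famD p _).G l' l = uev _ (GG l' l)`). So the left side is `- H ^ N K w ^ p D.Δ(y) (D.U i l)'(y)`, the right side
`- H ^ N K w ^ p (D.U * D.G) i l (y)`: equal by `horU`. -/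
theorem hor_E [Infinite k] {p q c N : ℕ} [CharP k p] (hp : p.Prime) (hg : 0 < g) (hpp : 4 * g + 5 ≤ p) (hq : 2 ≤ q)
    (hN : NG g ≤ N) (a : Fin (2 * g) → k[X]) (z : k[X])
    (ha : ∀ α : k, ∀ j, (X - C α) ^ q ∣ a j - C ((a j).eval α)) (hz : ∀ α : k, (X - C α) ^ q ∣ z - C (z.eval α))
    (hB : badE a z ≠ 0) (GG : Matrix (Nx g) (Nx g) (RU g k)) (hGd : ∀ i j, (GG i j).totalDegree ≤ NG g)
    (hGG : ∀ (b : Fin (2 * g) → k) (i j : Nx g), (famD p b).G i j = uev b (GG i j)) (i : Fin g) (l : Nx g) :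
    ((X - z) ^ 2 * hgm N (vv a z) (∏ j : Fin (2 * g), (MvPolynomial.X none - MvPolynomial.X (some j)))) *
        derivative (UE p (C (1 / 2 : k)) (X - z) (fun j => a j - z) i l) =
      (UE p (C (1 / 2 : k)) (X - z) (fun j => a j - z) *
        (Matrix.of fun l' l => -hgm N (vv a z) (GG l' l) : Matrix (Nx g) (Nx g) k[X])) i l := by
  refine mul_left_cancel₀ hB ?_
  refine Polynomial.funext fun α => ?_
  refine eval_mul.trans (Eq.trans ?_ eval_mul.symm)
  by_cases hα : (badE a z).eval α = 0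
  · rw [hα, zero_mul, zero_mul]
  · refine congrArg (fun y => (badE a z).eval α * y) ?_
    have e1 := V7_val hp hg hpp hq hN a z α (ha α) (hz α) hα GG hGd hGG i l
    rw [Matrix.mul_apply, eval_finsetSum, eval_mul, eval_mul, eval_pow, eval_sub, eval_X]
    refine e1.trans (Finset.sum_congr rfl fun l' _ => ?_)
    refine Eq.trans ?_ eval_mul.symm
    refine congrArg (fun y => (UE p (C (1 / 2 : k)) (X - z) (fun j => a j - z) i l').eval α * y) ?_
    exact (eval_neg _ _).symm

end MPadcOA
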