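import Pool.Agent.Lib.MP_adc574_ag_OAP.V1
import Pool.Agent.Lib.MP_adc574_ag_OA.O5

/-!
# Theorem A+, even degree, leaf V9: the determinant of the first columns of the homogenised frame
-/

set_option autoImplicit false

namespace MPadcOA

open Polynomial Matrix MPadcCC

private theorem V9_lin {k : Type*} [Field k] (a : k) : reflect 1 (X - C a : k[X]) = 1 - C a * X := by
  have h1 : reflect 1 (X : k[X]) = 1 := by
    have h2 := reflect_monomial (R := k) 1 1
    rw [pow_one, revAt_le le_rfl, Nat.sub_self, pow_zero] at h2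
    exact h2
  rw [sub_eq_add_neg, reflect_add, h1, reflect_neg, reflect_C, pow_one, sub_eq_add_neg]

private theorem V9_prod {k : Type*} [Field k] {ι : Type*} (b : ι → k) (t : Finset ι) :
    (∏ j ∈ t, (X - C (b j))).natDegree ≤ t.card ∧
      reflect t.card (∏ j ∈ t, (X - C (b j))) = ∏ j ∈ t, (1 - C (b j) * X) := by
  classical
  induction t using Finset.induction_on with
  | empty =>
    rw [Finset.prod_empty, Finset.prod_empty, Finset.card_empty]
    refine ⟨natDegree_one.le, ?_⟩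
    have h := reflect_C (1 : k) 0
    rw [C_1, pow_zero, one_mul] at h
    exact h
  | insert a t ha ih =>
    have h1 : (X - C (b a)).natDegree ≤ 1 := (natDegree_X_sub_C (b a)).le
    rw [Finset.prod_insert ha, Finset.prod_insert ha, Finset.card_insert_of_notMem ha, add_comm t.card 1]
    refine ⟨natDegree_mul_le.trans (add_le_add h1 ih.1), ?_⟩
    rw [reflect_mul _ _ h1 ih.1, V9_lin, ih.2]

private theorem V9_pow {k : Type*} [Field k] {N : ℕ} (f : k[X]) (hf : f.natDegree ≤ N) (n : ℕ) :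
    (f ^ n).natDegree ≤ N * n ∧ reflect (N * n) (f ^ n) = (reflect N f) ^ n := by
  induction n with
  | zero =>
    rw [pow_zero, pow_zero, mul_zero]
    refine ⟨natDegree_one.le, ?_⟩
    have h := reflect_C (1 : k) 0
    rw [C_1, pow_zero, one_mul] at h
    exact h
  | succ n ih =>
    rw [pow_succ, pow_succ, mul_add, mul_one]
    refine ⟨natDegree_mul_le.trans (add_le_add ih.1 hf), ?_⟩
    rw [reflect_mul _ _ ih.1 hf, ih.2]

private theorem V9_hw {k : Type*} [Field k] (p m : ℕ) (c : k) (G : k[X]) :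
    hw p m (C c * G) = c • hw p m G := by
  ext i j
  show (C c * G).coeff _ = c * G.coeff _
  rw [coeff_C_mul]

private theorem V9_neg {k : Type*} [Field k] {ι : Type*} (b : ι → k) (t : Finset ι) :
    ∏ j ∈ t, (C (b j) * X - 1) = (-1 : k[X]) ^ t.card * ∏ j ∈ t, (1 - C (b j) * X) := by
  rw [← Finset.prod_const, ← Finset.prod_mul_distrib]
  refine Finset.prod_congr rfl fun j _ => ?_
  ring

private theorem V9_FH {k : Type*} [Field k] {g : ℕ} (s : k) (b : Fin (2 * g) → k) :
    (1 - C s * X) * ∏ j, (1 - C (b j) * X) = C (-1) * FH s b := by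
  unfold FH
  rw [V9_neg, Finset.card_univ, Fintype.card_fin, pow_mul, neg_one_sq, one_pow, one_mul, C_neg, C_1]
  ring

private theorem V9_fst {k : Type*} [Field k] {g : ℕ} (p : ℕ) (h s : k) (b : Fin (2 * g) → k) :
    fst (UE p h s b) = (WH s b ^ ((p - 1) / 2) * WH s b) • (hw p (g + 1) (FH s b ^ ((p - 1) / 2)) :
      Matrix (Fin g) (Fin g) k) := by
  refine Matrix.ext fun i j => ?_
  show WH s b ^ ((p - 1) / 2) * (UH p s b * PH h s b) i (Sum.inl j) =
    WH s b ^ ((p - 1) / 2) * WH s b * (FH s b ^ ((p - 1) / 2)).coeff (p * ((i : ℕ) + 1) - ((j : ℕ) + 1))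
  have h1 : (UH p s b * PH h s b) i (Sum.inl j) =
      WH s b * (FH s b ^ ((p - 1) / 2)).coeff (p * ((i : ℕ) + 1) - ((j : ℕ) + 1)) := by
    rw [Matrix.mul_apply, Fintype.sum_sum_type]
    have h2 : ∑ x : Fin g, UH p s b i (Sum.inr x) * PH h s b (Sum.inr x) (Sum.inl j) = 0 :=
      Finset.sum_eq_zero fun x _ => by
        show UH p s b i (Sum.inr x) * (0 : k) = 0
        rw [mul_zero]
    rw [h2, add_zero, Finset.sum_eq_single j]
    · show (FH s b ^ ((p - 1) / 2)).coeff (p * ((i : ℕ) + 1) - ((j : ℕ) + 1)) *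
        (WH s b • (1 : Matrix (Fin g) (Fin g) k)) j j = _
      rw [Matrix.smul_apply, Matrix.one_apply_eq, smul_eq_mul, mul_one, mul_comm]
    · intro x _ hx
      show UH p s b i (Sum.inl x) * (WH s b • (1 : Matrix (Fin g) (Fin g) k)) x j = 0
      rw [Matrix.smul_apply, Matrix.one_apply_ne hx, smul_zero, mul_zero]
    · intro hj
      exact absurd (Finset.mem_univ j) hj
  rw [h1, mul_assoc]

/-- PROOF. `reflect (2 g + 2) ((X - s) * (X * ∏ (X - b j))) = (1 - s X) ∏ (1 - b j X) = - FH s b` (as in `det_hw_inv` of O5, whose private lemmas `O5b_lin`, `O5b_prod`, `O5b_pow`, `O5b_hw` are to be copied with the prefix V9_; the number of the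
factors is odd), so by `det_hw_reflect` the determinant of `hw p (g + 1) (FH s b ^ ((p - 1) / 2))` is zero (it is that of the hypothesis up to the factor `(-1) ^ ..`). The first `g` columns of `PH` are `WH • ` those of the identity, so
`fst (UE ..) = WH ^ ((p - 1) / 2) • WH • hw p (g + 1) (FH ^ ((p - 1) / 2))` (`nu (inl j) = j`), `det_smul`. -/
theorem det_UE {k : Type*} [Field k] {p : ℕ} (g : ℕ) (hg : g < p) (hp : Odd p) (s : k) (b : Fin (2 * g) → k)
    (h : (hw p (g + 1) (((X - C s) * (X * ∏ j, (X - C (b j)))) ^ ((p - 1) / 2))).det = 0) :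
    (fst (UE p (1 / 2 : k) s b)).det = 0 := by
  obtain ⟨n, hn⟩ : ∃ n, n = (p - 1) / 2 := ⟨_, rfl⟩
  obtain ⟨F, hF⟩ : ∃ F : k[X], F = (X - C s) * (X * ∏ j, (X - C (b j))) := ⟨_, rfl⟩
  have hN : (g + 1) * (p - 1) = (1 + (1 + 2 * g)) * n := by
    obtain ⟨m, hm⟩ := hp
    have h1 : n = m := by omega
    have h2 : p - 1 = 2 * m := by omega
    rw [h1, h2]
    ring
  have hP := V9_prod b (Finset.univ : Finset (Fin (2 * g)))
  rw [Finset.card_univ, Fintype.card_fin] at hP
  have hX : reflect 1 (X : k[X]) = 1 := by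
    have h2 := reflect_monomial (R := k) 1 1
    rw [pow_one, revAt_le le_rfl, Nat.sub_self, pow_zero] at h2
    exact h2
  have d1 : (X - C s).natDegree ≤ 1 := (natDegree_X_sub_C s).le
  have d2 : (X : k[X]).natDegree ≤ 1 := natDegree_X.le
  have d3 : (X * ∏ j, (X - C (b j))).natDegree ≤ 1 + 2 * g :=
    natDegree_mul_le.trans (add_le_add d2 hP.1)
  have d4 : F.natDegree ≤ 1 + (1 + 2 * g) := by
    rw [hF]
    exact natDegree_mul_le.trans (add_le_add d1 d3)
  have hrF : reflect (1 + (1 + 2 * g)) F = C (-1) * FH s b := by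
    rw [hF, reflect_mul _ _ d1 d3, reflect_mul _ _ d2 hP.1, hX, one_mul, hP.2, V9_lin, V9_FH]
  have hrG : reflect ((g + 1) * (p - 1)) (F ^ n) = C ((-1) ^ n) * FH s b ^ n := by
    rw [hN, (V9_pow F d4 n).2, hrF, mul_pow, C_pow]
  have h1 := det_hw_reflect g hg (F ^ n)
  rw [← hn, ← hF] at h
  rw [hrG, V9_hw, Matrix.det_smul, h] at h1
  have h2 : (hw p (g + 1) (FH s b ^ n)).det = 0 :=
    (mul_eq_zero.1 h1).resolve_left (pow_ne_zero _ (pow_ne_zero _ (neg_ne_zero.2 one_ne_zero)))
  rw [V9_fst, Matrix.det_smul, ← hn]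
  have h3 : (hw p (g + 1) (FH s b ^ n) : Matrix (Fin g) (Fin g) k).det = 0 := h2
  rw [h3, mul_zero]

end MPadcOA
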